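import Pool.Agent.H520.CG3.Hk

/-!
# Actions on the cohomology in degrees zero and one (helper520, MP_34be05_nt)
-/

open CategoryTheory groupCohomology Q4.GLC

namespace Pool.Agent.H520.CG3

variable {O Γ T : Type} [CommRing O] [Group Γ] [CommRing T] (A : Rep.{0} O Γ)

/-- `D` acts in degree zero through `Φ` -/
def Act0 [Module T (groupCohomology A 0)] {V : Type} (vl : A → V) (D : T) (Φ : V → V) : Prop :=
  ∀ f : A.ρ.invariants, ∃ f' : A.ρ.invariants, vl f'.1 = Φ (vl f.1) ∧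
    D • ((H0Iso A).inv f : groupCohomology A 0) = (H0Iso A).inv f'

/-- `D` acts in degree one through `Φ` -/
def Act1 [Module T (groupCohomology A 1)] {V : Type} (vl : A → V) (D : T) (Φ : V → V) : Prop :=
  ∀ c : cocycles₁ A, ∃ c' : cocycles₁ A, (∀ γ, vl (c' γ) = Φ (vl (c γ))) ∧
    D • (H1π A c : groupCohomology A 1) = H1π A c'

section zero

variable {A} [Module T (groupCohomology A 0)] {V : Type} [AddCommGroup V] {vl : A →+ V}

theorem Act0.mul {D E : T} {Φ Ψ : V → V} (hD : Act0 A vl D Φ) (hE : Act0 A vl E Ψ) :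
    Act0 A vl (D * E) (fun w => Φ (Ψ w)) := by
  intro f
  obtain ⟨f1, h1, e1⟩ := hE f
  obtain ⟨f2, h2, e2⟩ := hD f1
  refine ⟨f2, by rw [h2, h1], ?_⟩
  rw [mul_smul, e1, e2]

theorem Act0.sub {D E : T} {Φ Ψ : V → V} (hD : Act0 A vl D Φ) (hE : Act0 A vl E Ψ) :
    Act0 A vl (D - E) (fun w => Φ w - Ψ w) := by
  intro f
  obtain ⟨f1, h1, e1⟩ := hD f
  obtain ⟨f2, h2, e2⟩ := hE f
  refine ⟨f1 - f2, ?_, ?_⟩
  · change vl (f1.1 - f2.1) = Φ (vl f.1) - Ψ (vl f.1)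
    rw [← h1, ← h2, map_sub]
  · rw [sub_smul, e1, e2, ← map_sub]

theorem Act0.nat (n : ℕ) : Act0 A vl (n : T) (fun w => n • w) := by
  intro f
  refine ⟨n • f, ?_, ?_⟩
  · change vl (n • f.1) = n • vl f.1
    rw [map_nsmul]
  · rw [Nat.cast_smul_eq_nsmul, ← map_nsmul]

theorem Act0.congr {D : T} {Φ Ψ : V → V} (hD : Act0 A vl D Φ)
    (h : ∀ f : A.ρ.invariants, Φ (vl f.1) = Ψ (vl f.1)) : Act0 A vl D Ψ := by
  intro f
  obtain ⟨f1, h1, e1⟩ := hD f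
  exact ⟨f1, by rw [h1, h], e1⟩

theorem Act0.of_map {D : T} (φ : A ⟶ A)
    (h : ∀ x : groupCohomology A 0, D • x = map (MonoidHom.id Γ) φ 0 x) {Φ : V → V}
    (hΦ : ∀ x, vl (φ.hom x) = Φ (vl x)) : Act0 A vl D Φ := by
  intro f
  refine ⟨⟨φ.hom f.1, fun g => ?_⟩, hΦ f.1, ?_⟩
  · rw [← Rep.hom_comm_apply, f.2 g]
  · rw [h]
    have h1 := congrArg (fun z => z.hom ((H0Iso A).inv f)) (map_id_comp_H0Iso_hom φ)
    simp only [ModuleCat.hom_comp, LinearMap.comp_apply] at h1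
    have h2 : (H0Iso A).hom ((H0Iso A).inv f) = f := by simp
    have h3 : ∀ y, (H0Iso A).inv ((H0Iso A).hom y) = y := fun y => by simp
    refine (h3 _).symm.trans ?_
    refine congrArg (H0Iso A).inv.hom ?_
    refine Eq.trans h1 ?_
    refine Eq.trans (congrArg _ h2) ?_
    rfl

/-- vanishing in degree zero -/
theorem Act0.zero {D : T} (hinj : Function.Injective vl) {Φ : V → V} (hD : Act0 A vl D Φ)
    (h : ∀ f : A.ρ.invariants, Φ (vl f.1) = 0) (x : groupCohomology A 0) : D • x = 0 := by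
  obtain ⟨f, rfl⟩ : ∃ f, (H0Iso A).inv f = x := ⟨(H0Iso A).hom x, by simp⟩
  obtain ⟨f', h1, e⟩ := hD f
  rw [h, ← map_zero vl] at h1
  have h2 : f' = 0 := Subtype.ext (hinj h1)
  rw [e, h2, map_zero]

end zero

section one

variable {A} [Module T (groupCohomology A 1)] {V : Type} [AddCommGroup V] {vl : A →+ V}

theorem Act1.mul {D E : T} {Φ Ψ : V → V} (hD : Act1 A vl D Φ) (hE : Act1 A vl E Ψ) :
    Act1 A vl (D * E) (fun w => Φ (Ψ w)) := by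
  intro f
  obtain ⟨f1, h1, e1⟩ := hE f
  obtain ⟨f2, h2, e2⟩ := hD f1
  refine ⟨f2, fun γ => by rw [h2, h1], ?_⟩
  rw [mul_smul, e1, e2]

theorem Act1.sub {D E : T} {Φ Ψ : V → V} (hD : Act1 A vl D Φ) (hE : Act1 A vl E Ψ) :
    Act1 A vl (D - E) (fun w => Φ w - Ψ w) := by
  intro f
  obtain ⟨f1, h1, e1⟩ := hD f
  obtain ⟨f2, h2, e2⟩ := hE f
  refine ⟨f1 - f2, fun γ => ?_, ?_⟩
  · change vl (f1 γ - f2 γ) = Φ (vl (f γ)) - Ψ (vl (f γ))
    rw [← h1, ← h2, map_sub]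
  · rw [sub_smul, e1, e2, ← map_sub]

theorem Act1.nat (n : ℕ) : Act1 A vl (n : T) (fun w => n • w) := by
  intro f
  refine ⟨n • f, fun γ => ?_, ?_⟩
  · change vl (n • f γ) = n • vl (f γ)
    rw [map_nsmul]
  · rw [Nat.cast_smul_eq_nsmul, ← map_nsmul]

theorem Act1.congr {D : T} {Φ Ψ : V → V} (hD : Act1 A vl D Φ)
    (h : ∀ a : A, Φ (vl a) = Ψ (vl a)) : Act1 A vl D Ψ := by
  intro f
  obtain ⟨f1, h1, e1⟩ := hD f
  exact ⟨f1, fun γ => by rw [h1, h], e1⟩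

theorem Act1.of_map {D : T} (φ : A ⟶ A)
    (h : ∀ x : groupCohomology A 1, D • x = map (MonoidHom.id Γ) φ 1 x) {Φ : V → V}
    (hΦ : ∀ x, vl (φ.hom x) = Φ (vl x)) : Act1 A vl D Φ := by
  intro c
  refine ⟨mapCocycles₁ (MonoidHom.id Γ) φ c, fun γ => hΦ _, ?_⟩
  rw [h]
  exact congrArg (fun z => z.hom c) (H1π_comp_map (MonoidHom.id Γ) φ)

/-- vanishing in degree one -/
theorem Act1.zero {D : T} (hinj : Function.Injective vl) {Φ : V → V} (hD : Act1 A vl D Φ)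
    (h : ∀ c : cocycles₁ A, ∃ a : A, ∀ γ, Φ (vl (c γ)) = vl (A.ρ γ a - a))
    (x : groupCohomology A 1) : D • x = 0 := by
  obtain ⟨c, rfl⟩ : ∃ c, H1π A c = x := (ModuleCat.epi_iff_surjective _).1 inferInstance x
  obtain ⟨c', h1, e⟩ := hD c
  rw [e, H1π_eq_zero_iff]
  obtain ⟨a, ha⟩ := h c
  refine ⟨a, ?_⟩
  funext γ
  refine hinj ?_
  rw [h1, ha]
  rfl

end one

end Pool.Agent.H520.CG3
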