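import Pool.Agent.H520.CG3.Cx
import Pool.Graph.R_pool_sql_team_seeded_3997aac3.Q4.GLC.Gal
import Pool.Graph.R_pool_sql_team_seeded_3997aac3.Q4.GLC.Den
import Pool.Graph.R_pool_sql_team_seeded_3997aac3.Q4.GLC.Fin
import Pool.Graph.R_pool_sql_team_seeded_3997aac3.Q4.GLC.Dns
import Pool.Graph.R_pool_sql_team_seeded_3997aac3.Q4.GLC.Sre
import Pool.Graph.R_pool_sql_team_seeded_3997aac3.Q4.GLC.Sra
import Pool.Graph.R_pool_sql_team_seeded_3997aac3.Q4.GLC.Cls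
import Pool.Graph.R_pool_sql_team_seeded_3997aac3.Q4.GLC.App

/-!
# The lattices of the adelic points of `GL_3` over `ℚ` (helper520, MP_34be05_nt)
-/

open Matrix NumberField IsDedekindDomain Q4.GLC

namespace Pool.Agent.H520.CG3

instance : Subsingleton (Cls.Cl ℚ) := by
  have h1 : NumberField.classNumber ℚ = 1 := Rat.classNumber_eq
  rw [NumberField.classNumber, Fintype.card_eq_one_iff_nonempty_unique] at h1
  obtain ⟨h1⟩ := h1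
  exact (ClassGroup.equiv (R := 𝓞 ℚ) ℚ).toEquiv.symm.subsingleton

theorem idele_dec (a : (Af ℚ)ˣ) : ∃ (α : ℚˣ) (u : (Af ℚ)ˣ), DvdN 1 u.1 ∧ DvdN 1 u⁻¹.1 ∧
    a = Units.map (algebraMap ℚ (Af ℚ)).toMonoidHom α * u := by
  obtain ⟨α, hα⟩ := Cls.same a 1 (Subsingleton.elim _ _)
  have h1 : ∀ w : Pl ℚ, Valued.v (a.1 w) = w.valuation ℚ α := by
    intro w
    rw [hα w]
    change _ * Valued.v (1 : w.adicCompletion ℚ) = _
    rw [map_one, mul_one]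
  set A : (Af ℚ)ˣ := Units.map (algebraMap ℚ (Af ℚ)).toMonoidHom α with hA
  have hA1 : ∀ w : Pl ℚ, Valued.v (A.1 w) = w.valuation ℚ α := fun w => Cls.val_coe w α
  have hmul : ∀ (p q : (Af ℚ)ˣ) (w : Pl ℚ), Valued.v ((p * q).1 w) =
      Valued.v (p.1 w) * Valued.v (q.1 w) := fun p q w => map_mul _ _ _
  have hu : ∀ w : Pl ℚ, Valued.v ((A⁻¹ * a).1 w) = 1 := by
    intro w
    have h2 : A * (A⁻¹ * a) = a := mul_inv_cancel_left _ _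
    have h3 : Valued.v ((A * (A⁻¹ * a)).1 w) = Valued.v (a.1 w) := by rw [h2]
    rw [hmul, hA1, ← h1] at h3
    exact mul_left_cancel₀ (Cls.val_ne a w) (by rw [h3, mul_one])
  refine ⟨α, A⁻¹ * a, ?_, ?_, (mul_inv_cancel_left _ _).symm⟩
  · rw [Cls.dvdN_one_iff]
    exact fun w => (hu w).le
  · rw [Cls.dvdN_one_iff]
    intro w
    have h2 : Valued.v (((A⁻¹ * a) * (A⁻¹ * a)⁻¹).1 w) = 1 := by
      rw [mul_inv_cancel]
      exact map_one _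
    rw [hmul, hu, one_mul] at h2
    exact h2.le

theorem hDns : SDns := tDns tSre tSra tApp tDen

/-- class number one -/
theorem cls_one (g : Gf ℚ 3) : ∃ h : GQ ℚ 3, (dg ℚ 3 h)⁻¹ * g ∈ UN ℚ 3 1 := by
  obtain ⟨α, u, hu1, hu2, ha⟩ := idele_dec (Matrix.GeneralLinearGroup.det g)
  obtain ⟨s, hs⟩ : ∃ s : Gf ℚ 3, s = (dg ℚ 3 (Q211.GLC.dgr 2 α))⁻¹ * g *
    (Q211.GLC.dgr 2 u)⁻¹ := ⟨_, rfl⟩
  have e1 : Matrix.GeneralLinearGroup.det (dg ℚ 3 (Q211.GLC.dgr 2 α)) =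
      Units.map (algebraMap ℚ (Af ℚ)).toMonoidHom α := by
    apply Units.ext
    change (((Q211.GLC.dgr 2 α).1).map (algebraMap ℚ (Af ℚ))).det = algebraMap ℚ (Af ℚ) α.1
    rw [← RingHom.mapMatrix_apply, ← RingHom.map_det, Q211.GLC.dgr_det]
  have e2 : Matrix.GeneralLinearGroup.det (Q211.GLC.dgr 2 u) = u := by
    apply Units.ext
    exact Q211.GLC.dgr_det 2 u
  have hdet : s.1.det = 1 := by
    have h1 : (Matrix.GeneralLinearGroup.det s) = 1 := by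
      rw [hs, map_mul, map_mul, map_inv, map_inv, e1, e2, ha]
      group
    exact congrArg Units.val h1
  obtain ⟨γ, -, hγ⟩ := hDns ℚ 3 s hdet 1 le_rfl
  refine ⟨Q211.GLC.dgr 2 α * γ, ?_⟩
  have h2 : (Q211.GLC.dgr 2 u : Gf ℚ 3) ∈ UN ℚ 3 1 :=
    Q211.GLC.dgr_mem (hu1.sub dvdN_one_one) (hu2.sub dvdN_one_one)
  have h3 := (UN ℚ 3 1).mul_mem hγ h2
  have e3 : (dg ℚ 3 γ)⁻¹ * s * Q211.GLC.dgr 2 u = (dg ℚ 3 (Q211.GLC.dgr 2 α * γ))⁻¹ * g := by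
    rw [hs, map_mul]
    group
  rwa [e3] at h3

/-- the real points -/
noncomputable def iR : GQ ℚ 3 →* GR := Matrix.GeneralLinearGroup.map (n := Fin 3) (algebraMap ℚ ℝ)

theorem iR_apply (h : GQ ℚ 3) (i j : Fin 3) : (iR h).1 i j = ((h.1 i j : ℚ) : ℝ) := rfl

theorem iR_inj : Function.Injective iR := by
  intro g h e
  refine Units.ext (Matrix.ext fun i j => ?_)
  have h1 : (iR g).1 i j = (iR h).1 i j := by rw [e]
  rw [iR_apply, iR_apply] at h1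
  exact_mod_cast h1

theorem int_of_UN {h : GQ ℚ 3} (hh : dg ℚ 3 h ∈ UN ℚ 3 1) (i j : Fin 3) :
    ∃ z : ℤ, h.1 i j = z := by
  have h1 : DvdM 1 (dg ℚ 3 h).1 := UN_int hh
  have h2 := h1 i j
  have h3 : (dg ℚ 3 h).1 i j = algebraMap ℚ (Af ℚ) (h.1 i j) := rfl
  rw [h3] at h2
  obtain ⟨b, hb⟩ := tInt ℚ (h.1 i j) 1 le_rfl h2
  rw [Nat.cast_one, one_mul] at hb
  have h4 : IsIntegral ℤ (h.1 i j) := by
    rw [hb]; exact RingOfIntegers.isIntegral_coe b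
  obtain ⟨z, hz⟩ := IsIntegrallyClosed.isIntegral_iff.1 h4
  exact ⟨z, by rw [← hz]; rfl⟩

theorem ZR_of_UN {h : GQ ℚ 3} (hh : dg ℚ 3 h ∈ UN ℚ 3 1) : iR h ∈ ZR := by
  have hh' : dg ℚ 3 h⁻¹ ∈ UN ℚ 3 1 := by
    rw [map_inv]; exact (UN ℚ 3 1).inv_mem hh
  choose z hz using int_of_UN hh
  choose z' hz' using int_of_UN hh'
  have hv : ∀ i j, ∑ l, z i l * z' l j = if i = j then 1 else 0 := by
    intro i j
    have h1 : (h.1 * h⁻¹.1) i j = (1 : Matrix (Fin 3) (Fin 3) ℚ) i j := by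
      rw [← Units.val_mul, mul_inv_cancel, Units.val_one]
    rw [mul_apply, one_apply] at h1
    simp only [hz, hz'] at h1
    exact_mod_cast h1
  have hv' : ∀ i j, ∑ l, z' i l * z l j = if i = j then 1 else 0 := by
    intro i j
    have h1 : (h⁻¹.1 * h.1) i j = (1 : Matrix (Fin 3) (Fin 3) ℚ) i j := by
      rw [← Units.val_mul, inv_mul_cancel, Units.val_one]
    rw [mul_apply, one_apply] at h1
    simp only [hz, hz'] at h1
    exact_mod_cast h1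
  refine ⟨⟨Matrix.of z, Matrix.of z', ?_, ?_⟩, ?_⟩
  · ext i j
    rw [mul_apply, one_apply]
    exact hv i j
  · ext i j
    rw [mul_apply, one_apply]
    exact hv' i j
  · refine Units.ext (Matrix.ext fun i j => ?_)
    rw [iR_apply, hz]
    change ((z i j : ℤ) : ℝ) = _
    push_cast
    rfl

/-- the rational matrix of an integral matrix -/
noncomputable def zQ (z : GL (Fin 3) ℤ) : GQ ℚ 3 :=
  Matrix.GeneralLinearGroup.map (n := Fin 3) (Int.castRingHom ℚ) z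

theorem iR_zQ (z : GL (Fin 3) ℤ) :
    iR (zQ z) = Matrix.GeneralLinearGroup.map (n := Fin 3) (Int.castRingHom ℝ) z := by
  refine Units.ext (Matrix.ext fun i j => ?_)
  rw [iR_apply]
  change (((z.1 i j : ℤ) : ℚ) : ℝ) = ((z.1 i j : ℤ) : ℝ)
  push_cast
  rfl

theorem dvdN_int (z : ℤ) : DvdN 1 (algebraMap ℚ (Af ℚ) (z : ℚ)) := by
  rw [Cls.dvdN_one_iff]
  intro w
  rw [Cls.val_coe]
  have h1 : ((z : ℤ) : ℚ) = algebraMap (𝓞 ℚ) ℚ (z : 𝓞 ℚ) := by simp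
  rw [h1]
  exact w.valuation_le_one _

theorem UN_zQ (z : GL (Fin 3) ℤ) : dg ℚ 3 (zQ z) ∈ UN ℚ 3 1 := by
  have key : ∀ z : GL (Fin 3) ℤ, DvdM 1 ((dg ℚ 3 (zQ z)).1 - 1) := by
    intro z i j
    rw [Matrix.sub_apply]
    refine (dvdN_int (z.1 i j)).sub ?_
    rw [Matrix.one_apply]
    split_ifs
    · exact dvdN_one_one
    · exact dvdN_zero 1
  refine ⟨key z, ?_⟩
  have e : (dg ℚ 3 (zQ z))⁻¹ = dg ℚ 3 (zQ z⁻¹) := by
    rw [← map_inv]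
    congr 1
  rw [e]
  exact key z⁻¹

/-- the bases of the lattice of an adelic point -/
def Bx (g0 x : Gf ℚ 3) : Set GR := {h | ∃ h0 : GQ ℚ 3, iR h0 = h ∧
  (dg ℚ 3 h0)⁻¹ * x * g0 ∈ UN ℚ 3 1}

theorem latB (g0 x : Gf ℚ 3) : LatB (Bx g0 x) := by
  refine ⟨?_, ?_⟩
  · obtain ⟨h, hh⟩ := cls_one (x * g0)
    exact ⟨iR h, h, rfl, by rwa [mul_assoc]⟩
  · rintro h ⟨h0, rfl, hh⟩ h'
    constructor
    · rintro ⟨h1, rfl, hh'⟩
      rw [← map_inv, ← map_mul]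
      refine ZR_of_UN ?_
      have := (UN ℚ 3 1).mul_mem hh ((UN ℚ 3 1).inv_mem hh')
      have e : (dg ℚ 3 h0)⁻¹ * x * g0 * ((dg ℚ 3 h1)⁻¹ * x * g0)⁻¹ = dg ℚ 3 (h0⁻¹ * h1) := by
        rw [map_mul, map_inv]
        group
      rwa [e] at this
    · rintro ⟨z, hz⟩
      refine ⟨h0 * zQ z, ?_, ?_⟩
      · rw [map_mul, iR_zQ, hz]
        group
      · have := (UN ℚ 3 1).mul_mem ((UN ℚ 3 1).inv_mem (UN_zQ z)) hh
        have e : (dg ℚ 3 (zQ z))⁻¹ * ((dg ℚ 3 h0)⁻¹ * x * g0) =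
            (dg ℚ 3 (h0 * zQ z))⁻¹ * x * g0 := by
          rw [map_mul]
          group
        rwa [e] at this

theorem Bx_left (g0 x : Gf ℚ 3) (γ : GQ ℚ 3) (h : GR) :
    h ∈ Bx g0 x ↔ iR γ * h ∈ Bx g0 (dg ℚ 3 γ * x) := by
  constructor
  · rintro ⟨h0, rfl, hh⟩
    refine ⟨γ * h0, by rw [map_mul], ?_⟩
    have e : (dg ℚ 3 (γ * h0))⁻¹ * (dg ℚ 3 γ * x) * g0 = (dg ℚ 3 h0)⁻¹ * x * g0 := by
      rw [map_mul]
      group
    rwa [e]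
  · rintro ⟨h0, e0, hh⟩
    refine ⟨γ⁻¹ * h0, ?_, ?_⟩
    · rw [map_mul, e0, map_inv]
      group
    · have e : (dg ℚ 3 (γ⁻¹ * h0))⁻¹ * x * g0 = (dg ℚ 3 h0)⁻¹ * (dg ℚ 3 γ * x) * g0 := by
        rw [map_mul, map_inv]
        group
      rwa [e]

theorem Bx_right (g0 x κ : Gf ℚ 3) (hκ : g0⁻¹ * κ * g0 ∈ UN ℚ 3 1) :
    Bx g0 (x * κ) = Bx g0 x := by
  ext h
  constructor
  · rintro ⟨h0, rfl, hh⟩
    refine ⟨h0, rfl, ?_⟩
    have := (UN ℚ 3 1).mul_mem hh ((UN ℚ 3 1).inv_mem hκ)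
    have e : (dg ℚ 3 h0)⁻¹ * (x * κ) * g0 * (g0⁻¹ * κ * g0)⁻¹ = (dg ℚ 3 h0)⁻¹ * x * g0 := by
      group
    rwa [e] at this
  · rintro ⟨h0, rfl, hh⟩
    refine ⟨h0, rfl, ?_⟩
    have := (UN ℚ 3 1).mul_mem hh hκ
    have e : (dg ℚ 3 h0)⁻¹ * x * g0 * (g0⁻¹ * κ * g0) = (dg ℚ 3 h0)⁻¹ * (x * κ) * g0 := by
      group
    rwa [e] at this

end Pool.Agent.H520.CG3
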