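import Pool.Agent.H520.CG3.Fin3

/-!
# Comparison of the definitions of the statement with those of the proof
(helper520, MP_34be05_nt)
-/

open CategoryTheory groupCohomology Q4.GLC NumberField IsDedekindDomain

namespace Pool.Agent.H520.CG3

theorem int_iff {M : Matrix (Fin 3) (Fin 3) (Af ℚ)} :
    DvdM 1 (M - 1) ↔ ∀ i j (w : Pl ℚ), Valued.v ((M i j) w) ≤ 1 := by
  have h1 : DvdM 1 (1 : Matrix (Fin 3) (Fin 3) (Af ℚ)) := dvdM_one_one
  constructor
  · intro h i j w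
    have h2 : DvdM 1 M := by
      have e : M = (M - 1) + 1 := by abel
      rw [e]
      exact h.add h1
    exact (Cls.dvdN_one_iff _).1 (h2 i j) w
  · intro h i j
    rw [Matrix.sub_apply]
    exact ((Cls.dvdN_one_iff _).2 (h i j)).sub (h1 i j)

theorem compAt_apply (v : Pl ℚ) (g : Gf ℚ 3) (i j : Fin 3) :
    (Stm.compAt v g).1 i j = (g.1 i j) v := rfl

theorem compAt_inv_apply (v : Pl ℚ) (g : Gf ℚ 3) (i j : Fin 3) :
    (Stm.compAt v g)⁻¹.1 i j = (g⁻¹.1 i j) v := by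
  rw [← map_inv]
  rfl

theorem mem_GLint {v : Pl ℚ} {x : GL (Fin 3) (v.adicCompletion ℚ)} :
    x ∈ Stm.GLint v ↔ ∀ i j, Valued.v (x.1 i j) ≤ 1 ∧ Valued.v (x⁻¹.1 i j) ≤ 1 := by
  constructor
  · rintro ⟨y, rfl⟩ i j
    refine ⟨(y.1 i j).2, ?_⟩
    rw [← map_inv]
    exact (y⁻¹.1 i j).2
  · intro h
    let a : Matrix (Fin 3) (Fin 3) (v.adicCompletionIntegers ℚ) := fun i j => ⟨x.1 i j, (h i j).1⟩
    let b : Matrix (Fin 3) (Fin 3) (v.adicCompletionIntegers ℚ) := fun i j => ⟨x⁻¹.1 i j, (h i j).2⟩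
    have hinj : Function.Injective fun M : Matrix (Fin 3) (Fin 3) (v.adicCompletionIntegers ℚ) =>
        M.map (algebraMap (v.adicCompletionIntegers ℚ) (v.adicCompletion ℚ)) :=
      Matrix.map_injective (FaithfulSMul.algebraMap_injective _ _)
    have ea : a.map (algebraMap (v.adicCompletionIntegers ℚ) (v.adicCompletion ℚ)) = x.1 := by
      ext i j
      rfl
    have eb : b.map (algebraMap (v.adicCompletionIntegers ℚ) (v.adicCompletion ℚ)) = x⁻¹.1 := by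
      ext i j
      rfl
    have h1 : a * b = 1 := by
      refine hinj ?_
      simp only [Matrix.map_mul, ea, eb, Matrix.map_one _ (map_zero _) (map_one _)]
      exact x.mul_inv
    have h2 : b * a = 1 := by
      refine hinj ?_
      simp only [Matrix.map_mul, ea, eb, Matrix.map_one _ (map_zero _) (map_one _)]
      exact x.inv_mul
    exact ⟨⟨a, b, h1, h2⟩, Units.ext ea⟩

theorem mem_Kloc {v : Pl ℚ} {g : Gf ℚ 3} :
    g ∈ Stm.Kloc v ↔ Stm.compAt v g ∈ Stm.GLint v ∧ ∀ w, w ≠ v → Stm.compAt w g = 1 := by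
  rw [Stm.Kloc, Subgroup.mem_inf, Subgroup.mem_comap, Subgroup.mem_iInf]
  constructor
  · rintro ⟨h1, h2⟩
    exact ⟨h1, fun w hw => h2 ⟨w, hw⟩⟩
  · rintro ⟨h1, h2⟩
    exact ⟨h1, fun w => h2 w.1 w.2⟩

theorem Kloc_eq (v : Pl ℚ) : Stm.Kloc v = Kv (F := ℚ) 3 v := by
  ext g
  rw [mem_Kloc, mem_GLint]
  constructor
  · rintro ⟨h1, h2⟩
    have h3 : ∀ w, w ≠ v → ∀ i j, (g.1 i j) w = ((1 : Matrix (Fin 3) (Fin 3) (Af ℚ)) i j) w ∧
        (g⁻¹.1 i j) w = ((1 : Matrix (Fin 3) (Fin 3) (Af ℚ)) i j) w := by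
      intro w hw i j
      have e : ((1 : Matrix (Fin 3) (Fin 3) (Af ℚ)) i j) w =
          (1 : Matrix (Fin 3) (Fin 3) (w.adicCompletion ℚ)) i j := by
        rw [Matrix.one_apply, Matrix.one_apply]
        split_ifs <;> rfl
      rw [← compAt_apply, ← compAt_inv_apply, h2 w hw, inv_one, e]
      exact ⟨rfl, rfl⟩
    refine ⟨⟨int_iff.2 fun i j w => ?_, int_iff.2 fun i j w => ?_⟩, h3⟩
    · by_cases hw : w = v
      · subst hw
        exact (h1 i j).1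
      · rw [(h3 w hw i j).1]
        exact int_iff.1 (by rw [sub_self]; exact dvdM_zero) i j w
    · by_cases hw : w = v
      · subst hw
        have := (h1 i j).2
        rwa [compAt_inv_apply] at this
      · rw [(h3 w hw i j).2]
        exact int_iff.1 (by rw [sub_self]; exact dvdM_zero) i j w
  · rintro ⟨⟨h1, h2⟩, h3⟩
    refine ⟨fun i j => ⟨int_iff.1 h1 i j v, ?_⟩, fun w hw => Units.ext (Matrix.ext fun i j => ?_)⟩
    · rw [compAt_inv_apply]
      exact int_iff.1 h2 i j v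
    · rw [compAt_apply, (h3 w hw i j).1, Units.val_one, Matrix.one_apply, Matrix.one_apply]
      split_ifs <;> rfl

theorem isHeckeMat_tm {v : Pl ℚ} {ϖ : (Af ℚ)ˣ} (h : IsUnif v ϖ) (j : ℕ) :
    Stm.IsHeckeMat v j (tm 3 ϖ j) := ⟨ϖ.1, h.1, h.2, rfl⟩

section model

variable {O W : Type} [CommRing O] [AddCommGroup W] [Module O W]
variable (Γ : Subgroup (GQ ℚ 3)) {K : Subgroup (Gf ℚ 3)} (ρ : Representation O K W)

/-- the function on the group, in the convention of the proof -/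
noncomputable def vlS : Stm.MW (Stm.diag.comp Γ.subtype) ρ →+ (Gf ℚ 3 → W) where
  toFun a := fun x => Stm.fn a x⁻¹
  map_zero' := rfl
  map_add' _ _ := rfl

theorem fn_mem {ρ : Representation O K W} (a : Stm.MW (Stm.diag.comp Γ.subtype) ρ) (κ : K)
    (x : Gf ℚ 3) : Stm.fn a (κ.1 * x) = ρ κ (Stm.fn a x) :=
  (show Representation.coindV K.subtype ρ from a).2 κ x

theorem model : IsModel (dg ℚ 3) Γ K ρ (Stm.MW (Stm.diag.comp Γ.subtype) ρ) (vlS Γ ρ) where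
  inj a b h := by
    refine Subtype.ext (funext fun x => ?_)
    have := congrFun h x⁻¹
    change Stm.fn a x⁻¹⁻¹ = Stm.fn b x⁻¹⁻¹ at this
    rw [inv_inv] at this
    exact this
  mem a κ x := by
    change Stm.fn a (x * κ.1)⁻¹ = ρ κ⁻¹ (Stm.fn a x⁻¹)
    rw [← fn_mem Γ a, _root_.mul_inv_rev]
    rfl
  surj f hf := by
    refine ⟨⟨fun x => f x⁻¹, fun κ x => ?_⟩, ?_⟩
    · have h := hf κ⁻¹ x⁻¹
      rw [inv_inv] at h
      change f (κ.1 * x)⁻¹ = ρ κ (f x⁻¹)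
      rw [← h, _root_.mul_inv_rev]
      rfl
    · funext x
      change f x⁻¹⁻¹ = f x
      rw [inv_inv]
  act γ a := by
    funext x
    change Stm.fn a (x⁻¹ * Stm.diag γ.1) = Stm.fn a ((dg ℚ 3 γ.1)⁻¹ * x)⁻¹
    rw [_root_.mul_inv_rev, inv_inv]
    rfl

theorem heckeOp_eq {L L' : Subgroup (Gf ℚ 3)} (h : L = L') (t : Gf ℚ 3)
    (a : Stm.MW (Stm.diag.comp Γ.subtype) ρ) (x : Gf ℚ 3) :
    Stm.heckeOp L t (Stm.fn a) x⁻¹ = hecke L' t (vlS Γ ρ a) x := by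
  subst h
  unfold Stm.heckeOp hecke
  refine finsum_congr fun c => finsum_congr fun _ => ?_
  change _ = Stm.fn a (x * c.out)⁻¹
  rw [_root_.mul_inv_rev]

theorem heckeActs {S : Set (Pl ℚ)} {T : Type} [CommRing T] {t : Pl ℚ → ℕ → T} {i : ℕ}
    [Module T (Stm.Coh (Stm.diag.comp Γ.subtype) ρ i)]
    (h : ∀ v ∉ S, ∀ j g, 1 ≤ j → j ≤ 3 → Stm.IsHeckeMat v j g →
      Stm.ActsAs (ι := Stm.diag.comp Γ.subtype) (ρ := ρ) (i := i) (t v j) (Stm.Kloc v) g) :
    HeckeActs (vlS Γ ρ) S t i := by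
  intro v hv ϖ hϖ j h1 h3
  obtain ⟨φ, e1, e2⟩ := h v hv j (tm 3 ϖ j) h1 h3 (isHeckeMat_tm hϖ j)
  refine ⟨φ, fun a => ?_, e2⟩
  funext x
  rw [← heckeOp_eq Γ ρ (Kloc_eq v)]
  exact congrFun (e1 a) x⁻¹

/-- the linear map to the module of the proof -/
noncomputable def toMM : Representation.coindV K.subtype ρ →ₗ[O] MM K ρ where
  toFun a := ⟨fun x => a.1 x⁻¹, (model Γ ρ).mem a⟩
  map_add' _ _ := rfl
  map_smul' _ _ := rfl

theorem toMM_bij : Function.Bijective (toMM Γ ρ) := by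
  constructor
  · intro a b h
    exact (model Γ ρ).inj (congrArg Subtype.val h)
  · intro f
    obtain ⟨a, ha⟩ := (model Γ ρ).surj f.1 f.2
    exact ⟨a, Subtype.ext ha⟩

end model

section main

variable (p : ℕ) [Fact p.Prime] {O W : Type} [CommRing O] [Algebra ℤ_[p] O]
  [Module.Finite ℤ_[p] O] [AddCommGroup W] [Module O W] [Module.Finite O W]
variable {Γ : Subgroup (GQ ℚ 3)} {K : Subgroup (Gf ℚ 3)} {ρ : Representation O K W}
  {S : Set (Pl ℚ)} {T : Type} [CommRing T] {t : Pl ℚ → ℕ → T}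

include p in
theorem main (hΓ : Γ.FiniteIndex) (hK : ∃ N : ℕ, 1 ≤ N ∧ UN ℚ 3 N ≤ K)
    (hK' : ∃ g0 : Gf ℚ 3, ∀ κ ∈ K, g0⁻¹ * κ * g0 ∈ UN ℚ 3 1) (hT : TorFree Γ K)
    (hc : PCont p ρ (UN ℚ 3)) (hS : S.Finite) (hg : GoodOut ρ S) (i : ℕ)
    [Module T (Stm.Coh (Stm.diag.comp Γ.subtype) ρ i)]
    (ha : HeckeActs (vlS Γ ρ) S t i) {k : Type} [Field k] [IsAlgClosed k] [CharP k p] (θ : T →+* k)
    {m : Ideal T} [m.IsPrime] (hm : RingHom.ker θ = m)
    {L : Type} [Field L] [NumberField L] [IsGalois ℚ L] (r : (L ≃ₐ[ℚ] L) →* GL (Fin 3) k)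
    (hr : Stm.AttachedTo r S (fun v j => θ (t v j))) (hirr : ¬ Reducible r)
    (hne : Nontrivial (LocalizedModule m.primeCompl
      (Stm.Coh (Stm.diag.comp Γ.subtype) ρ i))) : 2 ≤ i ∧ i ≤ 3 := by
  constructor
  · by_contra hlt
    exact hirr (low p (model Γ ρ) hΓ hK hc hS hg (by omega) ha θ hm r hr hne)
  · by_contra hgt
    obtain ⟨g0, hg0⟩ := hK'
    have h1 : Subsingleton (Stm.Coh (Stm.diag.comp Γ.subtype) ρ i) := by
      refine high' (Stm.MW (Stm.diag.comp Γ.subtype) ρ).ρ (toMM Γ ρ) (toMM_bij Γ ρ) ?_ g0 hg0 hT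
        (by omega)
      intro γ a
      exact Subtype.ext ((model Γ ρ).act γ a)
    exact not_subsingleton _ (loc_sub (T := T) (s := m.primeCompl)
      (M := Stm.Coh (Stm.diag.comp Γ.subtype) ρ i))

end main

end Pool.Agent.H520.CG3
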