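import Pool.Agent.H520.CG3.Cpt

/-!
# Continuity of the action (helper520, MP_34be05_nt)
-/

open Q4.GLC NumberField IsDedekindDomain Filter Topology

namespace Pool.Agent.H520.CG3

section

variable (p : ℕ) [Fact p.Prime]

theorem nhds_pow (r : ℕ) : {x : ℤ_[p] | ∃ y, (p : ℤ_[p]) ^ r * y = x} ∈ 𝓝 (0 : ℤ_[p]) := by
  have hp : 0 < (p : ℝ) ^ (-r : ℤ) :=
    zpow_pos (by exact_mod_cast (Fact.out : p.Prime).pos) _
  refine Filter.mem_of_superset (Metric.ball_mem_nhds 0 hp) fun x hx => ?_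
  rw [mem_ball_zero_iff] at hx
  have h1 := (PadicInt.norm_le_pow_iff_mem_span_pow x r).1 hx.le
  obtain ⟨y, hy⟩ := Ideal.mem_span_singleton'.1 h1
  exact ⟨y, by rw [mul_comm]; exact hy⟩

variable {O W : Type} [CommRing O] [Algebra ℤ_[p] O]
  [AddCommGroup W] [Module O W] [Module ℤ_[p] W] [IsScalarTower ℤ_[p] O W]
  [Module.Finite ℤ_[p] W] [TopologicalSpace W] [IsModuleTopology ℤ_[p] W]

theorem smul_pow_eq (r : ℕ) (w : W) : (p : ℤ_[p]) ^ r • w = (p : O) ^ r • w := by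
  rw [← algebraMap_smul O ((p : ℤ_[p]) ^ r) w, map_pow, map_natCast]

theorem Pr_nhds (r : ℕ) : ((Pr p r O W : Submodule O W) : Set W) ∈ 𝓝 (0 : W) := by
  obtain ⟨n, f, hf⟩ := Module.Finite.exists_fin' ℤ_[p] W
  have : IsTopologicalAddGroup W := IsModuleTopology.topologicalAddGroup ℤ_[p] W
  have hq : Topology.IsQuotientMap f := IsModuleTopology.isQuotientMap_of_surjective hf
  have h1 : f ⁻¹' ((Pr p r O W : Submodule O W) : Set W) ∈ 𝓝 (0 : Fin n → ℤ_[p]) := by
    have h2 : Set.pi Set.univ (fun _ : Fin n => {x : ℤ_[p] | ∃ y, (p : ℤ_[p]) ^ r * y = x}) ∈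
        𝓝 (0 : Fin n → ℤ_[p]) := set_pi_mem_nhds Set.finite_univ fun i _ => nhds_pow p r
    refine Filter.mem_of_superset h2 fun x hx => ?_
    choose y hy using fun i => hx i (Set.mem_univ i)
    have e : x = (p : ℤ_[p]) ^ r • y := funext fun i => (hy i).symm
    refine ⟨f y, ?_⟩
    rw [e, map_smul, smul_pow_eq p (O := O)]
    rfl
  have h3 : IsOpen (f ⁻¹' ((Pr p r O W : Submodule O W) : Set W)) := by
    have e : f ⁻¹' ((Pr p r O W : Submodule O W) : Set W) =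
        (((Pr p r O W).toAddSubgroup.comap f.toAddMonoidHom : AddSubgroup (Fin n → ℤ_[p])) :
          Set (Fin n → ℤ_[p])) := rfl
    rw [e]
    exact AddSubgroup.isOpen_of_mem_nhds _ (g := 0) h1
  exact (hq.isOpen_preimage.1 h3).mem_nhds (Submodule.zero_mem _)

theorem pcont_of_continuous [Module.Finite O W] {K : Subgroup (Gf ℚ 3)}
    {ρ : Representation O K W} (hρ : Continuous fun x : K × W => ρ x.1 x.2) :
    PCont p ρ (UN ℚ 3) := by
  classical
  have : IsTopologicalAddGroup W := IsModuleTopology.topologicalAddGroup ℤ_[p] W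
  intro r
  obtain ⟨n, s, hs⟩ := Module.Finite.exists_fin (R := O) (M := W)
  have h1 : ∀ j, ∃ N : ℕ, 1 ≤ N ∧ ∀ κ : K, κ.1 ∈ UN ℚ 3 N → ρ κ (s j) - s j ∈ Pr p r O W := by
    intro j
    have hc : Continuous fun κ : K => ρ κ (s j) - s j :=
      (hρ.comp (Continuous.prodMk_left (s j))).sub continuous_const
    have h2 : (fun κ : K => ρ κ (s j) - s j) ⁻¹' ((Pr p r O W : Submodule O W) : Set W) ∈
        𝓝 (1 : K) := by
      refine hc.continuousAt.preimage_mem_nhds ?_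
      rw [map_one, Module.End.one_apply, sub_self]
      exact Pr_nhds p r
    rw [nhds_induced, Filter.mem_comap] at h2
    obtain ⟨V, hV, hVs⟩ := h2
    obtain ⟨N, hN, hNV⟩ := nhds_UN hV
    exact ⟨N, hN, fun κ hκ => hVs (hNV hκ)⟩
  choose N hN hNs using h1
  refine ⟨∏ j, N j, Nat.one_le_iff_ne_zero.2 (Finset.prod_ne_zero_iff.2 fun j _ =>
    Nat.one_le_iff_ne_zero.1 (hN j)), fun κ hκ w => ?_⟩
  have h3 : ∀ j, ρ κ (s j) - s j ∈ Pr p r O W := fun j =>
    hNs j κ (UN_mono (Finset.dvd_prod_of_mem N (Finset.mem_univ j)) hκ)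
  have h4 : (⊤ : Submodule O W) ≤ (Pr p r O W).comap (ρ κ - LinearMap.id) := by
    rw [← hs, Submodule.span_le]
    rintro _ ⟨j, rfl⟩
    exact h3 j
  exact h4 (Submodule.mem_top (x := w))

end

end Pool.Agent.H520.CG3
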