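import Mathlib

/-!
# Vanishing of group cohomology by a resolution of finite length (helper520, MP_34be05_nt)
-/

open CategoryTheory

namespace Pool.Agent.H520.CG3

section coch

variable {k G V : Type} [CommRing k] [Group G] [AddCommGroup V] [Module k V]

/-- the differential of the inhomogeneous cochains -/
def dI (ρ : Representation k G V) (n : ℕ) (f : (Fin n → G) → V) : (Fin (n + 1) → G) → V :=
  fun g => ρ (g 0) (f fun i => g i.succ) +
    ∑ j : Fin (n + 1), (-1 : k) ^ ((j : ℕ) + 1) • f (Fin.contractNth j (· * ·) g)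

theorem dI_eq (ρ : Representation k G V) (n : ℕ) (f : (Fin n → G) → V) :
    (inhomogeneousCochains.d (Rep.of ρ) n).hom f = dI ρ n f := by
  funext g
  rw [inhomogeneousCochains.d_hom_apply]
  rfl

theorem dI_sub (ρ : Representation k G V) (n : ℕ) (f f' : (Fin n → G) → V) :
    dI ρ n (f - f') = dI ρ n f - dI ρ n f' := by
  rw [← dI_eq, ← dI_eq, ← dI_eq, map_sub]

theorem dI_zero (ρ : Representation k G V) (n : ℕ) : dI ρ n 0 = 0 := by
  rw [← dI_eq, map_zero]

theorem dI_dI (ρ : Representation k G V) (n : ℕ) (f : (Fin n → G) → V) :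
    dI ρ (n + 1) (dI ρ n f) = 0 := by
  have h := groupCohomology.inhomogeneousCochains.d_comp_d (n := n) (Rep.of ρ)
  have h1 := congrArg (fun φ => φ.hom f) h
  rw [← dI_eq, ← dI_eq]
  exact h1

theorem contract_cons_zero {n : ℕ} (a : G) (g : Fin (n + 1) → G) :
    Fin.contractNth 0 (· * ·) (Fin.cons a g : Fin (n + 2) → G) =
      Fin.cons (a * g 0) (fun i => g i.succ) := by
  funext i
  refine Fin.cases ?_ (fun j => ?_) i
  · rw [Fin.contractNth_apply_of_eq _ _ _ _ (by simp)]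
    simp
  · rw [Fin.contractNth_apply_of_gt _ _ _ _ (by simp)]
    simp

theorem contract_cons_succ {n : ℕ} (a : G) (g : Fin (n + 1) → G) (j : Fin (n + 1)) :
    Fin.contractNth j.succ (· * ·) (Fin.cons a g : Fin (n + 2) → G) =
      Fin.cons a (Fin.contractNth j (· * ·) g) := by
  funext i
  refine Fin.cases ?_ (fun l => ?_) i
  · rw [Fin.contractNth_apply_of_lt _ _ _ _ (by simp)]
    simp
  · rw [Fin.cons_succ]
    rcases lt_trichotomy (l : ℕ) j with (h | h | h)
    · rw [Fin.contractNth_apply_of_lt _ _ _ _ (by simpa using h),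
        Fin.contractNth_apply_of_lt _ _ _ _ h]
      rw [← Fin.succ_castSucc, Fin.cons_succ]
    · rw [Fin.contractNth_apply_of_eq _ _ _ _ (by simpa using h),
        Fin.contractNth_apply_of_eq _ _ _ _ h]
      rw [← Fin.succ_castSucc, Fin.cons_succ, Fin.cons_succ]
    · rw [Fin.contractNth_apply_of_gt _ _ _ _ (by simpa using h),
        Fin.contractNth_apply_of_gt _ _ _ _ h]
      rw [Fin.cons_succ]

/-- a retraction of the functions on the group -/
structure Retr (ρ : Representation k G V) (r : (G → V) →ₗ[k] V) : Prop where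
  const : ∀ v, r (fun _ => v) = v
  equi : ∀ g F, ρ g (r F) = r (fun g' => ρ g (F (g⁻¹ * g')))

/-- modules with a retraction are acyclic -/
theorem Retr.acyclic {ρ : Representation k G V} {r : (G → V) →ₗ[k] V} (h : Retr ρ r) (n : ℕ)
    (f : (Fin (n + 1) → G) → V) (hf : dI ρ (n + 1) f = 0) :
    ∃ b : (Fin n → G) → V, dI ρ n b = f := by
  refine ⟨fun g => r (fun g0 => ρ g0 (f (Fin.cons g0⁻¹ g))), ?_⟩
  funext g
  have h1 : ∀ g0 : G, ρ g0 (dI ρ (n + 1) f (Fin.cons g0⁻¹ g)) = f g -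
      ρ g0 (f (Fin.cons (g0⁻¹ * g 0) fun i => g i.succ)) + ∑ j : Fin (n + 1),
        (-1 : k) ^ ((j : ℕ)) • ρ g0 (f (Fin.cons g0⁻¹ (Fin.contractNth j (· * ·) g))) := by
    intro g0
    simp only [dI]
    rw [Fin.sum_univ_succ, contract_cons_zero]
    simp only [contract_cons_succ, Fin.cons_zero, Fin.cons_succ, Fin.val_zero, Fin.val_succ,
      map_add, map_sum, map_smul]
    have h2 : ρ g0 (ρ g0⁻¹ (f fun i => g i)) = f g := by
      change (ρ g0 * ρ g0⁻¹) (f g) = f g
      rw [← map_mul, mul_inv_cancel, map_one]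
      rfl
    rw [h2, zero_add, pow_one, neg_one_smul, sub_eq_add_neg, add_assoc]
    congr 2
    refine Finset.sum_congr rfl fun j _ => ?_
    rw [pow_add, pow_add]
    simp
  have h3 : (fun g0 : G => ρ g0 (dI ρ (n + 1) f (Fin.cons g0⁻¹ g))) = 0 := by
    funext g0
    rw [hf]
    simp
  have h4 : r (fun g0 : G => ρ g0 (dI ρ (n + 1) f (Fin.cons g0⁻¹ g))) = 0 := by
    rw [h3, map_zero]
  have h5 : (fun g0 : G => ρ g0 (dI ρ (n + 1) f (Fin.cons g0⁻¹ g))) =
      (fun _ => f g) - (fun g0 => ρ g0 (f (Fin.cons (g0⁻¹ * g 0) fun i => g i.succ))) +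
        ∑ j : Fin (n + 1), (-1 : k) ^ ((j : ℕ)) •
          (fun g0 => ρ g0 (f (Fin.cons g0⁻¹ (Fin.contractNth j (· * ·) g)))) := by
    funext g0
    rw [h1]
    simp
  rw [h5, map_add, map_sub, h.const, map_sum] at h4
  simp only [map_smul] at h4
  rw [dI, h.equi]
  have h6 : (fun g' => ρ (g 0) (ρ ((g 0)⁻¹ * g') (f (Fin.cons ((g 0)⁻¹ * g')⁻¹ fun i => g i.succ)))) =
      (fun g0 => ρ g0 (f (Fin.cons (g0⁻¹ * g 0) fun i => g i.succ))) := by
    funext g'
    change (ρ (g 0) * ρ ((g 0)⁻¹ * g')) _ = _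
    rw [← map_mul, mul_inv_cancel_left, _root_.mul_inv_rev, inv_inv]
  rw [h6]
  have h7 : ∀ j : Fin (n + 1), (-1 : k) ^ ((j : ℕ) + 1) •
      r (fun g0 => ρ g0 (f (Fin.cons g0⁻¹ (Fin.contractNth j (· * ·) g)))) =
      -((-1 : k) ^ (j : ℕ) • r (fun g0 => ρ g0 (f (Fin.cons g0⁻¹ (Fin.contractNth j (· * ·) g))))) := by
    intro j
    rw [pow_succ, mul_neg_one, neg_smul]
  rw [Finset.sum_congr rfl fun j _ => h7 j, Finset.sum_neg_distrib]
  rw [sub_add_eq_add_sub, sub_eq_zero] at h4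
  rw [← h4]
  abel

/-- vanishing of the cohomology of the submodule given by `P` -/
def VI (ρ : Representation k G V) (P : V → Prop) (n : ℕ) : Prop :=
  ∀ z : (Fin (n + 1) → G) → V, dI ρ (n + 1) z = 0 → (∀ x, P (z x)) →
    ∃ y : (Fin n → G) → V, (∀ x, P (y x)) ∧ dI ρ n y = z

variable {V' V'' : Type} [AddCommGroup V'] [Module k V'] [AddCommGroup V''] [Module k V'']

theorem dI_map {ρ : Representation k G V} {ρ' : Representation k G V'} (f : V →ₗ[k] V')
    (hf : ∀ g v, f (ρ g v) = ρ' g (f v)) (n : ℕ) (z : (Fin n → G) → V) :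
    dI ρ' n (fun x => f (z x)) = fun x => f (dI ρ n z x) := by
  funext g
  simp only [dI, map_add, map_sum, map_smul, hf]

/-- the step of the dimension shifting -/
theorem VI.step {ρ' : Representation k G V'} {ρ'' : Representation k G V''} (f : V →ₗ[k] V') (g : V' →ₗ[k] V'')
    (hg : ∀ x v, g (ρ' x v) = ρ'' x (g v))
    (hex : ∀ v, g v = 0 → ∃ w, f w = v) (hgf : ∀ w, g (f w) = 0) (n : ℕ)
    (hB : VI ρ' (fun _ => True) (n + 1)) (hC : VI ρ'' (fun v => ∃ w, g w = v) n) :
    VI ρ' (fun v => ∃ w, f w = v) (n + 1) := by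
  intro z hz hzf
  obtain ⟨b, -, hb⟩ := hB z hz fun _ => trivial
  have h1 : dI ρ'' (n + 1) (fun x => g (b x)) = 0 := by
    rw [dI_map g hg, hb]
    funext x
    obtain ⟨w, hw⟩ := hzf x
    rw [← hw, hgf]
    rfl
  obtain ⟨y, hy, hyb⟩ := hC _ h1 fun x => ⟨b x, rfl⟩
  choose b' hb' using hy
  refine ⟨b - dI ρ' n b', fun x => ?_, ?_⟩
  · refine hex _ ?_
    rw [Pi.sub_apply, map_sub]
    have h2 := congrFun (dI_map g hg n b') x
    have h3 : (fun x => g (b' x)) = y := funext hb'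
    rw [h3, hyb] at h2
    rw [← h2, sub_self]
  · rw [dI_sub, hb, dI_dI, sub_zero]

/-- the vanishing of the cohomology of a submodule -/
theorem VI.inj {ρ : Representation k G V} {ρ' : Representation k G V'} (f : V →ₗ[k] V')
    (hf : ∀ x v, f (ρ x v) = ρ' x (f v)) (hinj : Function.Injective f) (n : ℕ)
    (h : VI ρ' (fun v => ∃ w, f w = v) n) : VI ρ (fun _ => True) n := by
  intro z hz _
  obtain ⟨y, hy, e⟩ := h (fun x => f (z x)) (by rw [dI_map f hf, hz]; funext x; simp) fun x =>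
    ⟨z x, rfl⟩
  choose y' hy' using hy
  refine ⟨y', fun _ => trivial, ?_⟩
  funext x
  refine hinj ?_
  have h2 := congrFun (dI_map f hf n y') x
  rw [← h2]
  have h3 : (fun x => f (y' x)) = y := funext hy'
  rw [h3, e]

theorem isZero_of_VI (ρ : Representation k G V) (n : ℕ) (h : VI ρ (fun _ => True) n) :
    Limits.IsZero (groupCohomology (Rep.of ρ) (n + 1)) := by
  rw [groupCohomology, ← HomologicalComplex.exactAt_iff_isZero_homology,
    HomologicalComplex.exactAt_iff' _ n (n + 1) (n + 2) (by simp) (by simp),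
    ShortComplex.moduleCat_exact_iff]
  intro (z : (Fin (n + 1) → G) → V) hz
  have e1 : ((groupCohomology.inhomogeneousCochains (Rep.of ρ)).sc' n (n + 1) (n + 2)).g =
      inhomogeneousCochains.d (Rep.of ρ) (n + 1) :=
    groupCohomology.inhomogeneousCochains.d_def _ (n + 1)
  have e2 : ((groupCohomology.inhomogeneousCochains (Rep.of ρ)).sc' n (n + 1) (n + 2)).f =
      inhomogeneousCochains.d (Rep.of ρ) n :=
    groupCohomology.inhomogeneousCochains.d_def _ n
  have hz' : dI ρ (n + 1) z = 0 := by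
    have h1 : (inhomogeneousCochains.d (Rep.of ρ) (n + 1)).hom z = 0 := by
      rw [← e1]
      exact hz
    rwa [dI_eq] at h1
  obtain ⟨y, -, hy⟩ := h z hz' fun _ => trivial
  refine ⟨y, ?_⟩
  have h2 : (inhomogeneousCochains.d (Rep.of ρ) n).hom y = z := by
    rw [dI_eq, hy]
  rw [← e2] at h2
  exact h2

end coch

end Pool.Agent.H520.CG3
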