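import Pool.Agent.H520.CG3.Top

/-!
# Compact subgroups stabilise lattices (helper520, MP_34be05_nt)
-/

open Q4.GLC NumberField IsDedekindDomain Filter Topology

namespace Pool.Agent.H520.CG3

/-- integral vectors -/
def IntV (x : Fin 3 → Af ℚ) : Prop := ∀ i, DvdN 1 (x i)

theorem dvd_int_mul {a b : Af ℚ} (ha : DvdN 1 a) (hb : DvdN 1 b) : DvdN 1 (a * b) := ha.mul_int hb

theorem dvd_nat (n : ℕ) : DvdN 1 ((n : ℕ) : Af ℚ) := by
  rw [Cls.dvdN_one_iff]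
  exact fun w => val_nat_le n w

theorem ex_den (a : Af ℚ) : ∃ M : ℕ, 1 ≤ M ∧ DvdN 1 ((M : Af ℚ) * a) := by
  obtain ⟨α, hα⟩ := tApp ℚ a 1 le_rfl
  refine ⟨α.den, α.den_pos, ?_⟩
  have e : ((α.den : ℕ) : Af ℚ) * a = (α.den : Af ℚ) * (a - algebraMap ℚ (Af ℚ) α) +
      algebraMap ℚ (Af ℚ) ((α.num : ℤ) : ℚ) := by
    have h1 : ((α.num : ℤ) : ℚ) = (α.den : ℚ) * α := (Rat.den_mul_eq_num α).symm
    rw [h1, map_mul, map_natCast]
    ring
  rw [e]
  exact (dvd_int_mul (dvd_nat _) hα).add (dvdN_int _)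

theorem mulVec_int {A : Matrix (Fin 3) (Fin 3) (Af ℚ)} (hA : ∀ i j, DvdN 1 (A i j))
    {x : Fin 3 → Af ℚ} (hx : IntV x) : IntV (A.mulVec x) := by
  intro i
  have e : A.mulVec x i = ∑ j, A i j * x j := rfl
  rw [e]
  exact DvdN.sum _ fun j _ => dvd_int_mul (hA i j) (hx j)

theorem cm1 : ContinuousMul (Matrix (Fin 3) (Fin 3) (Af ℚ)) := inferInstance

theorem cm2 : ContinuousMul (Gf ℚ 3) := by
  have := cm1
  exact Units.instContinuousMul

theorem cm3 (x : Gf ℚ 3) : Continuous fun g : Gf ℚ 3 => x⁻¹ * g := by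
  have := cm2
  exact continuous_const_mul x⁻¹

theorem cm4 (x : Gf ℚ 3) :
    (fun g : Gf ℚ 3 => x⁻¹ * g) ⁻¹' (UN ℚ 3 1 : Set (Gf ℚ 3)) ∈ 𝓝 x := by
  have h1 : x ∈ (fun g : Gf ℚ 3 => x⁻¹ * g) ⁻¹' (UN ℚ 3 1 : Set (Gf ℚ 3)) := by
    have h2 : x⁻¹ * x ∈ UN ℚ 3 1 := by
      rw [inv_mul_cancel]
      exact (UN ℚ 3 1).one_mem
    exact h2
  exact (isOpen_UN.preimage (cm3 x)).mem_nhds h1

variable {K : Subgroup (Gf ℚ 3)}

/-- the lattice -/
noncomputable def Lam (K : Subgroup (Gf ℚ 3)) : AddSubgroup (Fin 3 → Af ℚ) :=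
  AddSubgroup.closure {y | ∃ κ ∈ K, ∃ x, IntV x ∧ y = κ.1.mulVec x}

theorem Lam_int {x : Fin 3 → Af ℚ} (hx : IntV x) : x ∈ Lam K :=
  AddSubgroup.subset_closure ⟨1, K.one_mem, x, hx, by rw [Units.val_one, Matrix.one_mulVec]⟩

theorem Lam_K {κ : Gf ℚ 3} (hκ : κ ∈ K) {y : Fin 3 → Af ℚ} (hy : y ∈ Lam K) :
    κ.1.mulVec y ∈ Lam K := by
  induction hy using AddSubgroup.closure_induction with
  | mem y hy =>
    obtain ⟨κ', hκ', x, hx, rfl⟩ := hy
    refine AddSubgroup.subset_closure ⟨κ * κ', K.mul_mem hκ hκ', x, hx, ?_⟩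
    rw [Units.val_mul, Matrix.mulVec_mulVec]
  | zero => rw [Matrix.mulVec_zero]; exact (Lam K).zero_mem
  | add a b _ _ ha hb => rw [Matrix.mulVec_add]; exact (Lam K).add_mem ha hb
  | neg a _ ha => rw [Matrix.mulVec_neg]; exact (Lam K).neg_mem ha

theorem Lam_den {M : ℕ} (hM : ∀ κ ∈ K, ∀ i j, DvdN 1 ((M : Af ℚ) * κ.1 i j)) {y : Fin 3 → Af ℚ}
    (hy : y ∈ Lam K) : ∀ i, DvdN 1 ((M : Af ℚ) * y i) := by
  induction hy using AddSubgroup.closure_induction with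
  | mem y hy =>
    obtain ⟨κ, hκ, x, hx, rfl⟩ := hy
    intro i
    rw [Matrix.mulVec, dotProduct, Finset.mul_sum]
    refine DvdN.sum _ fun j _ => ?_
    rw [← mul_assoc]
    exact dvd_int_mul (hM κ hκ i j) (hx j)
  | zero => intro i; rw [Pi.zero_apply, mul_zero]; exact dvdN_zero 1
  | add a b _ _ ha hb => intro i; rw [Pi.add_apply, mul_add]; exact (ha i).add (hb i)
  | neg a _ ha => intro i; rw [Pi.neg_apply, mul_neg]; exact (ha i).neg

/-- the rational vector `z / M` -/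
noncomputable def qv3 (M : ℕ) : (Fin 3 → ℤ) →+ (Fin 3 → Af ℚ) where
  toFun z := fun i => algebraMap ℚ (Af ℚ) ((z i : ℚ) / M)
  map_zero' := by
    funext i
    simp
  map_add' a b := by
    funext i
    simp only [Pi.add_apply]
    rw [← map_add]
    congr 1
    push_cast
    ring

/-- the integral lattice -/
noncomputable def LL (K : Subgroup (Gf ℚ 3)) (M : ℕ) : Submodule ℤ (Fin 3 → ℤ) :=
  AddSubgroup.toIntSubmodule ((Lam K).comap (qv3 M))

theorem mem_LL {M : ℕ} {z : Fin 3 → ℤ} : z ∈ LL K M ↔ qv3 M z ∈ Lam K := Iff.rfl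

theorem smul_LL {M : ℕ} (hM : 1 ≤ M) (z : Fin 3 → ℤ) : (M : ℤ) • z ∈ LL K M := by
  rw [mem_LL]
  refine Lam_int fun i => ?_
  change DvdN 1 (algebraMap ℚ (Af ℚ) (((((M : ℤ) • z) i : ℤ) : ℚ) / M))
  have e : ((((M : ℤ) • z) i : ℤ) : ℚ) / M = (z i : ℚ) := by
    have : (M : ℚ) ≠ 0 := by
      exact_mod_cast (by omega : M ≠ 0)
    simp only [Pi.smul_apply, smul_eq_mul, Int.cast_mul, Int.cast_natCast]
    field_simp
  rw [e]
  exact dvdN_int _

theorem finrank_LL {M : ℕ} (hM : 1 ≤ M) : Module.finrank ℤ (LL K M) = 3 := by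
  refine le_antisymm ?_ ?_
  · have := (LL K M).finrank_le
    simpa using this
  · let f : (Fin 3 → ℤ) →ₗ[ℤ] LL K M :=
      { toFun := fun z => ⟨(M : ℤ) • z, smul_LL hM z⟩
        map_add' := fun a b => Subtype.ext (smul_add (M : ℤ) a b)
        map_smul' := fun a b => Subtype.ext (smul_comm (M : ℤ) a b) }
    have hf : Function.Injective f := by
      intro a b h
      have h1 := congrArg Subtype.val h
      change (M : ℤ) • a = (M : ℤ) • b at h1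
      exact smul_right_injective _ (by exact_mod_cast (by omega : M ≠ 0)) h1
    have := LinearMap.finrank_le_finrank_of_injective hf
    simpa using this

/-- a compact subgroup is contained in a conjugate of `GL_3(Ẑ)` -/
theorem compact_conj (hK : IsCompact (K : Set (Gf ℚ 3))) :
    ∃ g : Gf ℚ 3, ∀ κ ∈ K, g⁻¹ * κ * g ∈ UN ℚ 3 1 := by
  classical
  -- finitely many cosets
  obtain ⟨X, hX, hcov⟩ := hK.elim_nhds_subcover (fun x => (fun g : Gf ℚ 3 => x⁻¹ * g) ⁻¹'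
    (UN ℚ 3 1 : Set (Gf ℚ 3))) (fun x _ => cm4 x)
  -- denominators
  choose n hn hnd using ex_den
  obtain ⟨M, hM, hMK⟩ : ∃ M : ℕ, 1 ≤ M ∧ ∀ κ ∈ K, ∀ i j, DvdN 1 ((M : Af ℚ) * κ.1 i j) := by
    refine ⟨∏ x ∈ X, ∏ i : Fin 3, ∏ j : Fin 3, n (x.1 i j), ?_, fun κ hκ i j => ?_⟩
    · rw [Nat.one_le_iff_ne_zero]
      simp only [Finset.prod_ne_zero_iff]
      exact fun x _ i _ j _ => Nat.one_le_iff_ne_zero.1 (hn _)
    · have h1 := hcov hκ
      rw [Set.mem_iUnion₂] at h1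
      obtain ⟨x, hx, hu⟩ := h1
      have hu' : x⁻¹ * κ ∈ UN ℚ 3 1 := hu
      have e : κ.1 i j = ∑ l, x.1 i l * (x⁻¹ * κ).1 l j := by
        have : κ = x * (x⁻¹ * κ) := by group
        conv_lhs => rw [this, Units.val_mul, Matrix.mul_apply]
      rw [e, Finset.mul_sum]
      refine DvdN.sum _ fun l _ => ?_
      rw [← mul_assoc]
      refine dvd_int_mul ?_ (UN_int hu' l j)
      obtain ⟨c, hc⟩ : n (x.1 i l) ∣ ∏ x ∈ X, ∏ i : Fin 3, ∏ j : Fin 3, n (x.1 i j) :=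
        ((Finset.dvd_prod_of_mem _ (Finset.mem_univ l)).trans
          (Finset.dvd_prod_of_mem (fun i => ∏ j : Fin 3, n (x.1 i j)) (Finset.mem_univ i))).trans
          (Finset.dvd_prod_of_mem (fun x : Gf ℚ 3 => ∏ i : Fin 3, ∏ j : Fin 3, n (x.1 i j)) hx)
      rw [hc, Nat.cast_mul, mul_comm (n (x.1 i l) : Af ℚ), mul_assoc]
      exact dvd_int_mul (dvd_nat _) (hnd _)
  have hM0 : (M : ℚ) ≠ 0 := by exact_mod_cast (by omega : M ≠ 0)
  -- the basis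
  let b := Module.finBasisOfFinrankEq ℤ (LL K M) (finrank_LL hM)
  let B : Matrix (Fin 3) (Fin 3) ℚ := fun i j => ((b j).1 i : ℚ) / M
  let C : Matrix (Fin 3) (Fin 3) ℚ := fun i j =>
    ((b.repr ⟨(M : ℤ) • Pi.single j 1, smul_LL hM _⟩ i : ℤ) : ℚ)
  have hBC : B * C = 1 := by
    ext i j
    have h1 := congrArg Subtype.val (b.sum_repr ⟨(M : ℤ) • Pi.single j 1, smul_LL hM _⟩)
    have h2 := congrFun h1 i
    rw [AddSubmonoidClass.coe_finsetSum, Finset.sum_apply] at h2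
    have h3 : ∑ l, (b.repr ⟨(M : ℤ) • Pi.single j 1, smul_LL hM _⟩ l) * (b l).1 i =
        (M : ℤ) * (Pi.single j 1 : Fin 3 → ℤ) i := h2
    have h4 : ∑ l, ((b.repr ⟨(M : ℤ) • Pi.single j 1, smul_LL hM _⟩ l : ℤ) : ℚ) *
        ((b l).1 i : ℚ) = (M : ℚ) * ((Pi.single j 1 : Fin 3 → ℤ) i : ℤ) := by exact_mod_cast h3
    rw [Matrix.mul_apply]
    have h5 : ∑ l, B i l * C l j = (∑ l, ((b.repr ⟨(M : ℤ) • Pi.single j 1, smul_LL hM _⟩ l : ℤ) :
        ℚ) * ((b l).1 i : ℚ)) / M := by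
      rw [Finset.sum_div]
      refine Finset.sum_congr rfl fun l _ => ?_
      change ((b l).1 i : ℚ) / M * _ = _
      ring
    rw [h5, h4, mul_div_cancel_left₀ _ hM0, Matrix.one_apply, Pi.single_apply]
    split_ifs <;> simp
  let g : GQ ℚ 3 := ⟨B, C, hBC, mul_eq_one_comm.1 hBC⟩
  have hg : ∀ i j, (dg ℚ 3 g).1 i j = algebraMap ℚ (Af ℚ) (B i j) := fun i j => rfl
  have hg' : ∀ i j, (dg ℚ 3 g)⁻¹.1 i j = algebraMap ℚ (Af ℚ) (C i j) := fun i j => by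
    rw [← map_inv]
    rfl
  -- the columns
  have hcol : ∀ j, (fun i => (dg ℚ 3 g).1 i j) ∈ Lam K := fun j => (b j).2
  have hCint : ∀ i j, DvdN 1 ((dg ℚ 3 g)⁻¹.1 i j) := fun i j => by
    rw [hg']
    exact dvdN_int _
  have hinv : ∀ y ∈ Lam K, IntV ((dg ℚ 3 g)⁻¹.1.mulVec y) := by
    intro y hy
    choose α hα using fun i => tApp ℚ (y i) 1 le_rfl
    let q : Fin 3 → Af ℚ := fun i => algebraMap ℚ (Af ℚ) (α i)
    have h1 : IntV (y - q) := fun i => hα i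
    have h2 : q ∈ Lam K := by
      have : q = y - (y - q) := by abel
      rw [this]
      exact (Lam K).sub_mem hy (Lam_int h1)
    have h3 : ∀ i, ∃ z : ℤ, (M : ℚ) * α i = z := by
      intro i
      have h4 := Lam_den hMK h2 i
      have e : (M : Af ℚ) * q i = algebraMap ℚ (Af ℚ) ((M : ℚ) * α i) := by
        rw [map_mul, map_natCast]
      rw [e] at h4
      obtain ⟨c, hc⟩ := tInt ℚ _ 1 le_rfl h4
      rw [Nat.cast_one, one_mul] at hc
      have h5 : IsIntegral ℤ ((M : ℚ) * α i) := by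
        rw [hc]; exact RingOfIntegers.isIntegral_coe c
      obtain ⟨z, hz⟩ := IsIntegrallyClosed.isIntegral_iff.1 h5
      exact ⟨z, by rw [← hz]; rfl⟩
    choose z hz using h3
    have hzL : z ∈ LL K M := by
      rw [mem_LL]
      have : qv3 M z = q := by
        funext i
        change algebraMap ℚ (Af ℚ) ((z i : ℚ) / M) = algebraMap ℚ (Af ℚ) (α i)
        rw [← hz, mul_div_cancel_left₀ _ hM0]
      rwa [this]
    have h6 : IntV ((dg ℚ 3 g)⁻¹.1.mulVec q) := by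
      have h7 : q = (dg ℚ 3 g).1.mulVec fun l => algebraMap ℚ (Af ℚ) ((b.repr ⟨z, hzL⟩ l : ℤ) : ℚ) := by
        funext i
        have h8 := congrFun (congrArg Subtype.val (b.sum_repr ⟨z, hzL⟩)) i
        rw [AddSubmonoidClass.coe_finsetSum, Finset.sum_apply] at h8
        have h9 : ∑ l, (b.repr ⟨z, hzL⟩ l) * (b l).1 i = z i := h8
        have h10 : ∑ l, ((b.repr ⟨z, hzL⟩ l : ℤ) : ℚ) * ((b l).1 i : ℚ) = (z i : ℚ) := by
          exact_mod_cast h9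
        rw [Matrix.mulVec, dotProduct]
        change algebraMap ℚ (Af ℚ) (α i) = _
        have h11 : α i = ∑ l, B i l * ((b.repr ⟨z, hzL⟩ l : ℤ) : ℚ) := by
          have h12 : ∑ l, B i l * ((b.repr ⟨z, hzL⟩ l : ℤ) : ℚ) = (z i : ℚ) / M := by
            rw [← h10, Finset.sum_div]
            refine Finset.sum_congr rfl fun l _ => ?_
            change ((b l).1 i : ℚ) / M * _ = _
            ring
          rw [h12, ← hz, mul_div_cancel_left₀ _ hM0]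
        rw [h11, map_sum]
        refine Finset.sum_congr rfl fun l _ => ?_
        rw [map_mul, hg]
      rw [h7, Matrix.mulVec_mulVec]
      have h13 : (dg ℚ 3 g)⁻¹.1 * (dg ℚ 3 g).1 = 1 := by
        rw [← Units.val_mul, inv_mul_cancel, Units.val_one]
      rw [h13, Matrix.one_mulVec]
      exact fun i => dvdN_int _
    have h14 : (dg ℚ 3 g)⁻¹.1.mulVec y =
        (dg ℚ 3 g)⁻¹.1.mulVec (y - q) + (dg ℚ 3 g)⁻¹.1.mulVec q := by
      rw [← Matrix.mulVec_add, sub_add_cancel]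
    rw [h14]
    exact fun i => (mulVec_int hCint h1 i).add (h6 i)
  have key : ∀ κ ∈ K, ∀ i j, DvdN 1 (((dg ℚ 3 g)⁻¹ * κ * dg ℚ 3 g).1 i j) := by
    intro κ hκ i j
    have h1 := hinv _ (Lam_K hκ (hcol j)) i
    have e : ((dg ℚ 3 g)⁻¹ * κ * dg ℚ 3 g).1 i j =
        (dg ℚ 3 g)⁻¹.1.mulVec (κ.1.mulVec fun i => (dg ℚ 3 g).1 i j) i := by
      rw [Matrix.mulVec_mulVec]
      rfl
    rwa [e]
  refine ⟨dg ℚ 3 g, fun κ hκ => ⟨?_, ?_⟩⟩
  · exact int_iff.2 fun i j w => (Cls.dvdN_one_iff _).1 (key κ hκ i j) w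
  · have e : ((dg ℚ 3 g)⁻¹ * κ * dg ℚ 3 g)⁻¹ = (dg ℚ 3 g)⁻¹ * κ⁻¹ * dg ℚ 3 g := by group
    rw [e]
    exact int_iff.2 fun i j w => (Cls.dvdN_one_iff _).1 (key κ⁻¹ (K.inv_mem hκ) i j) w

end Pool.Agent.H520.CG3
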