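import Pool.Agent.H520.CG3.Ori

/-!
# The complex of a lattice (helper520, MP_34be05_nt)
-/

open Matrix

namespace Pool.Agent.H520.CG3

variable {W : Type} [AddCommGroup W] {B : Set GR} {sg : E → E → ℤ}

theorem exists_mor (hB : LatB B) : ∃ M N a, Mor (FB B) M N a := by
  obtain ⟨f, hf, hG⟩ := exists_gen hB
  exact ⟨_, _, _, mor hB hf hG⟩

theorem mem_Cf (hB : LatB B) {σ : Finset E} (hσ : FB B σ) {y : E} :
    y ∈ Cf (FB B) σ ↔ y ∉ σ ∧ FB B (insert y σ) := by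
  obtain ⟨M, N, a, h⟩ := exists_mor hB
  exact h.mem_Cf hσ

theorem face_card (hB : LatB B) {σ : Finset E} (hσ : FB B σ) : σ.card ≤ 6 := by
  obtain ⟨⟨h, -, h1⟩, -⟩ := hσ
  have := Finset.card_le_card h1
  rwa [card_top] at this

theorem face_top {S : Finset E} (hS : FB B S) (hc : S.card = 6) : ∃ h ∈ B, top h = S := by
  obtain ⟨⟨h, hh, h1⟩, -⟩ := hS
  exact ⟨h, hh, (Finset.eq_of_subset_of_card_le h1 (by rw [card_top, hc])).symm⟩

/-- exactness -/
theorem ex_low (hB : LatB B) (hs : Sg sg) (m : ℕ) (hm : m + 1 < 6) (ψ : Finset E → W)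
    (hψ : ∀ ρ, FB B ρ → ρ.card = m → dE (FB B) sg ψ ρ = 0) :
    ∃ φ : Finset E → W, ∀ σ, FB B σ → σ.card = m + 1 → dE (FB B) sg φ σ = ψ σ := by
  obtain ⟨M, N, a, h⟩ := exists_mor hB
  exact h.exact hs m hm ψ hψ

theorem dd_zero (hB : LatB B) (hs : Sg sg) (φ : Finset E → W) {ρ : Finset E} (hρ : FB B ρ) :
    dE (FB B) sg (dE (FB B) sg φ) ρ = 0 := by
  obtain ⟨M, N, a, h⟩ := exists_mor hB
  exact h.dd hs φ hρ

/-- the constants are cocycles -/
theorem d_const (hB : LatB B) (hs : Sg sg) (w : W) {ρ : Finset E} (hρ : FB B ρ)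
    (hc : ρ.card = 5) : dE (FB B) sg (fun S => om sg S • w) ρ = 0 := by
  have hmem : ∀ y, y ∈ Cf (FB B) ρ ↔ y ∉ ρ ∧ FB B (insert y ρ) := fun y => mem_Cf hB hρ
  have htop : ∀ y ∈ Cf (FB B) ρ, ∃ k ∈ B, insert y ρ = top k := by
    intro y hy
    rw [hmem] at hy
    obtain ⟨k, hk, e⟩ := face_top hy.2 (by rw [Finset.card_insert_of_notMem hy.1, hc])
    exact ⟨k, hk, e.symm⟩
  have hfac : ∀ X ∈ Cf (FB B) ρ, ∀ Y ∈ Cf (FB B) ρ, X ≠ Y →
      s0 sg X ρ * om sg (insert X ρ) = -(s0 sg Y ρ * om sg (insert Y ρ)) := by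
    intro X hX Y hY hXY
    obtain ⟨k, hk, e⟩ := htop X hX
    obtain ⟨k', hk', e'⟩ := htop Y hY
    exact om_facet hs hB hk hk' ((hmem X).1 hX).1 ((hmem Y).1 hY).1 hXY e e'
  have hsq : ∀ X ∈ Cf (FB B) ρ, (s0 sg X ρ * om sg (insert X ρ)) ≠ 0 := by
    intro X hX h0
    obtain ⟨k, hk, e⟩ := htop X hX
    have h1 := om_sq hs k
    have h2 := s0_sq hs ((hmem X).1 hX).1
    rw [e] at h0
    rcases mul_eq_zero.1 h0 with h3 | h3
    · rw [h3] at h2; norm_num at h2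
    · rw [h3] at h1; norm_num at h1
  -- there are at least two
  obtain ⟨⟨k, hk, hρk⟩, -⟩ := id hρ
  obtain ⟨X, hX, hXρ⟩ : ∃ X ∈ top k, X ∉ ρ := by
    by_contra h4
    push Not at h4
    have := Finset.card_le_card (show top k ⊆ ρ from fun X hX => h4 X hX)
    rw [card_top, hc] at this
    omega
  have hXk : insert X ρ = top k := by
    refine Finset.eq_of_subset_of_card_le (Finset.insert_subset hX hρk) ?_
    rw [card_top, Finset.card_insert_of_notMem hXρ, hc]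
  have hspn : ∀ S, ρ ⊆ S → Spn S := fun S h => hρ.2.mono h
  have hXC : X ∈ Cf (FB B) ρ := (hmem X).2 ⟨hXρ, ⟨k, hk, hXk.le⟩,
    hspn _ (Finset.subset_insert _ _)⟩
  obtain ⟨i, hi⟩ := mem_top.1 hX
  obtain ⟨k', hk', h1, h2⟩ := flip hB hk i
  have hρk' : ρ ⊆ top k' := by
    intro Z hZ
    obtain ⟨j, hj⟩ := mem_top.1 (hρk hZ)
    rw [← hj]
    refine h1 j ?_
    rintro rfl
    rw [hi] at hj
    rw [hj] at hXρ
    exact hXρ hZ
  obtain ⟨Y, hY, hYρ⟩ : ∃ Y ∈ top k', Y ∉ ρ := by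
    by_contra h4
    push Not at h4
    have := Finset.card_le_card (show top k' ⊆ ρ from fun X hX => h4 X hX)
    rw [card_top, hc] at this
    omega
  have hYk : insert Y ρ = top k' := by
    refine Finset.eq_of_subset_of_card_le (Finset.insert_subset hY hρk') ?_
    rw [card_top, Finset.card_insert_of_notMem hYρ, hc]
  have hYC : Y ∈ Cf (FB B) ρ := (hmem Y).2 ⟨hYρ, ⟨k', hk', hYk.le⟩,
    hspn _ (Finset.subset_insert _ _)⟩
  have hXY : X ≠ Y := by
    rintro rfl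
    rw [hi] at h2
    exact h2 hY
  have hCf : Cf (FB B) ρ = {X, Y} := by
    ext Z
    rw [Finset.mem_insert, Finset.mem_singleton]
    constructor
    · intro hZ
      by_contra h3
      push Not at h3
      have a1 := hfac X hXC Y hYC hXY
      have a2 := hfac Z hZ X hXC h3.1
      have a3 := hfac Z hZ Y hYC h3.2
      have a4 := hsq X hXC
      omega
    · rintro (rfl | rfl)
      · exact hXC
      · exact hYC
  rw [dE, hCf, Finset.sum_pair hXY, ← mul_smul, ← mul_smul, hfac X hXC Y hYC hXY, neg_smul,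
    neg_add_cancel]

/-- the kernel in the top degree -/
theorem ex_top (hB : LatB B) (hs : Sg sg) (ψ : Finset E → W)
    (hψ : ∀ ρ, FB B ρ → ρ.card = 5 → dE (FB B) sg ψ ρ = 0) :
    ∃ w : W, ∀ S, FB B S → S.card = 6 → ψ S = om sg S • w := by
  obtain ⟨M, N, a, h⟩ := exists_mor hB
  by_cases hex : ∃ S, FB B S ∧ M S = S ∧ ∀ σ, FB B σ → M σ = S → σ = S
  · obtain ⟨S0, h1, h2, h3⟩ := hex
    refine ⟨om sg S0 • ψ S0, fun S hS hc => ?_⟩
    have hz := h.top_zero hs (fun S => ψ S - om sg S • (om sg S0 • ψ S0)) ?_ ?_ S hS hc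
    · exact sub_eq_zero.1 hz
    · intro ρ hρ hρc
      have h4 : dE (FB B) sg (fun S => ψ S - om sg S • (om sg S0 • ψ S0)) ρ =
          dE (FB B) sg ψ ρ - dE (FB B) sg (fun S => om sg S • (om sg S0 • ψ S0)) ρ := by
        simp only [dE, smul_sub, Finset.sum_sub_distrib]
      rw [h4, hψ ρ hρ hρc, d_const hB hs _ hρ hρc, sub_zero]
    · intro S' h4 h5 h6
      have e := h.uniq S0 S' h1 h2 h3 h4 h5 h6
      subst e
      have hc0 : S0.card = 6 := by rw [← h2]; exact h.card S0 h1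
      obtain ⟨k, -, hk⟩ := face_top h1 hc0
      rw [← mul_smul, ← hk, om_sq hs, one_smul, sub_self]
  · refine ⟨0, fun S hS hc => ?_⟩
    rw [smul_zero]
    refine h.top_zero hs ψ hψ ?_ S hS hc
    intro S' h4 h5 h6
    exact absurd ⟨S', h4, h5, h6⟩ hex

/-- there are no faces with fewer than three vertices -/
theorem card_ge (hB : LatB B) {σ : Finset E} (hσ : FB B σ) : 3 ≤ σ.card := by
  by_contra hc
  push Not at hc
  obtain ⟨⟨h, -, h1⟩, h2⟩ := hσ
  -- a nonzero vector orthogonal to all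
  have hex : ∃ v : Fin 2 → Fin 3 → ℝ, ∀ X ∈ σ, ∃ i, X = sqv (v i) := by
    rcases Nat.lt_or_ge σ.card 1 with h3 | h3
    · have : σ = ∅ := Finset.card_eq_zero.1 (by omega)
      subst this
      exact ⟨fun _ => 0, by simp⟩
    · rcases Nat.lt_or_ge σ.card 2 with h4 | h4
      · obtain ⟨X, rfl⟩ := Finset.card_eq_one.1 (show σ.card = 1 by omega)
        obtain ⟨i, hi⟩ := mem_top.1 (h1 (Finset.mem_singleton_self X))
        refine ⟨fun _ => h.1 *ᵥ cst (rz i), fun Y hY => ⟨0, ?_⟩⟩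
        rw [Finset.mem_singleton.1 hY, ← hi]; rfl
      · obtain ⟨X, Y, -, rfl⟩ := Finset.card_eq_two.1 (show σ.card = 2 by omega)
        obtain ⟨i, hi⟩ := mem_top.1 (h1 (Finset.mem_insert_self X _))
        obtain ⟨j, hj⟩ := mem_top.1 (h1 (Finset.mem_insert_of_mem (Finset.mem_singleton_self Y)))
        refine ⟨![h.1 *ᵥ cst (rz i), h.1 *ᵥ cst (rz j)], fun Z hZ => ?_⟩
        rcases Finset.mem_insert.1 hZ with hZ | hZ
        · exact ⟨0, by rw [hZ, ← hi]; rfl⟩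
        · exact ⟨1, by rw [Finset.mem_singleton.1 hZ, ← hj]; rfl⟩
  obtain ⟨v, hv⟩ := hex
  obtain ⟨u, hu, hu0⟩ : ∃ u : Fin 3 → ℝ, u ≠ 0 ∧ ∀ i, v i ⬝ᵥ u = 0 := by
    have h3 : ¬ Function.Injective (Matrix.mulVecLin (Matrix.of v)) := by
      intro hinj
      have := LinearMap.finrank_le_finrank_of_injective hinj
      simp at this
    rw [← LinearMap.ker_eq_bot] at h3
    obtain ⟨u, hu, hu0⟩ := (Submodule.ne_bot_iff _).1 h3
    refine ⟨u, hu0, fun i => ?_⟩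
    have h4 : (Matrix.of v) *ᵥ u = 0 := hu
    exact congrFun h4 i
  refine hu (h2 u fun X hX => ?_)
  obtain ⟨i, rfl⟩ := hv X hX
  rw [sqv_form, hu0 i]
  norm_num

end Pool.Agent.H520.CG3
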