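import Pool.Agent.H520.CG3.Kil

/-!
# The relations between the Hecke eigenvalues in degrees zero and one (helper520, MP_34be05_nt)
-/

open CategoryTheory groupCohomology Q4.GLC

namespace Pool.Agent.H520.CG3

/-- the component of `K` at `v ∉ S` is `GL_3(O_v)`, and it acts trivially -/
def GoodOut {O W : Type} [CommRing O] [AddCommGroup W] [Module O W]
    {K : Subgroup (Gf ℚ 3)} (ρ : Representation O K W) (S : Set (Pl ℚ)) : Prop :=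
  ∀ v ∉ S, (∀ κ ∈ K, ∀ i j, Valued.v ((κ.1 i j) v) ≤ 1) ∧ Kv 3 v ≤ K ∧
    ∀ κ : K, κ.1 ∈ Kv (F := ℚ) 3 v → ρ κ = 1

theorem loc_zero {T M : Type} [CommRing T] [AddCommGroup M] [Module T M] {I : Ideal T} [I.IsPrime]
    (h : Nontrivial (LocalizedModule I.primeCompl M)) {t : T} {n : ℕ} (ht : ∀ x : M, t ^ n • x = 0) :
    t ∈ I := by
  by_contra hI
  have h1 : ∀ y : LocalizedModule I.primeCompl M, y = 0 := by
    intro y
    induction y using LocalizedModule.induction_on with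
    | h m s =>
      rw [← LocalizedModule.zero_mk s, LocalizedModule.mk_eq]
      refine ⟨⟨t ^ n, fun hc => hI (Ideal.IsPrime.mem_of_pow_mem inferInstance n hc)⟩, ?_⟩
      rw [smul_comm, smul_zero, smul_zero]
      change s • t ^ n • m = 0
      rw [ht, smul_zero]
  exact not_subsingleton _ ⟨fun a b => by rw [h1 a, h1 b]⟩

theorem exHF' (v : Pl ℚ) {ϖ : (Af ℚ)ˣ} (hϖ : IsUnif v ϖ) {j : ℕ} (hj : j ≤ 3) {d : ℕ}
    (hd : dgr (Kv (F := ℚ) 3 v) (tm 3 ϖ j) = d) :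
    ∃ m : Fin d → Gf ℚ 3, HF dt3 (Kv 3 v) (Pv v) m (ϖ ^ j) ∧
      ∀ {A : Type} [AddCommGroup A] (f : Gf ℚ 3 → A), RI (Kv 3 v) f →
        hecke (Kv 3 v) (tm 3 ϖ j) f = Tf m f := by
  subst hd
  exact exHF v hϖ hj

section rel

variable (p : ℕ) [Fact p.Prime] {O W : Type} [CommRing O] [Algebra ℤ_[p] O]
  [Module.Finite ℤ_[p] O] [AddCommGroup W] [Module O W] [Module.Finite O W]
variable {Γ : Subgroup (GQ ℚ 3)} {K : Subgroup (Gf ℚ 3)} {ρ : Representation O K W}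
  {S : Set (Pl ℚ)} {T : Type} [CommRing T] {t : Pl ℚ → ℕ → T} {A : Rep.{0} O Γ}
  {vl : A →+ (Gf ℚ 3 → W)}

/-- `t v j` acts on `H^i` as the Hecke operator `T_{v,j}` -/
def HeckeActs (vl : A →+ (Gf ℚ 3 → W)) (S : Set (Pl ℚ)) (t : Pl ℚ → ℕ → T) (i : ℕ)
    [Module T (groupCohomology A i)] : Prop :=
  ∀ v ∉ S, ∀ ϖ : (Af ℚ)ˣ, IsUnif v ϖ → ∀ j : ℕ, 1 ≤ j → j ≤ 3 →
    ∃ φ : A ⟶ A, (∀ a, vl (φ.hom a) = hecke (Kv 3 v) (tm 3 ϖ j) (vl a)) ∧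
      ∀ x : groupCohomology A i, t v j • x = map (MonoidHom.id Γ) φ i x

include p in
theorem kills (hA : IsModel (dg ℚ 3) Γ K ρ A vl) (hS : Sys (dg ℚ 3) Γ dt3 (UN ℚ 3))
    (hK : ∃ N : ℕ, 1 ≤ N ∧ UN ℚ 3 N ≤ K)
    (hc : PCont p ρ (UN ℚ 3)) (hg : GoodOut ρ S) {i : ℕ} (hi : i ≤ 1)
    [Module T (groupCohomology A i)]
    (ha : HeckeActs vl S t i) {v : Pl ℚ} (hv : v ∉ S) :
    (∀ x : groupCohomology A i,
      (t v 1 * t v 1 - ((qv v ^ 2 + qv v + 1 : ℕ) : T) * t v 2) ^ 3 • x = 0) ∧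
    (∀ x : groupCohomology A i,
      (t v 2 * t v 2 - ((qv v ^ 2 + qv v + 1 : ℕ) : T) * (t v 1 * t v 3)) ^ 3 • x = 0) ∧
    ∀ x : groupCohomology A i,
      (t v 1 * t v 2 - (((qv v ^ 2 + qv v + 1) ^ 2 : ℕ) : T) * t v 3) ^ 3 • x = 0 := by
  obtain ⟨g1, g2, g3⟩ := hg v hv
  obtain ⟨ϖ, hϖ⟩ := ex_unif v
  have hL := mkLocD g1 g2 g3
  have c1 := card_one v hϖ
  have c2 := card_two v hϖ
  generalize hd : qv v ^ 2 + qv v + 1 = d at c1 c2 ⊢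
  obtain ⟨m1, h1, e1⟩ := exHF' v hϖ (j := 1) (by norm_num) c1
  obtain ⟨m2, h2, e2⟩ := exHF' v hϖ (j := 2) (by norm_num) c2
  obtain ⟨m3, h3, e3⟩ := exHF' v hϖ (j := 3) le_rfl (card_three v hϖ)
  obtain ⟨φ1, p1, a1⟩ := ha v hv ϖ hϖ 1 le_rfl (by norm_num)
  obtain ⟨φ2, p2, a2⟩ := ha v hv ϖ hϖ 2 (by norm_num) (by norm_num)
  obtain ⟨φ3, p3, a3⟩ := ha v hv ϖ hϖ 3 (by norm_num) le_rfl
  have hRI : ∀ a, RI (Kv (F := ℚ) 3 v) (vl a) := fun a l hl x =>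
    mm_ri (hA.mem a) l (mem_KRO.2 ⟨g2 hl, g3 ⟨l, g2 hl⟩ hl⟩) x
  have q1 : ∀ f, vl (φ1.hom f) = Tf m1 (vl f) := fun f => (p1 f).trans (e1 _ (hRI f))
  have q2 : ∀ f, vl (φ2.hom f) = Tf m2 (vl f) := fun f => (p2 f).trans (e2 _ (hRI f))
  have q3 : ∀ f, vl (φ3.hom f) = Tf m3 (vl f) := fun f => (p3 f).trans (e3 _ (hRI f))
  -- the families
  have f1 := h1.mul h1
  have f1' := (HF.one dt3 (Kv (F := ℚ) 3 v) (Pv v) (Fin d)).mul h2
  have k1 : (ϖ ^ 1 * ϖ ^ 1 : (Af ℚ)ˣ) = 1 * ϖ ^ 2 := by rw [← pow_add, one_mul]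
  rw [← k1] at f1'
  have f2 := h2.mul h2
  have f2' := (HF.one dt3 (Kv (F := ℚ) 3 v) (Pv v) (Fin d)).mul (h1.mul h3)
  have k2 : (ϖ ^ 2 * ϖ ^ 2 : (Af ℚ)ˣ) = 1 * (ϖ ^ 1 * ϖ ^ 3) := by
    rw [← pow_add, ← pow_add, one_mul]
  rw [← k2] at f2'
  have f3 := h1.mul h2
  have f3' := (HF.one dt3 (Kv (F := ℚ) 3 v) (Pv v) (Fin (d ^ 2))).mul h3
  have k3 : (ϖ ^ 1 * ϖ ^ 2 : (Af ℚ)ˣ) = 1 * ϖ ^ 3 := by rw [← pow_add, one_mul]
  rw [← k3] at f3'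
  have u1 : Fintype.card (Fin d × Fin d) = Fintype.card (Fin d × Fin d) := rfl
  have u2 : Fintype.card (Fin d × Fin d) = Fintype.card (Fin d × Fin d × Fin 1) := by
    simp only [Fintype.card_prod, Fintype.card_fin, mul_one]
  have u3 : Fintype.card (Fin d × Fin d) = Fintype.card (Fin (d ^ 2) × Fin 1) := by
    simp only [Fintype.card_prod, Fintype.card_fin, mul_one, sq]
  have w1 : ∀ w : Gf ℚ 3 → W, Tf m1 (Tf m1 w) - d • Tf m2 w =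
      Tf (fun p : Fin d × Fin d => m1 p.1 * m1 p.2) w -
        Tf (fun p : Fin d × Fin d => 1 * m2 p.2) w := fun w => by
    rw [Tf_mul, Tf_one, Fintype.card_fin]
  have w2 : ∀ w : Gf ℚ 3 → W, Tf m2 (Tf m2 w) - d • Tf m1 (Tf m3 w) =
      Tf (fun p : Fin d × Fin d => m2 p.1 * m2 p.2) w -
        Tf (fun p : Fin d × Fin d × Fin 1 => 1 * (m1 p.2.1 * m3 p.2.2)) w := fun w => by
    rw [Tf_mul, Tf_one (fun p : Fin d × Fin 1 => m1 p.1 * m3 p.2), Fintype.card_fin, Tf_mul]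
  have w3 : ∀ w : Gf ℚ 3 → W, Tf m1 (Tf m2 w) - (d ^ 2) • Tf m3 w =
      Tf (fun p : Fin d × Fin d => m1 p.1 * m2 p.2) w -
        Tf (fun p : Fin (d ^ 2) × Fin 1 => 1 * m3 p.2) w := fun w => by
    rw [Tf_mul, Tf_one, Fintype.card_fin]
  obtain rfl | rfl : i = 0 ∨ i = 1 := by omega
  · have A1 := Act0.of_map φ1 a1 q1
    have A2 := Act0.of_map φ2 a2 q2
    have A3 := Act0.of_map φ3 a3 q3
    refine ⟨fun x => ?_, fun x => ?_, fun x => ?_⟩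
    · exact kill0 p hA hS hK hc hL f1 f1' u1
        (((A1.mul A1).sub ((Act0.nat d).mul A2)).congr fun f => w1 _) x
    · exact kill0 p hA hS hK hc hL f2 f2' u2
        (((A2.mul A2).sub ((Act0.nat d).mul (A1.mul A3))).congr fun f => w2 _) x
    · exact kill0 p hA hS hK hc hL f3 f3' u3
        (((A1.mul A2).sub ((Act0.nat (d ^ 2)).mul A3)).congr fun f => w3 _) x
  · have A1 := Act1.of_map φ1 a1 q1
    have A2 := Act1.of_map φ2 a2 q2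
    have A3 := Act1.of_map φ3 a3 q3
    refine ⟨fun x => ?_, fun x => ?_, fun x => ?_⟩
    · exact kill1 p hA hS hK hc hL f1 f1' u1
        (((A1.mul A1).sub ((Act1.nat d).mul A2)).congr fun f => w1 _) x
    · exact kill1 p hA hS hK hc hL f2 f2' u2
        (((A2.mul A2).sub ((Act1.nat d).mul (A1.mul A3))).congr fun f => w2 _) x
    · exact kill1 p hA hS hK hc hL f3 f3' u3
        (((A1.mul A2).sub ((Act1.nat (d ^ 2)).mul A3)).congr fun f => w3 _) x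

end rel

end Pool.Agent.H520.CG3
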