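import Pool.Agent.H520.CG3.Adl

/-!
# Equivariance of the faces (helper520, MP_34be05_nt)
-/

open Matrix NumberField IsDedekindDomain Q4.GLC

namespace Pool.Agent.H520.CG3

open Classical in
/-- the sign function of an order -/
noncomputable def sgE (a b : E) : ℤ :=
  if WellOrderingRel a b then 1 else if WellOrderingRel b a then -1 else 0

theorem sgE_sg : Sg sgE where
  sq a b hab := by
    unfold sgE
    split_ifs with h1 h2
    · norm_num
    · norm_num
    · rcases trichotomous_of WellOrderingRel a b with h | h | h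
      · exact absurd h h1
      · exact absurd h hab
      · exact absurd h h2
  anti a b := by
    unfold sgE
    by_cases h1 : WellOrderingRel a b
    · have h2 : ¬ WellOrderingRel b a := fun h => asymm_of WellOrderingRel h1 h
      rw [if_neg h2, if_pos h1, if_pos h1]
    · by_cases h2 : WellOrderingRel b a
      · rw [if_pos h2, if_neg h1, if_pos h2]; norm_num
      · rw [if_neg h2, if_neg h1, if_neg h1, if_neg h2]; norm_num

/-- the action of the rational points on the matrices -/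
noncomputable def Aq (γ : GQ ℚ 3) : E → E := act (iR γ).1

theorem Aq_mul (γ δ : GQ ℚ 3) : Aq (γ * δ) = Aq γ ∘ Aq δ := by
  funext X
  rw [Function.comp_apply, Aq, Aq, Aq, act_act, map_mul, Units.val_mul]

theorem Aq_one : Aq 1 = id := by
  funext X
  rw [Aq, map_one, Units.val_one, act_one]; rfl

theorem Aq_inj (γ : GQ ℚ 3) : Function.Injective (Aq γ) := act_inj _

theorem im_mul (γ δ : GQ ℚ 3) (σ : Finset E) :
    σ.image (Aq (γ * δ)) = (σ.image (Aq δ)).image (Aq γ) := by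
  rw [Aq_mul, Finset.image_image]

theorem im_one (σ : Finset E) : σ.image (Aq 1) = σ := by
  rw [Aq_one, Finset.image_id]

theorem im_inv (γ : GQ ℚ 3) (σ : Finset E) : (σ.image (Aq γ⁻¹)).image (Aq γ) = σ := by
  rw [← im_mul, mul_inv_cancel, im_one]

theorem im_inv' (γ : GQ ℚ 3) (σ : Finset E) : (σ.image (Aq γ)).image (Aq γ⁻¹) = σ := by
  rw [← im_mul, inv_mul_cancel, im_one]

theorem top_mul (g h : GR) : top (g * h) = (top h).image (act g.1) := by
  ext X
  rw [mem_top, Finset.mem_image]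
  have e : ∀ i, xi (g * h) i = act g.1 (xi h i) := by
    intro i
    rw [xi, xi, act_sqv, mulVec_mulVec, Units.val_mul]
  constructor
  · rintro ⟨i, rfl⟩
    exact ⟨xi h i, mem_top.2 ⟨i, rfl⟩, (e i).symm⟩
  · rintro ⟨Y, hY, rfl⟩
    obtain ⟨i, rfl⟩ := mem_top.1 hY
    exact ⟨i, e i⟩

theorem Spn.image {σ : Finset E} (h : Spn σ) (g : GR) : Spn (σ.image (act g.1)) := by
  intro u hu
  have h1 := h (g.1ᵀ *ᵥ u) fun X hX => by
    have := hu _ (Finset.mem_image_of_mem (act g.1) hX)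
    rwa [act_form] at this
  have h2 : (g⁻¹.1)ᵀ *ᵥ (g.1ᵀ *ᵥ u) = u := by
    rw [mulVec_mulVec, ← transpose_mul, mul_inv_val, transpose_one, one_mulVec]
  rw [← h2, h1, mulVec_zero]

/-- a face of dimension `m` at the point `x` -/
def IsF (g0 : Gf ℚ 3) (m : ℕ) (σ : Finset E) (x : Gf ℚ 3) : Prop :=
  FB (Bx g0 x) σ ∧ σ.card = m

theorem FB_left {g0 x : Gf ℚ 3} {σ : Finset E} (γ : GQ ℚ 3) (h : FB (Bx g0 x) σ) :
    FB (Bx g0 (dg ℚ 3 γ * x)) (σ.image (Aq γ)) := by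
  obtain ⟨⟨k, hk, h1⟩, h2⟩ := h
  refine ⟨⟨iR γ * k, (Bx_left g0 x γ k).1 hk, ?_⟩, h2.image _⟩
  rw [top_mul]
  exact Finset.image_subset_image h1

theorem FB_iff {g0 x : Gf ℚ 3} {σ : Finset E} (γ : GQ ℚ 3) :
    FB (Bx g0 (dg ℚ 3 γ * x)) (σ.image (Aq γ)) ↔ FB (Bx g0 x) σ := by
  refine ⟨fun h => ?_, FB_left γ⟩
  have h1 := FB_left γ⁻¹ h
  rw [im_inv', map_inv, inv_mul_cancel_left] at h1
  exact h1

theorem IsF_left {g0 x : Gf ℚ 3} {m : ℕ} {σ : Finset E} (γ : GQ ℚ 3) :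
    IsF g0 m (σ.image (Aq γ)) (dg ℚ 3 γ * x) ↔ IsF g0 m σ x := by
  rw [IsF, IsF, FB_iff, Finset.card_image_of_injective _ (Aq_inj γ)]

theorem IsF_inv {g0 x : Gf ℚ 3} {m : ℕ} {σ : Finset E} (γ : GQ ℚ 3) :
    IsF g0 m (σ.image (Aq γ⁻¹)) ((dg ℚ 3 γ)⁻¹ * x) ↔ IsF g0 m σ x := by
  rw [← map_inv]
  exact IsF_left γ⁻¹

theorem Cf_left {g0 x : Gf ℚ 3} {σ : Finset E} (γ : GQ ℚ 3) (h : FB (Bx g0 x) σ) :
    Cf (FB (Bx g0 (dg ℚ 3 γ * x))) (σ.image (Aq γ)) = (Cf (FB (Bx g0 x)) σ).image (Aq γ) := by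
  ext X
  have e : ∀ Y, insert (Aq γ Y) (σ.image (Aq γ)) = (insert Y σ).image (Aq γ) := fun Y =>
    (Finset.image_insert _ _ _).symm
  constructor
  · intro h0
    obtain ⟨h1, h2⟩ := (mem_Cf (latB _ _) (FB_left γ h)).1 h0
    have hX : Aq γ (Aq γ⁻¹ X) = X := by
      have : (Aq γ ∘ Aq γ⁻¹) X = X := by rw [← Aq_mul, mul_inv_cancel, Aq_one]; rfl
      exact this
    refine Finset.mem_image.2 ⟨Aq γ⁻¹ X, ?_, hX⟩
    rw [mem_Cf (latB _ _) h]
    refine ⟨fun h3 => h1 ?_, ?_⟩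
    · rw [← hX]; exact Finset.mem_image_of_mem _ h3
    · rw [← FB_iff γ, ← e, hX]
      exact h2
  · intro h0
    obtain ⟨Y, hY, rfl⟩ := Finset.mem_image.1 h0
    rw [mem_Cf (latB _ _) h] at hY
    refine (mem_Cf (latB _ _) (FB_left γ h)).2 ⟨fun h3 => hY.1 ?_, ?_⟩
    · obtain ⟨Z, hZ, e2⟩ := Finset.mem_image.1 h3
      rw [← Aq_inj γ e2]; exact hZ
    · rw [e, FB_iff]
      exact hY.2

/-- equivariance of the differential -/
theorem dE_left {W : Type} [AddCommGroup W] {g0 x : Gf ℚ 3} {σ : Finset E} (γ : GQ ℚ 3)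
    (h : FB (Bx g0 x) σ) (φ : Finset E → W) :
    dE (FB (Bx g0 (dg ℚ 3 γ * x))) sgE (fun τ => eps sgE (Aq γ) (τ.image (Aq γ⁻¹)) •
      φ (τ.image (Aq γ⁻¹))) (σ.image (Aq γ)) =
      eps sgE (Aq γ) σ • dE (FB (Bx g0 x)) sgE φ σ := by
  rw [dE, Cf_left γ h, Finset.sum_image fun a _ b _ e => Aq_inj γ e, dE, Finset.smul_sum]
  refine Finset.sum_congr rfl fun y hy => ?_
  rw [mem_Cf (latB _ _) h] at hy
  have e : insert (Aq γ y) (σ.image (Aq γ)) = (insert y σ).image (Aq γ) :=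
    (Finset.image_insert _ _ _).symm
  rw [e, im_inv', eps_insert sgE_sg (Aq_inj γ) hy.1, ← mul_smul, ← mul_smul]
  congr 1
  have h2 : Aq γ y ∉ σ.image (Aq γ) := by
    intro h3
    obtain ⟨Z, hZ, e2⟩ := Finset.mem_image.1 h3
    exact hy.1 (Aq_inj γ e2 ▸ hZ)
  have h1 := s0_sq sgE_sg h2
  calc _ = (s0 sgE (Aq γ y) (σ.image (Aq γ)) * s0 sgE (Aq γ y) (σ.image (Aq γ))) *
      (eps sgE (Aq γ) σ * s0 sgE y σ) := by ring
    _ = _ := by rw [h1, one_mul]

theorem sqv_eq {v w : Fin 3 → ℝ} (h : sqv v = sqv w) : v = w ∨ v = -w := by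
  have h1 : ∀ i j, v i * v j = w i * w j := fun i j => by
    have := congrFun (congrFun h i) j
    exact this
  by_cases hw : w = 0
  · left
    funext i
    have := h1 i i
    rw [hw] at this ⊢
    simpa using this
  · obtain ⟨i, hi⟩ : ∃ i, w i ≠ 0 := by
      by_contra h2
      push Not at h2
      exact hw (funext h2)
    have h2 := h1 i i
    rcases mul_self_eq_mul_self_iff.1 h2 with h3 | h3
    · left
      funext j
      have h4 := h1 i j
      rw [h3] at h4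
      exact mul_left_cancel₀ hi h4
    · right
      funext j
      have h4 := h1 i j
      rw [h3] at h4
      rw [Pi.neg_apply]
      have h5 : w i * (v j + w j) = 0 := by linarith
      rcases mul_eq_zero.1 h5 with h6 | h6
      · exact absurd h6 hi
      · linarith

/-- the stabiliser of a face is finite -/
theorem fin_order {g : GR} {σ : Finset E} (hs : Spn σ) (hv : ∀ X ∈ σ, ∃ v, X = sqv v)
    (hg : σ.image (act g.1) = σ) : ∃ n : ℕ, 1 ≤ n ∧ g ^ n = 1 := by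
  classical
  have hmem : ∀ X : σ, act g.1 X.1 ∈ σ := fun X => by
    have := Finset.mem_image_of_mem (act g.1) X.2
    rw [hg] at this
    exact this
  let p : σ → σ := fun X => ⟨act g.1 X.1, hmem X⟩
  have hpi : Function.Injective p := by
    intro X Y e
    exact Subtype.ext (act_inj g (congrArg Subtype.val e))
  let π : Equiv.Perm σ := Equiv.ofBijective p (Finite.injective_iff_bijective.1 hpi)
  have hπ : ∀ (n : ℕ) (X : σ), ((π ^ n) X).1 = act (g ^ n).1 X.1 := by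
    intro n
    induction n with
    | zero => intro X; simp [act_one]
    | succ n ih =>
      intro X
      rw [pow_succ', Equiv.Perm.mul_apply]
      change act g.1 ((π ^ n) X).1 = _
      rw [ih, act_act, pow_succ', Units.val_mul]
  obtain ⟨n, hn, hn1⟩ := isOfFinOrder_iff_pow_eq_one.1 (isOfFinOrder_of_finite π)
  refine ⟨n + n, by omega, ?_⟩
  have hfix : ∀ X ∈ σ, act (g ^ n).1 X = X := by
    intro X hX
    rw [← hπ n ⟨X, hX⟩, hn1]
    rfl
  have hker : ∀ X ∈ σ, ∀ v, X = sqv v → (g ^ (n + n)).1 *ᵥ v = v := by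
    intro X hX v e
    have h1 := hfix X hX
    rw [e, act_sqv] at h1
    rw [pow_add, Units.val_mul, ← mulVec_mulVec]
    rcases sqv_eq h1 with h2 | h2
    · rw [h2, h2]
    · rw [h2, mulVec_neg, h2, neg_neg]
  refine Units.ext (Matrix.ext fun i j => ?_)
  have h0 : ∀ i, (fun j => (g ^ (n + n)).1 i j - (1 : E) i j) = 0 := by
    intro i
    refine hs _ fun X hX => ?_
    obtain ⟨v, hv⟩ := hv X hX
    rw [hv, sqv_form]
    have h1 := hker X hX v hv
    have h2 : v ⬝ᵥ (fun j => (g ^ (n + n)).1 i j - (1 : E) i j) = 0 := by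
      have h3 : v ⬝ᵥ (fun j => (g ^ (n + n)).1 i j - (1 : E) i j) =
          ((g ^ (n + n)).1 *ᵥ v) i - ((1 : E) *ᵥ v) i := by
        rw [mulVec, mulVec, ← sub_dotProduct, dotProduct_comm]
        rfl
      rw [h3, h1, one_mulVec, sub_self]
    rw [h2]; norm_num
  have := congrFun (h0 i) j
  simp only [Pi.zero_apply] at this
  rw [Units.val_one]
  linarith

/-- the only elements of finite order in `Γ` which are conjugate to elements of `K` are trivial -/
def TorFree (Γ : Subgroup (GQ ℚ 3)) (K : Subgroup (Gf ℚ 3)) : Prop :=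
  ∀ γ ∈ Γ, ∀ (x : Gf ℚ 3) (n : ℕ), 1 ≤ n → γ ^ n = 1 → x⁻¹ * dg ℚ 3 γ * x ∈ K → γ = 1

theorem free {Γ : Subgroup (GQ ℚ 3)} {K : Subgroup (Gf ℚ 3)} (hT : TorFree Γ K) {g0 x : Gf ℚ 3}
    {σ : Finset E} (hσ : FB (Bx g0 x) σ) {γ : GQ ℚ 3} (hγ : γ ∈ Γ) (h1 : σ.image (Aq γ) = σ)
    {κ : Gf ℚ 3} (hκ : κ ∈ K) (h2 : dg ℚ 3 γ * x = x * κ) : γ = 1 := by
  obtain ⟨⟨k, hk, h3⟩, h4⟩ := hσ
  obtain ⟨n, hn, hn1⟩ := fin_order (g := iR γ) h4 (fun X hX => by
    obtain ⟨i, rfl⟩ := mem_top.1 (h3 hX)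
    exact ⟨_, rfl⟩) h1
  refine hT γ hγ x n hn (iR_inj (by rw [map_pow, hn1, map_one])) ?_
  rw [mul_assoc, h2, inv_mul_cancel_left]
  exact hκ

end Pool.Agent.H520.CG3
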