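import Mathlib

/-!
# Acyclicity of the complex of a family of faces with a height function (helper520, MP_34be05_nt)
-/

namespace Pool.Agent.H520.CG3

open Finset

set_option linter.unusedSectionVars false

variable {E W : Type} [DecidableEq E] [AddCommGroup W]

/-- a sign function on pairs -/
structure Sg (sg : E → E → ℤ) : Prop where
  sq : ∀ a b, a ≠ b → sg a b * sg a b = 1
  anti : ∀ a b, sg b a = - sg a b

/-- the sign of adding a vertex -/
def s0 (sg : E → E → ℤ) (y : E) (σ : Finset E) : ℤ := ∏ z ∈ σ, sg y z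

theorem s0_sq {sg : E → E → ℤ} (h : Sg sg) {y : E} {σ : Finset E} (hy : y ∉ σ) :
    s0 sg y σ * s0 sg y σ = 1 := by
  rw [s0, ← Finset.prod_mul_distrib]
  refine Finset.prod_eq_one fun z hz => h.sq _ _ ?_
  rintro rfl
  exact hy hz

theorem s0_insert {sg : E → E → ℤ} {y z : E} {σ : Finset E} (hz : z ∉ σ) :
    s0 sg y (insert z σ) = sg y z * s0 sg y σ := by
  rw [s0, Finset.prod_insert hz]; rfl

/-- the two ways of adding two vertices have opposite signs -/
theorem s0_swap {sg : E → E → ℤ} (h : Sg sg) {y z : E} {σ : Finset E} (hy : y ∉ σ) (hz : z ∉ σ) :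
    s0 sg y σ * s0 sg z (insert y σ) = - (s0 sg z σ * s0 sg y (insert z σ)) := by
  rw [s0_insert hy, s0_insert hz, h.anti y z]
  ring

/-- the vertices which can be added to a face -/
def Cs (Face : Finset E → Prop) (σ : Finset E) : Set E := {y | y ∉ σ ∧ Face (insert y σ)}

open Classical in
/-- the vertices which can be added to a face -/
noncomputable def Cf (Face : Finset E → Prop) (σ : Finset E) : Finset E :=
  if h : (Cs Face σ).Finite then h.toFinset else ∅

/-- the differential -/
noncomputable def dE (Face : Finset E → Prop) (sg : E → E → ℤ) (φ : Finset E → W)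
    (σ : Finset E) : W := ∑ y ∈ Cf Face σ, s0 sg y σ • φ (insert y σ)

/-- the properties of the faces and of the height function -/
structure Mor (Face : Finset E → Prop) (M : Finset E → Finset E) (N : Finset E → ℕ)
    (a : Finset E → E) : Prop where
  fin : ∀ σ, Face σ → (Cs Face σ).Finite
  mid : ∀ ρ τ τ', Face ρ → ρ ⊆ τ → τ ⊆ τ' → Face τ' → Face τ
  sub : ∀ σ, Face σ → σ ⊆ M σ
  faceM : ∀ σ, Face σ → Face (M σ)
  const : ∀ σ τ, Face σ → σ ⊆ τ → τ ⊆ M σ → M τ = M σ
  low : ∀ σ y, Face σ → y ∉ M σ → Face (insert y σ) → N (M (insert y σ)) < N (M σ)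
  card : ∀ σ, Face σ → (M σ).card = 6
  crit : ∀ S, (∀ σ, Face σ → M σ = S → σ = S) ∨
    ∀ σ, Face σ → M σ = S → a S ∈ S ∧ Face (σ.erase (a S)) ∧ M (σ.erase (a S)) = S
  uniq : ∀ S S', Face S → M S = S → (∀ σ, Face σ → M σ = S → σ = S) →
    Face S' → M S' = S' → (∀ σ, Face σ → M σ = S' → σ = S') → S = S'

variable {Face : Finset E → Prop} {M : Finset E → Finset E} {N : Finset E → ℕ}
  {a : Finset E → E} {sg : E → E → ℤ}

theorem Mor.mem_Cf (h : Mor Face M N a) {σ : Finset E} (hσ : Face σ) {y : E} :
    y ∈ Cf Face σ ↔ y ∉ σ ∧ Face (insert y σ) := by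
  rw [Cf, dif_pos (h.fin σ hσ), Set.Finite.mem_toFinset]
  exact Iff.rfl

/-- the square of the differential is zero -/
theorem Mor.dd (h : Mor Face M N a) (hs : Sg sg) (φ : Finset E → W) {ρ : Finset E}
    (hρ : Face ρ) : dE Face sg (dE Face sg φ) ρ = 0 := by
  have h1 : dE Face sg (dE Face sg φ) ρ = ∑ p ∈ (Cf Face ρ).sigma fun y => Cf Face (insert y ρ),
      (s0 sg p.1 ρ * s0 sg p.2 (insert p.1 ρ)) • φ (insert p.2 (insert p.1 ρ)) := by
    rw [Finset.sum_sigma, dE]
    refine Finset.sum_congr rfl fun y _ => ?_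
    rw [dE, Finset.smul_sum]
    refine Finset.sum_congr rfl fun z _ => ?_
    rw [mul_smul]
  rw [h1]
  have hmem : ∀ p : (_ : E) × E, p ∈ ((Cf Face ρ).sigma fun y => Cf Face (insert y ρ)) →
      p.1 ∉ ρ ∧ p.2 ∉ ρ ∧ p.1 ≠ p.2 ∧ Face (insert p.2 (insert p.1 ρ)) := by
    rintro ⟨y, z⟩ hp
    rw [Finset.mem_sigma] at hp
    obtain ⟨h2, h3⟩ := hp
    rw [h.mem_Cf hρ] at h2
    rw [h.mem_Cf h2.2] at h3
    simp only at h2 h3 ⊢
    refine ⟨h2.1, fun hz => h3.1 (Finset.mem_insert_of_mem hz), ?_, h3.2⟩
    rintro rfl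
    exact h3.1 (Finset.mem_insert_self _ _)
  refine Finset.sum_involution (fun p _ => ⟨p.2, p.1⟩) ?_ ?_ ?_ ?_
  · rintro ⟨y, z⟩ hp
    obtain ⟨h2, h3, -, -⟩ := hmem _ hp
    simp only at h2 h3 ⊢
    rw [s0_swap hs h2 h3, Finset.insert_comm z y, neg_smul, neg_add_cancel]
  · rintro ⟨y, z⟩ hp - e
    obtain ⟨-, -, h4, -⟩ := hmem _ hp
    simp only [Sigma.mk.injEq] at e
    exact h4 e.1.symm
  · rintro ⟨y, z⟩ hp
    obtain ⟨h2, h3, h4, h5⟩ := hmem _ hp
    simp only at h2 h3 h4 h5 ⊢
    have h6 : Face (insert z ρ) := h.mid ρ _ _ hρ (Finset.subset_insert _ _)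
      (Finset.insert_subset_insert _ (Finset.subset_insert _ _)) h5
    rw [Finset.mem_sigma]
    refine ⟨(h.mem_Cf hρ).2 ⟨h3, h6⟩, (h.mem_Cf h6).2 ⟨?_, ?_⟩⟩
    · rw [Finset.mem_insert]
      rintro (h7 | h7)
      · exact h4 h7
      · exact h2 h7
    · rw [Finset.insert_comm]
      exact h5
  · rintro ⟨y, z⟩ _
    rfl

theorem Mor.MM (h : Mor Face M N a) {σ : Finset E} (hσ : Face σ) : M (M σ) = M σ :=
  h.const σ _ hσ (h.sub σ hσ) (Finset.Subset.refl _)

/-- the recursive solution -/
noncomputable def solve (Face : Finset E → Prop) (M : Finset E → Finset E) (N : Finset E → ℕ)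
    (a : Finset E → E) (sg : E → E → ℤ) (ψ : Finset E → W) : Finset E → W :=
  WellFounded.fix (measure (fun τ => N (M τ))).wf fun τ rec =>
    if a (M τ) ∈ τ then
      s0 sg (a (M τ)) (τ.erase (a (M τ))) •
        (ψ (τ.erase (a (M τ))) - ∑ y ∈ Cf Face (τ.erase (a (M τ))),
          if hy : N (M (insert y (τ.erase (a (M τ))))) < N (M τ) then
            s0 sg y (τ.erase (a (M τ))) • rec (insert y (τ.erase (a (M τ)))) hy
          else 0)
    else 0

theorem solve_eq (ψ : Finset E → W) (τ : Finset E) :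
    solve Face M N a sg ψ τ = if a (M τ) ∈ τ then
      s0 sg (a (M τ)) (τ.erase (a (M τ))) •
        (ψ (τ.erase (a (M τ))) - ∑ y ∈ Cf Face (τ.erase (a (M τ))),
          if N (M (insert y (τ.erase (a (M τ))))) < N (M τ) then
            s0 sg y (τ.erase (a (M τ))) •
              solve Face M N a sg ψ (insert y (τ.erase (a (M τ))))
          else 0)
    else 0 := by
  rw [solve, WellFounded.fix_eq]
  congr

/-- the equation at the faces without the distinguished vertex -/
theorem Mor.solve_one (h : Mor Face M N a) (hs : Sg sg) (ψ : Finset E → W) {σ : Finset E}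
    (hσ : Face σ) (ha : a (M σ) ∉ σ) (ha' : a (M σ) ∈ M σ) :
    dE Face sg (solve Face M N a sg ψ) σ = ψ σ := by
  set S := M σ with hS
  have hins : insert (a S) σ ⊆ S := Finset.insert_subset ha' (h.sub σ hσ)
  have hf : Face (insert (a S) σ) := h.mid σ _ _ hσ (Finset.subset_insert _ _) hins (h.faceM σ hσ)
  have hM : M (insert (a S) σ) = S := h.const σ _ hσ (Finset.subset_insert _ _) hins
  have hmem : a S ∈ Cf Face σ := (h.mem_Cf hσ).2 ⟨ha, hf⟩
  have he : (insert (a S) σ).erase (a S) = σ := Finset.erase_insert ha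
  have h1 := solve_eq (Face := Face) (M := M) (N := N) (a := a) (sg := sg) ψ (insert (a S) σ)
  rw [hM, if_pos (Finset.mem_insert_self _ _), he] at h1
  rw [dE, ← Finset.add_sum_erase _ _ hmem, h1, ← mul_smul, s0_sq hs ha, one_smul]
  rw [← Finset.add_sum_erase _ _ hmem, hM, if_neg (lt_irrefl _), zero_add]
  have h2 : ∑ x ∈ (Cf Face σ).erase (a S), (if N (M (insert x σ)) < N S then
      s0 sg x σ • solve Face M N a sg ψ (insert x σ) else 0) =
      ∑ x ∈ (Cf Face σ).erase (a S), s0 sg x σ • solve Face M N a sg ψ (insert x σ) := by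
    refine Finset.sum_congr rfl fun y hy => ?_
    obtain ⟨hya, hy⟩ := Finset.mem_erase.1 hy
    rw [h.mem_Cf hσ] at hy
    by_cases hyS : y ∈ S
    · have h3 : M (insert y σ) = S := h.const σ _ hσ (Finset.subset_insert _ _)
        (Finset.insert_subset hyS (h.sub σ hσ))
      rw [h3, if_neg (lt_irrefl _), solve_eq, h3, if_neg, smul_zero]
      rw [Finset.mem_insert]
      rintro (h4 | h4)
      · exact hya h4.symm
      · exact ha h4
    · rw [if_pos (h.low σ y hσ hyS hy.2)]
  rw [h2, sub_add_cancel]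

/-- exactness below the top degree -/
theorem Mor.exact (h : Mor Face M N a) (hs : Sg sg) (m : ℕ) (hm : m + 1 < 6) (ψ : Finset E → W)
    (hψ : ∀ ρ, Face ρ → ρ.card = m → dE Face sg ψ ρ = 0) :
    ∃ φ : Finset E → W, ∀ σ, Face σ → σ.card = m + 1 → dE Face sg φ σ = ψ σ := by
  refine ⟨solve Face M N a sg ψ, ?_⟩
  set φ := solve Face M N a sg ψ with hφ
  have key : ∀ n : ℕ, ∀ σ, Face σ → σ.card = m + 1 → N (M σ) = n → dE Face sg φ σ = ψ σ := by
    intro n
    induction n using Nat.strong_induction_on with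
    | _ n ih =>
    intro σ hσ hc hn
    rcases h.crit (M σ) with h1 | h1
    · have h2 := h1 σ hσ rfl
      have h3 := h.card σ hσ
      rw [← h2] at h3
      omega
    · obtain ⟨ha', he, hM⟩ := h1 σ hσ rfl
      by_cases ha : a (M σ) ∈ σ
      · set S := M σ with hS
        set ρ := σ.erase (a S) with hρ
        have hρc : ρ.card = m := by
          rw [hρ, Finset.card_erase_of_mem ha, hc]; rfl
        have haρ : a S ∉ ρ := Finset.notMem_erase _ _
        have hins : insert (a S) ρ = σ := Finset.insert_erase ha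
        have h2 : dE Face sg (fun τ => dE Face sg φ τ - ψ τ) ρ = 0 := by
          have h3 := h.dd hs φ he
          have h4 := hψ ρ he hρc
          have h5 : dE Face sg (fun τ => dE Face sg φ τ - ψ τ) ρ =
              dE Face sg (dE Face sg φ) ρ - dE Face sg ψ ρ := by
            simp only [dE, smul_sub, Finset.sum_sub_distrib]
          rw [h5, h3, h4, sub_zero]
        have hmem : a S ∈ Cf Face ρ := (h.mem_Cf he).2 ⟨haρ, by rw [hins]; exact hσ⟩
        have h3 : dE Face sg (fun τ => dE Face sg φ τ - ψ τ) ρ =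
            s0 sg (a S) ρ • (dE Face sg φ σ - ψ σ) := by
          conv_lhs => rw [dE, ← Finset.add_sum_erase _ _ hmem]
          rw [hins]
          have h4 : ∑ y ∈ (Cf Face ρ).erase (a S), s0 sg y ρ •
              (dE Face sg φ (insert y ρ) - ψ (insert y ρ)) = 0 := by
            refine Finset.sum_eq_zero fun y hy => ?_
            obtain ⟨hya, hy⟩ := Finset.mem_erase.1 hy
            rw [h.mem_Cf he] at hy
            have hyc : (insert y ρ).card = m + 1 := by
              rw [Finset.card_insert_of_notMem hy.1, hρc]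
            have h5 : dE Face sg φ (insert y ρ) = ψ (insert y ρ) := by
              by_cases hyS : y ∈ S
              · have h6 : M (insert y ρ) = S := by
                  have := h.const ρ (insert y ρ) he (Finset.subset_insert _ _)
                    (by rw [hM]; exact Finset.insert_subset hyS (by rw [← hM]; exact h.sub ρ he))
                  rw [this, hM]
                refine h.solve_one hs ψ hy.2 ?_ ?_
                · rw [h6, Finset.mem_insert]
                  rintro (h7 | h7)
                  · exact hya h7.symm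
                  · exact haρ h7
                · rw [h6]; exact ha'
              · have h6 := h.low ρ y he (by rw [hM]; exact hyS) hy.2
                rw [hM, hn] at h6
                exact ih _ h6 _ hy.2 hyc rfl
            rw [h5, sub_self, smul_zero]
          rw [h4, add_zero]
        rw [h3] at h2
        have h4 := congrArg (fun w => s0 sg (a S) ρ • w) h2
        simp only [smul_zero] at h4
        rw [← mul_smul, s0_sq hs haρ, one_smul, sub_eq_zero] at h4
        exact h4
      · exact h.solve_one hs ψ hσ ha ha'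
  intro σ hσ hc
  exact key _ σ hσ hc rfl

/-- uniqueness in the top degree -/
theorem Mor.top_zero (h : Mor Face M N a) (hs : Sg sg) (ψ : Finset E → W)
    (hψ : ∀ ρ, Face ρ → ρ.card = 5 → dE Face sg ψ ρ = 0)
    (h0 : ∀ S, Face S → M S = S → (∀ σ, Face σ → M σ = S → σ = S) → ψ S = 0) :
    ∀ S, Face S → S.card = 6 → ψ S = 0 := by
  have key : ∀ n : ℕ, ∀ S, Face S → S.card = 6 → N (M S) = n → ψ S = 0 := by
    intro n
    induction n using Nat.strong_induction_on with
    | _ n ih =>
    intro S hS hc hn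
    have hMS : M S = S := (Finset.eq_of_subset_of_card_le (h.sub S hS) (by
      rw [h.card S hS, hc])).symm
    rcases h.crit S with h1 | h1
    · exact h0 S hS hMS h1
    · obtain ⟨ha', he, hM⟩ := h1 S hS hMS
      set ρ := S.erase (a S) with hρ
      have hρc : ρ.card = 5 := by
        rw [hρ, Finset.card_erase_of_mem ha', hc]
      have haρ : a S ∉ ρ := Finset.notMem_erase _ _
      have hins : insert (a S) ρ = S := Finset.insert_erase ha'
      have hmem : a S ∈ Cf Face ρ := (h.mem_Cf he).2 ⟨haρ, by rw [hins]; exact hS⟩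
      have h2 := hψ ρ he hρc
      rw [dE, ← Finset.add_sum_erase _ _ hmem, hins] at h2
      have h4 : ∑ y ∈ (Cf Face ρ).erase (a S), s0 sg y ρ • ψ (insert y ρ) = 0 := by
        refine Finset.sum_eq_zero fun y hy => ?_
        obtain ⟨hya, hy⟩ := Finset.mem_erase.1 hy
        rw [h.mem_Cf he] at hy
        have hyc : (insert y ρ).card = 6 := by
          rw [Finset.card_insert_of_notMem hy.1, hρc]
        have hyS : y ∉ S := by
          intro hyS
          rw [← hins, Finset.mem_insert] at hyS
          rcases hyS with h5 | h5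
          · exact hya h5
          · exact hy.1 h5
        have h6 := h.low ρ y he (by rw [hM]; exact hyS) hy.2
        rw [hM] at h6
        rw [hMS] at hn
        rw [hn] at h6
        rw [ih _ h6 _ hy.2 hyc rfl, smul_zero]
      rw [h4, add_zero] at h2
      have h5 := congrArg (fun w => s0 sg (a S) ρ • w) h2
      simp only [smul_zero] at h5
      rwa [← mul_smul, s0_sq hs haρ, one_smul] at h5
  intro S hS hc
  exact key _ S hS hc rfl

end Pool.Agent.H520.CG3
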