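import Pool.Agent.H520.CG3.Fnt
import Pool.Agent.H520.CG3.Mor

/-!
# The faces of the perfect cones of a lattice (helper520, MP_34be05_nt)
-/

open Matrix

namespace Pool.Agent.H520.CG3

/-- the faces which meet the open cone of the positive definite matrices -/
def FB (B : Set GR) (σ : Finset E) : Prop := (∃ h ∈ B, σ ⊆ top h) ∧ Spn σ

theorem lamh_congr {h h' : GR} (e : top h = top h') {f : E} (hf : fᵀ = f) :
    lamh h' f = lamh h f := by
  rw [lamh_decomp h h' hf, lamh_self h hf]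
  refine Finset.sum_congr rfl fun i _ => ?_
  rw [lamh_top (by rw [← e]; exact mem_top.2 ⟨i, rfl⟩), mul_one]

theorem cfh_congr {h h' : GR} (e : top h = top h') {f : E} (hf : fᵀ = f) {i j : Fin 6}
    (hij : xi h i = xi h' j) : cfh h' j f = cfh h i f := by
  conv_lhs => rw [decomph h hf]
  rw [cfh_sum]
  have h1 : ∀ l, cfh h' j (cfh h l f • xi h l) = if i = l then cfh h l f else 0 := by
    intro l
    rw [cfh_smul]
    have h2 : xi h l ∈ top h' := by rw [← e]; exact mem_top.2 ⟨l, rfl⟩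
    obtain ⟨l', hl'⟩ := mem_top.1 h2
    rw [← hl', cfh_xi]
    by_cases hil : i = l
    · subst hil
      rw [hij] at hl'
      have := xi_inj h' hl'
      rw [if_pos this.symm, if_pos rfl, mul_one]
    · rw [if_neg hil, if_neg, mul_zero]
      rintro rfl
      rw [← hij] at hl'
      exact hil (xi_inj h hl')
  simp only [h1]
  simp

theorem dsc_congr {h h' : GR} (e : top h = top h') {f : E} (hf : fᵀ = f) {X : E}
    (hX : X ∈ Dsc f h) : X ∈ Dsc f h' := by
  obtain ⟨i, rfl, hi⟩ := hX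
  have h1 : xi h i ∈ top h' := by rw [← e]; exact mem_top.2 ⟨i, rfl⟩
  obtain ⟨j, hj⟩ := mem_top.1 h1
  exact ⟨j, hj, by rw [cfh_congr e hf hj.symm]; exact hi⟩

theorem sum_pd {σ : Finset E} {h : GR} (h1 : σ ⊆ top h) (h2 : Spn σ) : Pd (∑ X ∈ σ, X) := by
  refine ⟨?_, fun u hu => ?_⟩
  · rw [Matrix.transpose_sum]
    refine Finset.sum_congr rfl fun X hX => ?_
    obtain ⟨i, rfl⟩ := mem_top.1 (h1 hX)
    exact xi_symm h i
  · rw [Matrix.sum_mulVec, dotProduct_sum]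
    have h3 : ∀ X ∈ σ, 0 ≤ u ⬝ᵥ (X *ᵥ u) := by
      intro X hX
      obtain ⟨i, rfl⟩ := mem_top.1 (h1 hX)
      rw [xi, sqv_form]
      exact sq_nonneg _
    obtain ⟨X, hX, hX0⟩ : ∃ X ∈ σ, u ⬝ᵥ (X *ᵥ u) ≠ 0 := by
      by_contra h4
      push Not at h4
      exact hu (h2 u h4)
    exact Finset.sum_pos' h3 ⟨X, hX, lt_of_le_of_ne (h3 X hX) (Ne.symm hX0)⟩

theorem star_finite {B : Set GR} (hB : LatB B) {σ : Finset E} (hσ : FB B σ) :
    {S : Finset E | ∃ h ∈ B, top h = S ∧ σ ⊆ S}.Finite := by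
  obtain ⟨⟨h0, hh0, h1⟩, h2⟩ := hσ
  refine (finite_top hB (sum_pd h1 h2) σ.card).subset ?_
  rintro S ⟨h, hh, rfl, h3⟩
  refine ⟨h, hh, rfl, ?_⟩
  rw [lamh_sum, Finset.sum_congr rfl fun X hX => lamh_top (h3 hX)]
  simp

/-- a highest cone over a face -/
def IsMax' (B : Set GR) (f : E) (σ : Finset E) (h : GR) : Prop :=
  h ∈ B ∧ σ ⊆ top h ∧ ∀ h' ∈ B, σ ⊆ top h' → lamh h' f ≤ lamh h f

theorem exists_max {B : Set GR} (hB : LatB B) {f : E} (hf : Pd f) {σ : Finset E}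
    (hσ : FB B σ) : ∃ h, IsMax' B f σ h := by
  classical
  have hfin := star_finite hB hσ
  let ht : Finset E → ℝ := fun S => if hS : ∃ h ∈ B, top h = S then lamh hS.choose f else 0
  have hht : ∀ h ∈ B, ht (top h) = lamh h f := by
    intro h hh
    have hS : ∃ h' ∈ B, top h' = top h := ⟨h, hh, rfl⟩
    simp only [ht, dif_pos hS]
    exact lamh_congr hS.choose_spec.2.symm hf.1
  have hne : {S : Finset E | ∃ h ∈ B, top h = S ∧ σ ⊆ S}.Nonempty := by
    obtain ⟨⟨h0, hh0, h1⟩, -⟩ := hσ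
    exact ⟨top h0, h0, hh0, rfl, h1⟩
  obtain ⟨S, ⟨h, hh, rfl, hS⟩, hmax⟩ := Set.exists_max_image _ ht hfin hne
  refine ⟨h, hh, hS, fun h' hh' h1 => ?_⟩
  have h2 := hmax (top h') ⟨h', hh', rfl, h1⟩
  rwa [hht h hh, hht h' hh'] at h2

theorem max_dsc {B : Set GR} (hB : LatB B) {f : E} (hf : Pd f) (hG : Gen B f) {σ : Finset E}
    {h : GR} (hm : IsMax' B f σ h) : ∀ X ∈ top h, X ∉ σ → X ∈ Dsc f h :=
  dsc_of_max hB hf.1 hG hm.1 hm.2.2 hm.2.1

theorem dsc_max {B : Set GR} (hB : LatB B) {f : E} (hf : Pd f) {σ : Finset E}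
    {h : GR} (hh : h ∈ B) (hσ : σ ⊆ top h) (hd : ∀ X ∈ top h, X ∉ σ → X ∈ Dsc f h) :
    IsMax' B f σ h := by
  refine ⟨hh, hσ, fun h' hh' h1 => ?_⟩
  by_cases e : top h' = top h
  · exact (lamh_congr e.symm hf.1).le
  · exact (lt_of_dsc hB hf.1 hh hh' h1 hd e).le

theorem max_uniq {B : Set GR} (hB : LatB B) {f : E} (hf : Pd f) (hG : Gen B f) {σ : Finset E}
    {h h' : GR} (hm : IsMax' B f σ h) (hm' : IsMax' B f σ h') : top h' = top h := by
  by_contra e
  have h1 := lt_of_dsc hB hf.1 hm.1 hm'.1 hm'.2.1 (max_dsc hB hf hG hm) e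
  have h2 := hm'.2.2 h hm.1 hm.2.1
  linarith

open Classical in
/-- the highest cone over a face -/
noncomputable def MB (B : Set GR) (f : E) (σ : Finset E) : Finset E :=
  if h : ∃ h, IsMax' B f σ h then top h.choose else ∅

theorem MB_eq {B : Set GR} (hB : LatB B) {f : E} (hf : Pd f) (hG : Gen B f) {σ : Finset E}
    {h : GR} (hm : IsMax' B f σ h) : MB B f σ = top h := by
  have h1 : ∃ h, IsMax' B f σ h := ⟨h, hm⟩
  rw [MB, dif_pos h1]
  exact max_uniq hB hf hG hm h1.choose_spec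

/-- the number of the lower cones -/
noncomputable def NB (B : Set GR) (f : E) (S : Finset E) : ℕ :=
  Set.ncard {S' : Finset E | ∃ h' ∈ B, top h' = S' ∧ ∃ h ∈ B, top h = S ∧ lamh h' f < lamh h f}

theorem NB_lt {B : Set GR} (hB : LatB B) {f : E} (hf : Pd f) {h h' : GR} (hh : h ∈ B)
    (hh' : h' ∈ B) (hl : lamh h' f < lamh h f) : NB B f (top h') < NB B f (top h) := by
  refine Set.ncard_lt_ncard ⟨?_, ?_⟩ ?_
  · rintro S ⟨h1, hh1, rfl, h2, hh2, e, h3⟩
    refine ⟨h1, hh1, rfl, h, hh, rfl, ?_⟩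
    have := lamh_congr e hf.1
    linarith
  · intro hs
    have h1 := hs ⟨h', hh', rfl, h, hh, rfl, hl⟩
    obtain ⟨h2, hh2, e2, h3, hh3, e3, h4⟩ := h1
    have h5 := lamh_congr e2 hf.1
    have h6 := lamh_congr e3 hf.1
    linarith
  · refine (finite_top hB hf (lamh h f)).subset ?_
    rintro S ⟨h1, hh1, rfl, h2, hh2, e, h3⟩
    refine ⟨h1, hh1, rfl, ?_⟩
    have := lamh_congr e hf.1
    linarith

open Classical in
/-- a descending vertex -/
noncomputable def aB (B : Set GR) (f : E) (S : Finset E) : E :=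
  if h : ∃ X, X ∈ S ∧ ∃ h ∈ B, top h = S ∧ X ∈ Dsc f h then h.choose else 0

theorem mor {B : Set GR} (hB : LatB B) {f : E} (hf : Pd f) (hG : Gen B f) :
    Mor (FB B) (MB B f) (NB B f) (aB B f) where
  fin σ hσ := by
    refine ((star_finite hB hσ).biUnion (t := fun S => (S : Set E)) fun S _ =>
      S.finite_toSet).subset ?_
    rintro y ⟨hy, ⟨h, hh, h1⟩, -⟩
    rw [Set.mem_iUnion₂]
    exact ⟨top h, ⟨h, hh, rfl, fun X hX => h1 (Finset.mem_insert_of_mem hX)⟩,
      h1 (Finset.mem_insert_self _ _)⟩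
  mid ρ τ τ' hρ h1 h2 hτ' := by
    obtain ⟨h, hh, h3⟩ := hτ'.1
    exact ⟨⟨h, hh, h2.trans h3⟩, hρ.2.mono h1⟩
  sub σ hσ := by
    obtain ⟨h, hm⟩ := exists_max hB hf hσ
    rw [MB_eq hB hf hG hm]
    exact hm.2.1
  faceM σ hσ := by
    obtain ⟨h, hm⟩ := exists_max hB hf hσ
    rw [MB_eq hB hf hG hm]
    exact ⟨⟨h, hm.1, Finset.Subset.refl _⟩, hσ.2.mono hm.2.1⟩
  const σ τ hσ h1 h2 := by
    obtain ⟨h, hm⟩ := exists_max hB hf hσ
    rw [MB_eq hB hf hG hm] at h2 ⊢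
    refine MB_eq hB hf hG (dsc_max hB hf hm.1 h2 fun X hX hXτ => ?_)
    exact max_dsc hB hf hG hm X hX fun h3 => hXτ (h1 h3)
  low σ y hσ h1 h2 := by
    obtain ⟨h, hm⟩ := exists_max hB hf hσ
    obtain ⟨h', hm'⟩ := exists_max hB hf h2
    rw [MB_eq hB hf hG hm] at h1 ⊢
    rw [MB_eq hB hf hG hm']
    refine NB_lt hB hf hm.1 hm'.1 (lt_of_dsc hB hf.1 hm.1 hm'.1
      (fun X hX => hm'.2.1 (Finset.mem_insert_of_mem hX)) (max_dsc hB hf hG hm) ?_)
    intro e
    rw [← e] at h1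
    exact h1 (hm'.2.1 (Finset.mem_insert_self _ _))
  card σ hσ := by
    obtain ⟨h, hm⟩ := exists_max hB hf hσ
    rw [MB_eq hB hf hG hm, card_top]
  crit S := by
    by_cases hS : ∃ X, X ∈ S ∧ ∃ h ∈ B, top h = S ∧ X ∈ Dsc f h
    · right
      have ha : aB B f S = hS.choose := by rw [aB, dif_pos hS]
      obtain ⟨h1, h0, hh0, e0, h2⟩ := hS.choose_spec
      rw [← ha] at h1 h2
      intro σ hσ hMσ
      obtain ⟨h, hm⟩ := exists_max hB hf hσ
      rw [MB_eq hB hf hG hm] at hMσ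
      have h3 : aB B f S ∈ Dsc f h := dsc_congr (e0.trans hMσ.symm) hf.1 h2
      have h4 : ∀ X ∈ top h, X ∉ σ.erase (aB B f S) → X ∈ Dsc f h := by
        intro X hX hX'
        by_cases hXa : X = aB B f S
        · rw [hXa]; exact h3
        · exact max_dsc hB hf hG hm X hX fun h5 => hX' (Finset.mem_erase.2 ⟨hXa, h5⟩)
      have h5 : σ.erase (aB B f S) ⊆ top h := (Finset.erase_subset _ _).trans hm.2.1
      refine ⟨h1, ⟨⟨h, hm.1, h5⟩, spn_of_dsc hf h h4⟩, ?_⟩
      rw [MB_eq hB hf hG (dsc_max hB hf hm.1 h5 h4), hMσ]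
    · left
      intro σ hσ hMσ
      obtain ⟨h, hm⟩ := exists_max hB hf hσ
      rw [MB_eq hB hf hG hm] at hMσ
      rw [← hMσ]
      refine Finset.Subset.antisymm hm.2.1 fun X hX => ?_
      by_contra hXσ
      exact hS ⟨X, by rw [← hMσ]; exact hX, h, hm.1, hMσ, max_dsc hB hf hG hm X hX hXσ⟩
  uniq := by
    have key : ∀ S, FB B S → MB B f S = S → (∀ σ, FB B σ → MB B f σ = S → σ = S) →
        ∃ h ∈ B, top h = S ∧ ∀ i, 0 < cfh h i f := by
      intro S hS hMS hc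
      obtain ⟨h, hm⟩ := exists_max hB hf hS
      rw [MB_eq hB hf hG hm] at hMS
      refine ⟨h, hm.1, hMS, fun i => ?_⟩
      by_contra hi
      push Not at hi
      have hi' : cfh h i f < 0 := lt_of_le_of_ne hi (hG h hm.1 i)
      have h1 : ∀ X ∈ top h, X ∉ (top h).erase (xi h i) → X ∈ Dsc f h := by
        intro X hX hX'
        have : X = xi h i := by
          by_contra h2
          exact hX' (Finset.mem_erase.2 ⟨h2, hX⟩)
        rw [this]
        exact ⟨i, rfl, hi'⟩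
      have h2 := hc ((top h).erase (xi h i))
        ⟨⟨h, hm.1, Finset.erase_subset _ _⟩, spn_of_dsc hf h h1⟩
        (by rw [MB_eq hB hf hG (dsc_max hB hf hm.1 (Finset.erase_subset _ _) h1), hMS])
      have h3 : xi h i ∈ (top h).erase (xi h i) := by
        rw [h2, ← hMS]; exact mem_top.2 ⟨i, rfl⟩
      exact Finset.notMem_erase _ _ h3
    intro S S' hS hMS hc hS' hMS' hc'
    obtain ⟨h, hh, rfl, hp⟩ := key S hS hMS hc
    obtain ⟨h', hh', rfl, hp'⟩ := key S' hS' hMS' hc'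
    by_contra hne
    have aux : ∀ {h h' : GR}, h ∈ B → h' ∈ B → top h ≠ top h' → (∀ i, 0 < cfh h i f) →
        lamh h f < lamh h' f := by
      intro h h' hh hh' hne hp
      rw [lamh_decomp h h' hf.1, lamh_self h hf.1]
      refine Finset.sum_lt_sum (fun i _ => ?_) ?_
      · have := lamh_ge_one hB hh' hh i
        have := hp i
        nlinarith
      · obtain ⟨X, hX, hX'⟩ : ∃ X ∈ top h, X ∉ top h' := by
          by_contra h4
          push Not at h4
          refine hne (Finset.eq_of_subset_of_card_le (fun X hX => h4 X hX) ?_)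
          rw [card_top, card_top]
        obtain ⟨i, rfl⟩ := mem_top.1 hX
        refine ⟨i, Finset.mem_univ i, ?_⟩
        rcases lamh_ge hB hh' hh i with h5 | h5
        · exact absurd h5 hX'
        · have := hp i
          nlinarith
    have h1 := aux hh hh' hne hp
    have h2 := aux hh' hh (Ne.symm hne) hp'
    linarith

end Pool.Agent.H520.CG3
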