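import Mathlib

/-!
# Definitions for the Calegari-Geraghty vanishing conjecture for `GL_3` over `ℚ`
(helper520, MP_34be05_nt)
-/

open NumberField IsDedekindDomain CategoryTheory Polynomial

namespace Pool.Agent.H520.CG3.Stm

section gen

variable {O G H W : Type} [CommRing O] [Group G] [Group H] [AddCommGroup W] [Module O W]

/-- The module `M_W`: the representation of `G` coinduced by the representation `ρ` of the subgroup
`K` (the functions `f : G → W` with `f (κ x) = ρ κ (f x)`, with `(g f) x = f (x g)`), restricted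
along `ι : H → G`. -/
noncomputable def MW (ι : H →* G) {K : Subgroup G} (ρ : Representation O K W) : Rep O H :=
  Rep.res ι (Rep.coind K.subtype (Rep.of ρ))

/-- the function `G → W` underlying an element of `M_W` -/
def fn {ι : H →* G} {K : Subgroup G} {ρ : Representation O K W} (f : MW ι ρ) : G → W := f.1

/-- the cohomology group `H^i(H, M_W)` -/
noncomputable abbrev Coh (ι : H →* G) {K : Subgroup G} (ρ : Representation O K W) (i : ℕ) : Type :=
  groupCohomology (MW ι ρ) i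

/-- The Hecke operator of the double coset `L t L`: it sends `f` to the function
`x ↦ ∑ f (c⁻¹ x)`, the sum over the cosets `c L` in `L t L`. -/
noncomputable def heckeOp (L : Subgroup G) (t : G) (f : G → W) : G → W :=
  fun x => ∑ᶠ c ∈ MulAction.orbit L (t : G ⧸ L), f (c.out⁻¹ * x)

/-- `τ` acts on `H^i(H, M_W)` as the Hecke operator of `L t L` -/
def ActsAs {ι : H →* G} {K : Subgroup G} {ρ : Representation O K W} {i : ℕ} {T : Type} [CommRing T]
    [Module T (Coh ι ρ i)] (τ : T) (L : Subgroup G) (t : G) : Prop :=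
  ∃ φ : MW ι ρ ⟶ MW ι ρ, (∀ f, fn (φ f) = heckeOp L t (fn f)) ∧
    ∀ x : Coh ι ρ i, τ • x = groupCohomology.map (MonoidHom.id H) φ i x

end gen

/-- the diagonal embedding of `GL_3(ℚ)` in `GL_3` of the finite adeles -/
noncomputable def diag : GL (Fin 3) ℚ →* GL (Fin 3) (FiniteAdeleRing (𝓞 ℚ) ℚ) :=
  Matrix.GeneralLinearGroup.map (algebraMap ℚ (FiniteAdeleRing (𝓞 ℚ) ℚ))

/-- the component at `v` of an element of `GL_3` of the finite adeles -/
noncomputable def compAt (v : HeightOneSpectrum (𝓞 ℚ)) :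
    GL (Fin 3) (FiniteAdeleRing (𝓞 ℚ) ℚ) →* GL (Fin 3) (v.adicCompletion ℚ) :=
  Matrix.GeneralLinearGroup.map (RestrictedProduct.evalRingHom _ v)

/-- the subgroup `GL_3(ℤ_v)` of `GL_3(ℚ_v)` -/
noncomputable def GLint (v : HeightOneSpectrum (𝓞 ℚ)) :
    Subgroup (GL (Fin 3) (v.adicCompletion ℚ)) :=
  (Matrix.GeneralLinearGroup.map
    (algebraMap (v.adicCompletionIntegers ℚ) (v.adicCompletion ℚ))).range

/-- the subgroup `GL_3(ℤ_v)` of `GL_3` of the finite adeles: the component at `v` is in `GL_3(ℤ_v)`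
and the other components are trivial -/
noncomputable def Kloc (v : HeightOneSpectrum (𝓞 ℚ)) :
    Subgroup (GL (Fin 3) (FiniteAdeleRing (𝓞 ℚ) ℚ)) :=
  (GLint v).comap (compAt v) ⊓ ⨅ w : {w : HeightOneSpectrum (𝓞 ℚ) // w ≠ v}, (compAt w.1).ker

/-- `t` is the diagonal matrix with `j` entries `ϖ` followed by entries `1`, where `ϖ` is a
uniformizer at `v` and `1` at the other places -/
def IsHeckeMat (v : HeightOneSpectrum (𝓞 ℚ)) (j : ℕ) (t : GL (Fin 3) (FiniteAdeleRing (𝓞 ℚ) ℚ)) :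
    Prop :=
  ∃ ϖ : FiniteAdeleRing (𝓞 ℚ) ℚ, Valued.v (ϖ v) = WithZero.exp (-1 : ℤ) ∧
    (∀ w, w ≠ v → ϖ w = 1) ∧ t.1 = Matrix.diagonal fun i => if i.1 < j then ϖ else 1

/-- the polynomial `X^3 - T_1 X^2 + q T_2 X - q^3 T_3` with the roots multiplied by `q^a` -/
noncomputable def satake {k : Type} [Field k] (q : ℕ) (a : ℤ) (x1 x2 x3 : k) : k[X] :=
  X ^ 3 - C ((q : k) ^ a * x1) * X ^ 2 + C (((q : k) ^ a) ^ 2 * ((q : k) * x2)) * X -
    C (((q : k) ^ a) ^ 3 * ((q : k) ^ 3 * x3))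

/-- The representation `r` of `Gal(L/ℚ)` is attached to the system `θ` of Hecke eigenvalues: there
is an integer `a` such that for every place `v ∉ S` whose norm `q` is not zero in `k`, every prime
`P` of `L` over `v` and every Frobenius element `g` at `P`, the characteristic polynomial of `r g`
or of `r g⁻¹` is the polynomial `X^3 - T_{v,1} X^2 + q T_{v,2} X - q^3 T_{v,3}` with the roots
multiplied by `q^a`. -/
def AttachedTo {L k : Type} [Field L] [NumberField L] [Field k]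
    (r : (L ≃ₐ[ℚ] L) →* GL (Fin 3) k) (S : Set (HeightOneSpectrum (𝓞 ℚ)))
    (θ : HeightOneSpectrum (𝓞 ℚ) → ℕ → k) : Prop :=
  ∃ a : ℤ, ∀ v ∉ S, (Ideal.absNorm v.asIdeal : k) ≠ 0 → ∀ P : Ideal (𝓞 L), P.IsPrime →
    P.comap (algebraMap (𝓞 ℚ) (𝓞 L)) = v.asIdeal → ∀ g : L ≃ₐ[ℚ] L, IsArithFrobAt ℤ g P →
      (r g).1.charpoly = satake (Ideal.absNorm v.asIdeal) a (θ v 1) (θ v 2) (θ v 3) ∨
        (r g⁻¹).1.charpoly = satake (Ideal.absNorm v.asIdeal) a (θ v 1) (θ v 2) (θ v 3)

end Pool.Agent.H520.CG3.Stm
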