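import Pool.Agent.H520.CG3.Eis
import Pool.Agent.H520.CG3.Stm
import Pool.Graph.R_pool_sql_team_seeded_3997aac3.Q4.GLC.Cen

/-!
# The Calegari-Geraghty vanishing for `GL_3` over `ℚ` (helper520, MP_34be05_nt)
-/

open CategoryTheory groupCohomology Q4.GLC NumberField Polynomial

namespace Pool.Agent.H520.CG3

theorem absNorm_eq (v : Pl ℚ) : Ideal.absNorm v.asIdeal = qv v := by
  rw [Ideal.absNorm_apply, Submodule.cardQuot_apply, qv]

theorem frob_conv {L : Type} [Field L] [NumberField L] {v : Pl ℚ} {P : Ideal (𝓞 L)}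
    (hP : P.comap (algebraMap (𝓞 ℚ) (𝓞 L)) = v.asIdeal) {g : L ≃ₐ[ℚ] L}
    (h : IsFrobAt g P (qv v)) : IsArithFrobAt ℤ g P := by
  have h1 : P.under ℤ = v.asIdeal.comap (Rat.ringOfIntegersEquiv.symm : ℤ →+* 𝓞 ℚ) := by
    rw [← hP, Ideal.comap_comap, Ideal.under_def]
    congr 1
    exact Subsingleton.elim _ _
  have h2 : Nat.card (ℤ ⧸ P.under ℤ) = qv v := by
    rw [h1]
    refine Nat.card_congr (Ideal.quotientEquiv _ _ Rat.ringOfIntegersEquiv.symm ?_).toEquiv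
    exact (Ideal.map_comap_of_surjective _ Rat.ringOfIntegersEquiv.symm.surjective _).symm
  intro x
  rw [h2]
  exact h x (g • x) rfl

theorem cube {k : Type} [Field k] [IsAlgClosed k] {q : ℕ}
    (hq : (q : k) = 1) (a : ℤ) {x1 x2 x3 : k} (h1 : x1 * x1 = 3 * x2) (h2 : x2 * x2 = 3 * (x1 * x3))
    (h3 : x1 * x2 = 9 * x3) : ∃ α : k, Stm.satake q a x1 x2 x3 = (X - C α) ^ 3 := by
  unfold Stm.satake
  simp only [hq, one_zpow, one_pow, one_mul]
  by_cases hk : (3 : k) = 0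
  · have e9 : (9 : k) = 0 := by
      have : (9 : k) = 3 * 3 := by norm_num
      rw [this, hk, zero_mul]
    rw [hk, zero_mul] at h1 h2
    have y1 : x1 = 0 := mul_self_eq_zero.1 h1
    have y2 : x2 = 0 := mul_self_eq_zero.1 h2
    obtain ⟨α, hα⟩ := IsAlgClosed.exists_pow_nat_eq x3 (n := 3) (by norm_num)
    refine ⟨α, ?_⟩
    have hC : (3 : k[X]) = 0 := by
      have : (3 : k[X]) = C (3 : k) := (map_ofNat (C : k →+* k[X]) 3).symm
      rw [this, hk, C_0]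
    rw [y1, y2, ← hα, C_pow]
    have e : (X - C α) ^ 3 = X ^ 3 - C α ^ 3 - (3 : k[X]) * (X ^ 2 * C α - X * C α ^ 2) := by ring
    rw [e, hC]
    simp
  · refine ⟨x1 / 3, ?_⟩
    obtain ⟨α, rfl⟩ : ∃ α, x1 = 3 * α := ⟨x1 / 3, by field_simp⟩
    have y2 : x2 = 3 * α ^ 2 := by
      have : 3 * x2 = 3 * (3 * α ^ 2) := by rw [← h1]; ring
      exact mul_left_cancel₀ hk this
    have y3 : x3 = α ^ 3 := by
      rw [y2] at h3
      have h9 : (9 : k) ≠ 0 := by
        have : (9 : k) = 3 * 3 := by norm_num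
        rw [this]
        exact mul_ne_zero hk hk
      have : 9 * x3 = 9 * α ^ 3 := by rw [← h3]; ring
      exact mul_left_cancel₀ h9 this
    rw [y2, y3, mul_div_cancel_left₀ _ hk]
    simp only [C_mul, C_pow]
    have : C (3 : k) = (3 : k[X]) := map_ofNat (C : k →+* k[X]) 3
    rw [this]
    ring

section main

variable (p : ℕ) [Fact p.Prime] {O W : Type} [CommRing O] [Algebra ℤ_[p] O]
  [Module.Finite ℤ_[p] O] [AddCommGroup W] [Module O W] [Module.Finite O W]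
variable {Γ : Subgroup (GQ ℚ 3)} {K : Subgroup (Gf ℚ 3)} {ρ : Representation O K W}
  {S : Set (Pl ℚ)} {T : Type} [CommRing T] {t : Pl ℚ → ℕ → T} {A : Rep.{0} O Γ}
  {vl : A →+ (Gf ℚ 3 → W)}

/-- the arithmetic input -/
theorem sys3 (hΓ : Γ.FiniteIndex) : Sys (dg ℚ 3) Γ dt3 (UN ℚ 3) := by
  have hDns := tDns tSre tSra tApp tDen
  have hSlf := tSlf tSre
  exact mkSys tDen hDns hSlf (tCen (tVan tDen) tDec tDen tInt tSre)
    (tFin (tIdf tCls tApp tInt) hDns tDen hSlf) le_rfl Γ hΓ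

include p in
/-- the low degrees -/
theorem low (hA : IsModel (dg ℚ 3) Γ K ρ A vl) (hΓ : Γ.FiniteIndex)
    (hK : ∃ N : ℕ, 1 ≤ N ∧ UN ℚ 3 N ≤ K)
    (hc : PCont p ρ (UN ℚ 3)) (hS : S.Finite) (hg : GoodOut ρ S) {i : ℕ} (hi : i ≤ 1)
    [Module T (groupCohomology A i)]
    (ha : HeckeActs vl S t i) {k : Type} [Field k] [IsAlgClosed k] [CharP k p] (θ : T →+* k)
    {m : Ideal T} [m.IsPrime] (hm : RingHom.ker θ = m) {L : Type} [Field L] [NumberField L]
    [IsGalois ℚ L] (r : (L ≃ₐ[ℚ] L) →* GL (Fin 3) k)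
    (hr : Stm.AttachedTo r S (fun v j => θ (t v j)))
    (hne : Nontrivial (LocalizedModule m.primeCompl (groupCohomology A i))) : Reducible r := by
  obtain ⟨N, hN, hcyc, hfr⟩ := tFrb ℚ L p Fact.out S hS
  obtain ⟨a, hr⟩ := hr
  refine red_core k p 3 (by norm_num) (L ≃ₐ[ℚ] L) N hcyc r ?_
  intro g hgN
  obtain ⟨v, hv, P, hP, hPv, hgP, hq⟩ := hfr g hgN
  have hq1 : ((qv v : ℕ) : k) = 1 := by
    have h1 : qv v ≡ 1 [MOD p] := by
      rw [Nat.ModEq, hq, Nat.mod_eq_of_lt (Fact.out : p.Prime).one_lt]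
    have := (CharP.natCast_eq_natCast k p).2 h1
    rw [this, Nat.cast_one]
  have hq2 : ((Ideal.absNorm v.asIdeal : ℕ) : k) = 1 := by rw [absNorm_eq, hq1]
  obtain ⟨k1, k2, k3⟩ := kills p hA (sys3 hΓ) hK hc hg hi ha hv
  have z1 := RingHom.mem_ker.1 (hm ▸ loc_zero hne k1)
  have z2 := RingHom.mem_ker.1 (hm ▸ loc_zero hne k2)
  have z3 := RingHom.mem_ker.1 (hm ▸ loc_zero hne k3)
  have hd : ((qv v ^ 2 + qv v + 1 : ℕ) : k) = 3 := by
    rw [Nat.cast_add, Nat.cast_add, Nat.cast_pow, Nat.cast_one, hq1]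
    norm_num
  rw [map_sub, map_mul, map_mul, map_natCast, hd, sub_eq_zero] at z1
  rw [map_sub, map_mul, map_mul, map_mul, map_natCast, hd, sub_eq_zero] at z2
  rw [map_sub, map_mul, map_mul, map_natCast, Nat.cast_pow, hd, sub_eq_zero] at z3
  obtain ⟨α, hα⟩ := cube hq2 a (x1 := θ (t v 1)) (x2 := θ (t v 2)) (x3 := θ (t v 3))
    z1 z2 (by rw [z3]; norm_num)
  rcases hr v hv (by rw [hq2]; exact one_ne_zero) P hP hPv g (frob_conv hPv hgP) with h1 | h1
  · exact Or.inl ⟨α, h1.trans hα⟩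
  · exact Or.inr ⟨α, h1.trans hα⟩

/-- the high degrees -/
theorem high' {V : Type} [AddCommGroup V] [Module O V] (R : Representation O Γ V)
    (f : V →ₗ[O] MM K ρ) (hf : Function.Bijective f)
    (hfR : ∀ γ v, f (R γ v) = mmRep (dg ℚ 3) Γ K ρ γ (f v))
    (g0 : Gf ℚ 3) (hK : ∀ κ ∈ K, g0⁻¹ * κ * g0 ∈ UN ℚ 3 1) (hT : TorFree Γ K) {i : ℕ}
    (hi : 4 ≤ i) : Subsingleton (groupCohomology (Rep.of R) i) := by
  obtain ⟨n, rfl⟩ : ∃ n, i = n + 3 + 1 := ⟨i - 4, by omega⟩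
  have h1 : VI (mmRep (dg ℚ 3) Γ K ρ) (fun v => ∃ w, f w = v) (n + 3) := by
    intro z hz _
    obtain ⟨y, -, hy⟩ := high Γ K ρ g0 hK hT n z hz fun _ => trivial
    exact ⟨y, fun x => hf.2 _, hy⟩
  have h2 : VI R (fun _ => True) (n + 3) := VI.inj f hfR hf.1 _ h1
  have h := isZero_of_VI R (n + 3) h2
  exact ModuleCat.subsingleton_of_isZero h

theorem loc_sub {T M : Type} [CommRing T] [AddCommGroup M] [Module T M] {s : Submonoid T}
    [Subsingleton M] : Subsingleton (LocalizedModule s M) := by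
  refine ⟨fun a b => ?_⟩
  induction a using LocalizedModule.induction_on with
  | h m x =>
    induction b using LocalizedModule.induction_on with
    | h n y =>
      rw [Subsingleton.elim m 0, Subsingleton.elim n 0, LocalizedModule.zero_mk,
        LocalizedModule.zero_mk]

end main

end Pool.Agent.H520.CG3
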