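import Pool.Agent.H520.CG3.Geo

/-!
# Flips and the height function (helper520, MP_34be05_nt)
-/

open Matrix

namespace Pool.Agent.H520.CG3

/-- the flip as an element of the group -/
noncomputable def kR (i : Fin 6) : GR :=
  Matrix.GeneralLinearGroup.map (n := Fin 3) (Int.castRingHom ℝ) (kf_unit i).unit

theorem kR_mem (i : Fin 6) : kR i ∈ ZR := ⟨_, rfl⟩

theorem kR_val (i : Fin 6) : (kR i).1 = (kf i).map (Int.castRingHom ℝ) := rfl

theorem LatB.mul_mem {B : Set GR} (hB : LatB B) {h k : GR} (hh : h ∈ B) (hk : k ∈ ZR) :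
    h * k ∈ B := by
  rw [hB.2 h hh]
  have : h⁻¹ * (h * k) = k := by group
  rwa [this]

theorem xi_kR (h : GR) (i l : Fin 6) : xi (h * kR i) l = sqv (h.1 *ᵥ cst (kf i *ᵥ rz l)) := by
  rw [xi, Units.val_mul, ← mulVec_mulVec, kR_val, cst_mul]

theorem lam_int {c : Fin 3 → ℤ} (hc : c ≠ 0) (h1 : ∀ j, c ≠ rz j ∧ c ≠ -rz j) :
    1 < lam (sqv (cst c)) := by
  rcases int_case _ hc with ⟨j, hj⟩ | h5
  · rcases hj with hj | hj
    · exact absurd hj (h1 j).1
    · exact absurd hj (h1 j).2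
  · rw [lam_sqv]
    have h6 : (3 : ℝ) ≤ ((c 0 ^ 2 + c 1 ^ 2 + c 2 ^ 2 + (c 0 + c 1 + c 2) ^ 2 : ℤ) : ℝ) := by
      exact_mod_cast h5
    linarith

theorem flip {B : Set GR} (hB : LatB B) {h : GR} (hh : h ∈ B) (i : Fin 6) :
    ∃ h' ∈ B, (∀ j, j ≠ i → xi h j ∈ top h') ∧ xi h i ∉ top h' := by
  classical
  have h1 : h * kR i ∈ B := hB.mul_mem hh (kR_mem i)
  have h2 : ∀ j, j ≠ i → xi h j ∈ top (h * kR i) := by
    intro j hj
    obtain ⟨l, hl⟩ := kf_perm i j (Ne.symm hj)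
    rw [mem_top]
    refine ⟨l, ?_⟩
    rw [xi_kR]
    rcases hl with hl | hl
    · rw [hl]; rfl
    · rw [hl, cst_neg, mulVec_neg, sqv_neg]; rfl
  refine ⟨h * kR i, h1, h2, fun h3 => ?_⟩
  have h4 : top h ⊆ top (h * kR i) := by
    intro X hX
    obtain ⟨j, rfl⟩ := mem_top.1 hX
    by_cases hj : j = i
    · rw [hj]; exact h3
    · exact h2 j hj
  have h5 : top h = top (h * kR i) := Finset.eq_of_subset_of_card_le h4 (by
    rw [card_top, card_top])
  obtain ⟨l, hl⟩ := kf_new i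
  have h6 : xi (h * kR i) l ∈ top h := by
    rw [h5]; exact mem_top.2 ⟨l, rfl⟩
  have h7 := lamh_top h6
  rw [xi_kR, lamh, act_sqv, mulVec_mulVec, inv_mul_val, one_mulVec] at h7
  have h8 : kf i *ᵥ rz l ≠ 0 := by
    intro h9
    refine rz_ne l ?_
    have h10 : (kf_unit i).unit⁻¹.1 *ᵥ (kf i *ᵥ rz l) = rz l := by
      rw [mulVec_mulVec]
      have : (kf_unit i).unit⁻¹.1 * kf i = 1 := IsUnit.val_inv_mul _
      rw [this, one_mulVec]
    rw [← h10, h9, mulVec_zero]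
  exact absurd h7 (ne_of_gt (lam_int h8 hl))

/-- spanning sets of vertices -/
def Spn (σ : Finset E) : Prop := ∀ u : Fin 3 → ℝ, (∀ X ∈ σ, u ⬝ᵥ (X *ᵥ u) = 0) → u = 0

theorem Spn.mono {σ τ : Finset E} (h : σ ⊆ τ) (hσ : Spn σ) : Spn τ :=
  fun u hu => hσ u fun X hX => hu X (h hX)

theorem sqv_form (v u : Fin 3 → ℝ) : u ⬝ᵥ (sqv v *ᵥ u) = (v ⬝ᵥ u) ^ 2 := by
  rw [sqv, vecMulVec_mulVec, dotProduct_smul, dotProduct_comm u v]
  simp [sq]

/-- positive definite matrices -/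
def Pd (f : E) : Prop := fᵀ = f ∧ ∀ u : Fin 3 → ℝ, u ≠ 0 → 0 < u ⬝ᵥ (f *ᵥ u)

/-- the descending vertices -/
def Dsc (f : E) (h : GR) : Set E := {X | ∃ i, xi h i = X ∧ cfh h i f < 0}

/-- generic for `B` -/
def Gen (B : Set GR) (f : E) : Prop := ∀ h ∈ B, ∀ i, cfh h i f ≠ 0

/-- the vertices which are not descending span -/
theorem spn_of_dsc {f : E} (hf : Pd f) (h : GR) {σ : Finset E}
    (hσ : ∀ X ∈ top h, X ∉ σ → X ∈ Dsc f h) : Spn σ := by
  intro u hu
  obtain ⟨hs, hf⟩ := hf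
  have h1 : u ⬝ᵥ (f *ᵥ u) = ∑ i, cfh h i f * (u ⬝ᵥ (xi h i *ᵥ u)) := by
    conv_lhs => rw [decomph h hs]
    rw [Matrix.sum_mulVec, dotProduct_sum]
    refine Finset.sum_congr rfl fun i _ => ?_
    rw [smul_mulVec, dotProduct_smul, smul_eq_mul]
  have h2 : ∀ i, cfh h i f * (u ⬝ᵥ (xi h i *ᵥ u)) ≤ 0 := by
    intro i
    by_cases hi : xi h i ∈ σ
    · rw [hu _ hi, mul_zero]
    · obtain ⟨j, hj, hc⟩ := hσ _ (mem_top.2 ⟨i, rfl⟩) hi
      have : j = i := xi_inj h hj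
      subst this
      rw [xi, sqv_form]
      exact mul_nonpos_of_nonpos_of_nonneg hc.le (sq_nonneg _)
  by_contra hu0
  have h3 := hf u hu0
  have h4 : u ⬝ᵥ (f *ᵥ u) ≤ 0 := by
    rw [h1]; exact Finset.sum_nonpos fun i _ => h2 i
  linarith

/-- the height of a cone is maximal over the faces which contain the vertices which are not
descending -/
theorem lt_of_dsc {B : Set GR} (hB : LatB B) {f : E} (hf : fᵀ = f) {h h' : GR} (hh : h ∈ B)
    (hh' : h' ∈ B) {σ : Finset E} (h1 : σ ⊆ top h') (hσ : ∀ X ∈ top h, X ∉ σ → X ∈ Dsc f h)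
    (hne : top h' ≠ top h) : lamh h' f < lamh h f := by
  classical
  rw [lamh_decomp h h' hf, lamh_self h hf]
  have h2 : ∀ i, cfh h i f * lamh h' (xi h i) ≤ cfh h i f := by
    intro i
    by_cases hi : xi h i ∈ σ
    · rw [lamh_top (h1 hi), mul_one]
    · obtain ⟨j, hj, hc⟩ := hσ _ (mem_top.2 ⟨i, rfl⟩) hi
      have : j = i := xi_inj h hj
      subst this
      have := lamh_ge_one hB hh' hh j
      nlinarith
  have h3 : ∃ i, cfh h i f * lamh h' (xi h i) < cfh h i f := by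
    obtain ⟨X, hX, hX'⟩ : ∃ X ∈ top h, X ∉ top h' := by
      by_contra h4
      push Not at h4
      refine hne (Finset.eq_of_subset_of_card_le (fun X hX => h4 X hX) ?_).symm
      rw [card_top, card_top]
    obtain ⟨i, rfl⟩ := mem_top.1 hX
    refine ⟨i, ?_⟩
    have hi : xi h i ∉ σ := fun h5 => hX' (h1 h5)
    obtain ⟨j, hj, hc⟩ := hσ _ hX hi
    have : j = i := xi_inj h hj
    subst this
    rcases lamh_ge hB hh' hh j with h5 | h5
    · exact absurd h5 hX'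
    · nlinarith
  obtain ⟨i, hi⟩ := h3
  exact Finset.sum_lt_sum (fun j _ => h2 j) ⟨i, Finset.mem_univ i, hi⟩

/-- the complement of a face in the highest cone is descending -/
theorem dsc_of_max {B : Set GR} (hB : LatB B) {f : E} (hf : fᵀ = f) (hG : Gen B f) {h : GR}
    (hh : h ∈ B) {σ : Finset E}
    (hm : ∀ h' ∈ B, σ ⊆ top h' → lamh h' f ≤ lamh h f) (hσ : σ ⊆ top h) :
    ∀ X ∈ top h, X ∉ σ → X ∈ Dsc f h := by
  intro X hX hXσ
  obtain ⟨i, rfl⟩ := mem_top.1 hX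
  refine ⟨i, rfl, ?_⟩
  obtain ⟨h', hh', h1, h2⟩ := flip hB hh i
  have h3 : σ ⊆ top h' := by
    intro Y hY
    obtain ⟨j, rfl⟩ := mem_top.1 (hσ hY)
    refine h1 j ?_
    rintro rfl
    exact hXσ hY
  have h4 := hm h' hh' h3
  rw [lamh_decomp h h' hf, lamh_self h hf] at h4
  have h5 : ∀ j, j ≠ i → cfh h j f * lamh h' (xi h j) = cfh h j f := by
    intro j hj
    rw [lamh_top (h1 j hj), mul_one]
  have h6 : 1 < lamh h' (xi h i) := by
    rcases lamh_ge hB hh' hh i with h7 | h7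
    · exact absurd h7 h2
    · exact h7
  have h7 : cfh h i f * lamh h' (xi h i) ≤ cfh h i f := by
    rw [← Finset.add_sum_erase _ _ (Finset.mem_univ i),
      ← Finset.add_sum_erase _ (fun i => cfh h i f) (Finset.mem_univ i)] at h4
    have h8 : ∑ x ∈ Finset.univ.erase i, cfh h x f * lamh h' (xi h x) =
        ∑ x ∈ Finset.univ.erase i, cfh h x f :=
      Finset.sum_congr rfl fun j hj => h5 j (Finset.ne_of_mem_erase hj)
    rw [h8] at h4
    linarith
  have h8 := hG h hh i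
  by_contra h9
  push Not at h9
  have h10 : 0 < cfh h i f := lt_of_le_of_ne h9 (Ne.symm h8)
  nlinarith

end Pool.Agent.H520.CG3
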