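import Pool.Agent.H520.CG3.Flip

/-!
# Finiteness of the set of cones of bounded height, generic heights (helper520, MP_34be05_nt)
-/

open Matrix

namespace Pool.Agent.H520.CG3

theorem act_form (g f : E) (u : Fin 3 → ℝ) :
    u ⬝ᵥ (act g f *ᵥ u) = (gᵀ *ᵥ u) ⬝ᵥ (f *ᵥ (gᵀ *ᵥ u)) := by
  rw [act, ← mulVec_mulVec, ← mulVec_mulVec, dotProduct_mulVec, ← mulVec_transpose]

theorem Pd.act {f : E} (hf : Pd f) (g : GR) : Pd (act g.1 f) := by
  refine ⟨act_symm _ hf.1, fun u hu => ?_⟩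
  rw [act_form]
  refine hf.2 _ fun h => hu ?_
  have h1 : (g⁻¹.1)ᵀ *ᵥ (g.1ᵀ *ᵥ u) = u := by
    rw [mulVec_mulVec, ← transpose_mul, mul_inv_val, transpose_one, one_mulVec]
  rw [← h1, h, mulVec_zero]

theorem pd_bound {f : E} (hf : Pd f) :
    ∃ δ : ℝ, 0 < δ ∧ ∀ (u : Fin 3 → ℝ) (i : Fin 3), δ * (u i) ^ 2 ≤ u ⬝ᵥ (f *ᵥ u) := by
  have hc : IsCompact (Metric.sphere (0 : Fin 3 → ℝ) 1) := isCompact_sphere _ _
  have hne : (Metric.sphere (0 : Fin 3 → ℝ) 1).Nonempty := by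
    refine ⟨fun _ => 1, ?_⟩
    rw [mem_sphere_zero_iff_norm, pi_norm_const, norm_one]
  have hcont : Continuous fun u : Fin 3 → ℝ => u ⬝ᵥ (f *ᵥ u) := by fun_prop
  obtain ⟨u0, hu0, hmin⟩ := hc.exists_isMinOn hne hcont.continuousOn
  have hu0' : u0 ≠ 0 := by
    rintro rfl
    simp at hu0
  refine ⟨u0 ⬝ᵥ (f *ᵥ u0), hf.2 _ hu0', fun u i => ?_⟩
  by_cases hu : u = 0
  · subst hu; simp
  · have hn : 0 < ‖u‖ := norm_pos_iff.2 hu
    have h1 : (‖u‖⁻¹ • u) ∈ Metric.sphere (0 : Fin 3 → ℝ) 1 := by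
      rw [mem_sphere_zero_iff_norm, norm_smul, norm_inv, norm_norm, inv_mul_cancel₀ hn.ne']
    have h2 := hmin h1
    simp only [Set.mem_ofPred_eq] at h2
    rw [mulVec_smul, dotProduct_smul, smul_dotProduct, smul_eq_mul, smul_eq_mul] at h2
    have h3 : |u i| ≤ ‖u‖ := by
      have := norm_le_pi_norm u i
      rwa [Real.norm_eq_abs] at this
    have h4 : (u i) ^ 2 ≤ ‖u‖ ^ 2 := by
      rw [← sq_abs (u i)]
      exact pow_le_pow_left₀ (abs_nonneg _) h3 2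
    have h5 : u0 ⬝ᵥ (f *ᵥ u0) * ‖u‖ ^ 2 ≤ u ⬝ᵥ (f *ᵥ u) := by
      have h6 : ‖u‖⁻¹ * (‖u‖⁻¹ * u ⬝ᵥ (f *ᵥ u)) * ‖u‖ ^ 2 = u ⬝ᵥ (f *ᵥ u) := by
        field_simp
      rw [← h6]
      exact mul_le_mul_of_nonneg_right h2 (sq_nonneg _)
    have h7 := hf.2 _ hu0'
    nlinarith

theorem form_nonneg {f : E} (hf : Pd f) (u : Fin 3 → ℝ) : 0 ≤ u ⬝ᵥ (f *ᵥ u) := by
  by_cases hu : u = 0
  · subst hu; simp
  · exact (hf.2 u hu).le

theorem act_diag (k f : E) (i : Fin 3) : act k f i i = (k i) ⬝ᵥ (f *ᵥ (k i)) := by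
  simp only [act, mul_apply, dotProduct, mulVec, transpose_apply, Finset.mul_sum, Finset.sum_mul]
  rw [Finset.sum_comm]
  exact Finset.sum_congr rfl fun a _ => Finset.sum_congr rfl fun b _ => by ring

theorem act_all (k f : E) : (act k f 0 0 + act k f 0 1 + act k f 0 2 + act k f 1 0 + act k f 1 1 +
    act k f 1 2 + act k f 2 0 + act k f 2 1 + act k f 2 2) =
    (fun _ => 1 : Fin 3 → ℝ) ⬝ᵥ (act k f *ᵥ (fun _ => 1)) := by
  simp [dotProduct, mulVec, Fin.sum_univ_succ]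
  ring

theorem lam_act_ge {f : E} (hf : Pd f) (k : E) (i : Fin 3) :
    (k i) ⬝ᵥ (f *ᵥ (k i)) ≤ 2 * lam (act k f) := by
  have h0 := act_diag k f 0
  have h1 := act_diag k f 1
  have h2 := act_diag k f 2
  have p0 := form_nonneg hf (k 0)
  have p1 := form_nonneg hf (k 1)
  have p2 := form_nonneg hf (k 2)
  have h3 : 0 ≤ (fun _ => 1 : Fin 3 → ℝ) ⬝ᵥ (act k f *ᵥ (fun _ => 1)) := by
    rw [act_form]
    exact form_nonneg hf _
  rw [← act_all] at h3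
  have h4 : 2 * lam (act k f) = act k f 0 0 + act k f 1 1 + act k f 2 2 +
      (act k f 0 0 + act k f 0 1 + act k f 0 2 + act k f 1 0 + act k f 1 1 +
    act k f 1 2 + act k f 2 0 + act k f 2 1 + act k f 2 2) := by
    rw [lam]; ring
  rw [h4]
  have h5 : i = 0 ∨ i = 1 ∨ i = 2 := by fin_cases i <;> simp
  rcases h5 with rfl | rfl | rfl <;> linarith

/-- the cones of bounded height are finite in number -/
theorem finite_top {B : Set GR} (hB : LatB B) {A : E} (hA : Pd A) (c : ℝ) :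
    {S : Finset E | ∃ h ∈ B, top h = S ∧ lamh h A ≤ c}.Finite := by
  obtain ⟨h0, hh0⟩ := hB.1
  set A' := act h0⁻¹.1 A with hA'
  have hPd : Pd A' := hA.act h0⁻¹
  obtain ⟨δ, hδ, hb⟩ := pd_bound hPd
  obtain ⟨N, hN⟩ := exists_nat_ge (2 * c / δ)
  have hfin : {z : GL (Fin 3) ℤ | ∀ i j, |z⁻¹.1 i j| ≤ (N : ℤ)}.Finite := by
    have h1 : {w : Fin 3 → Fin 3 → ℤ | ∀ i j, |w i j| ≤ (N : ℤ)}.Finite := by
      refine (Set.finite_Icc (fun _ _ => -(N : ℤ) : Fin 3 → Fin 3 → ℤ) (fun _ _ => (N : ℤ))).subset ?_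
      intro w hw
      rw [Set.mem_Icc]
      exact ⟨fun i j => (abs_le.1 (hw i j)).1, fun i j => (abs_le.1 (hw i j)).2⟩
    refine Set.Finite.of_injOn (f := fun z : GL (Fin 3) ℤ => fun i j => z⁻¹.1 i j)
      (t := {w : Fin 3 → Fin 3 → ℤ | ∀ i j, |w i j| ≤ (N : ℤ)}) (fun z hz => hz) ?_ h1
    intro z _ z' _ e
    have : z⁻¹ = z'⁻¹ := Units.ext (Matrix.ext fun i j => congrFun (congrFun e i) j)
    exact inv_injective this
  refine (hfin.image fun z => top (h0 * Matrix.GeneralLinearGroup.map (n := Fin 3)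
    (Int.castRingHom ℝ) z)).subset ?_
  rintro S ⟨h, hh, rfl, hc⟩
  obtain ⟨z, hz⟩ := (hB.2 h0 hh0 h).1 hh
  have hz' : h = h0 * Matrix.GeneralLinearGroup.map (n := Fin 3) (Int.castRingHom ℝ) z := by
    rw [hz]; group
  refine ⟨z, ?_, by rw [hz']⟩
  intro i j
  have e1 : h⁻¹.1 = (z⁻¹.1.map (Int.castRingHom ℝ)) * h0⁻¹.1 := by
    have : h⁻¹ = Matrix.GeneralLinearGroup.map (n := Fin 3) (Int.castRingHom ℝ) z⁻¹ * h0⁻¹ := by
      rw [hz', map_inv]; group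
    rw [this]; rfl
  have e2 : lamh h A = lam (act (z⁻¹.1.map (Int.castRingHom ℝ)) A') := by
    rw [lamh, e1, hA', act_act]
  have h3 := lam_act_ge hPd (z⁻¹.1.map (Int.castRingHom ℝ)) i
  have h4 := hb ((z⁻¹.1.map (Int.castRingHom ℝ)) i) j
  rw [← e2] at h3
  have h5 : (z⁻¹.1.map (Int.castRingHom ℝ)) i j = ((z⁻¹.1 i j : ℤ) : ℝ) := rfl
  have h6 : ((z⁻¹.1 i j : ℤ) : ℝ) ^ 2 ≤ 2 * c / δ := by
    rw [le_div_iff₀ hδ]
    rw [h5] at h4
    linarith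
  have h7 : ((z⁻¹.1 i j : ℤ) : ℝ) ^ 2 ≤ (N : ℝ) := h6.trans hN
  have h8 : (z⁻¹.1 i j) ^ 2 ≤ (N : ℤ) := by exact_mod_cast h7
  have h9 : |z⁻¹.1 i j| ≤ (z⁻¹.1 i j) ^ 2 := by
    rw [← sq_abs]
    rcases eq_or_ne (z⁻¹.1 i j) 0 with h10 | h10
    · rw [h10]; simp
    · have : 1 ≤ |z⁻¹.1 i j| := Int.one_le_abs h10
      nlinarith
  exact h9.trans h8

/-- the integral version of the coordinates -/
def cfZ (i : Fin 6) (X : Matrix (Fin 3) (Fin 3) ℤ) : ℤ :=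
  ![X 0 0 + X 0 1 + X 0 2, X 1 1 + X 0 1 + X 1 2, X 2 2 + X 0 2 + X 1 2,
    -X 0 1, -X 0 2, -X 1 2] i

theorem cfZ_cast (i : Fin 6) (X : Matrix (Fin 3) (Fin 3) ℤ) :
    cf i (X.map (Int.castRingHom ℝ)) = (cfZ i X : ℝ) := by
  fin_cases i <;> simp [cf, cfZ]

theorem exists_trans : ∃ t : ℝ, 0 < t ∧ t < 1 / 2 ∧ Transcendental ℤ t := by
  by_contra h
  push Not at h
  have h1 : (Set.Ioo (0 : ℝ) (1 / 2)).Countable := by
    refine (Algebraic.countable ℤ ℝ).mono ?_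
    intro t ht
    have := h t ht.1 ht.2
    rw [Transcendental, not_not] at this
    exact this
  rw [Cardinal.Real.Ioo_countable_iff] at h1
  norm_num at h1

/-- the basis of the symmetric matrices -/
def bz : Fin 6 → Matrix (Fin 3) (Fin 3) ℤ :=
  ![!![1, 0, 0; 0, 0, 0; 0, 0, 0], !![0, 0, 0; 0, 1, 0; 0, 0, 0], !![0, 0, 0; 0, 0, 0; 0, 0, 1],
    !![0, 1, 0; 1, 0, 0; 0, 0, 0], !![0, 0, 1; 0, 0, 0; 1, 0, 0], !![0, 0, 0; 0, 0, 1; 0, 1, 0]]

/-- the entries -/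
def ent (X : E) : Fin 6 → ℝ := ![X 0 0, X 1 1, X 2 2, X 0 1, X 0 2, X 1 2]

theorem ent_decomp {X : E} (h : Xᵀ = X) :
    X = ∑ i, ent X i • ((bz i).map (Int.castRingHom ℝ)) := by
  have h1 : ∀ i j, X j i = X i j := fun i j => congrFun (congrFun h i) j
  have h10 := h1 0 1
  have h20 := h1 0 2
  have h21 := h1 1 2
  ext i j
  rw [Matrix.sum_apply]
  simp only [Fin.sum_univ_succ, Matrix.smul_apply, smul_eq_mul, bz, ent, Matrix.map_apply]
  fin_cases i <;> fin_cases j <;> simp [h10, h20, h21]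

/-- the generic form -/
def fgen (t : ℝ) : E := !![1, t ^ 3, t ^ 4; t ^ 3, 1 + t, t ^ 5; t ^ 4, t ^ 5, 1 + t ^ 2]

theorem fgen_pd {t : ℝ} (h0 : 0 < t) (h1 : t < 1 / 2) : Pd (fgen t) := by
  refine ⟨?_, fun u hu => ?_⟩
  · ext i j
    fin_cases i <;> fin_cases j <;> simp [fgen]
  · have e : u ⬝ᵥ (fgen t *ᵥ u) = u 0 ^ 2 + (1 + t) * u 1 ^ 2 + (1 + t ^ 2) * u 2 ^ 2 +
        2 * t ^ 3 * (u 0 * u 1) + 2 * t ^ 4 * (u 0 * u 2) + 2 * t ^ 5 * (u 1 * u 2) := by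
      simp [fgen, dotProduct, mulVec, Fin.sum_univ_succ]
      ring
    rw [e]
    have t3 : t ^ 3 ≤ 1 / 8 := by
      calc t ^ 3 ≤ (1 / 2) ^ 3 := pow_le_pow_left₀ h0.le h1.le 3
        _ = 1 / 8 := by norm_num
    have t4 : t ^ 4 ≤ 1 / 8 := by
      calc t ^ 4 ≤ (1 / 2) ^ 4 := pow_le_pow_left₀ h0.le h1.le 4
        _ ≤ 1 / 8 := by norm_num
    have t5 : t ^ 5 ≤ 1 / 8 := by
      calc t ^ 5 ≤ (1 / 2) ^ 5 := pow_le_pow_left₀ h0.le h1.le 5
        _ ≤ 1 / 8 := by norm_num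
    have p3 : 0 < t ^ 3 := by positivity
    have p4 : 0 < t ^ 4 := by positivity
    have p5 : 0 < t ^ 5 := by positivity
    have hpos : 0 < u 0 ^ 2 + u 1 ^ 2 + u 2 ^ 2 := by
      by_contra h
      push Not at h
      refine hu (funext fun i => ?_)
      have a0 : u 0 = 0 := by nlinarith [sq_nonneg (u 0), sq_nonneg (u 1), sq_nonneg (u 2)]
      have a1 : u 1 = 0 := by nlinarith [sq_nonneg (u 0), sq_nonneg (u 1), sq_nonneg (u 2)]
      have a2 : u 2 = 0 := by nlinarith [sq_nonneg (u 0), sq_nonneg (u 1), sq_nonneg (u 2)]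
      fin_cases i
      · exact a0
      · exact a1
      · exact a2
    have b1 : -(1 / 8 * (u 0 ^ 2 + u 1 ^ 2)) ≤ 2 * t ^ 3 * (u 0 * u 1) := by
      nlinarith [mul_nonneg p3.le (sq_nonneg (u 0 + u 1)), mul_nonneg (sub_nonneg.2 t3)
        (add_nonneg (sq_nonneg (u 0)) (sq_nonneg (u 1)))]
    have b2 : -(1 / 8 * (u 0 ^ 2 + u 2 ^ 2)) ≤ 2 * t ^ 4 * (u 0 * u 2) := by
      nlinarith [mul_nonneg p4.le (sq_nonneg (u 0 + u 2)), mul_nonneg (sub_nonneg.2 t4)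
        (add_nonneg (sq_nonneg (u 0)) (sq_nonneg (u 2)))]
    have b3 : -(1 / 8 * (u 1 ^ 2 + u 2 ^ 2)) ≤ 2 * t ^ 5 * (u 1 * u 2) := by
      nlinarith [mul_nonneg p5.le (sq_nonneg (u 1 + u 2)), mul_nonneg (sub_nonneg.2 t5)
        (add_nonneg (sq_nonneg (u 1)) (sq_nonneg (u 2)))]
    have b4 : 0 ≤ t * u 1 ^ 2 := by positivity
    have b5 : 0 ≤ t ^ 2 * u 2 ^ 2 := by positivity
    nlinarith

theorem cf_sum (i : Fin 6) {J : Type} (s : Finset J) (f : J → E) :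
    cf i (∑ j ∈ s, f j) = ∑ j ∈ s, cf i (f j) := by
  classical
  induction s using Finset.induction_on with
  | empty =>
    have := cf_smul i 0 0
    simpa using this
  | insert a s ha ih => rw [Finset.sum_insert ha, Finset.sum_insert ha, cf_add, ih]

theorem gen_one {t : ℝ} (ht : Transcendental ℤ t) (z : GL (Fin 3) ℤ) (i : Fin 6)
    (hs : (fgen t)ᵀ = fgen t) : cf i (act (z.1.map (Int.castRingHom ℝ)) (fgen t)) ≠ 0 := by
  set α : Fin 6 → ℤ := fun j => cfZ i (z.1 * bz j * z.1ᵀ) with hα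
  have hb : ∀ j, cf i (act (z.1.map (Int.castRingHom ℝ)) ((bz j).map (Int.castRingHom ℝ))) =
      (α j : ℝ) := by
    intro j
    rw [hα, ← cfZ_cast, act, Matrix.map_mul, Matrix.map_mul, Matrix.transpose_map]
  have hL : ∀ X : E, Xᵀ = X → cf i (act (z.1.map (Int.castRingHom ℝ)) X) =
      ∑ j, ent X j * α j := by
    intro X hX
    conv_lhs => rw [ent_decomp hX]
    rw [act_sum, cf_sum]
    refine Finset.sum_congr rfl fun j _ => ?_
    rw [act_smul, cf_smul, hb]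
  intro h0
  rw [hL _ hs] at h0
  have hp : (Polynomial.C (α 0 + α 1 + α 2) + Polynomial.C (α 1) * Polynomial.X +
      Polynomial.C (α 2) * Polynomial.X ^ 2 + Polynomial.C (α 3) * Polynomial.X ^ 3 +
      Polynomial.C (α 4) * Polynomial.X ^ 4 + Polynomial.C (α 5) * Polynomial.X ^ 5 :
      Polynomial ℤ) = 0 := by
    by_contra hne
    refine ht ⟨_, hne, ?_⟩
    simp only [map_add, map_mul, map_pow, Polynomial.aeval_C, Polynomial.aeval_X]
    simp only [Fin.sum_univ_succ, ent, fgen] at h0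
    simp at h0 ⊢
    linear_combination h0
  have c0 := congrArg (fun p => Polynomial.coeff p 0) hp
  have c1 := congrArg (fun p => Polynomial.coeff p 1) hp
  have c2 := congrArg (fun p => Polynomial.coeff p 2) hp
  have c3 := congrArg (fun p => Polynomial.coeff p 3) hp
  have c4 := congrArg (fun p => Polynomial.coeff p 4) hp
  have c5 := congrArg (fun p => Polynomial.coeff p 5) hp
  simp only [Polynomial.coeff_add, Polynomial.coeff_C_mul, Polynomial.coeff_X_pow,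
    Polynomial.coeff_X, Polynomial.coeff_C, Polynomial.coeff_zero] at c0 c1 c2 c3 c4 c5
  norm_num at c0 c1 c2 c3 c4 c5
  have hα0 : ∀ j, α j = 0 := by
    intro j
    fin_cases j
    · simp only [Fin.zero_eta]; omega
    · exact c1
    · exact c2
    · exact c3
    · exact c4
    · exact c5
  have h1 := hL (act (z⁻¹.1.map (Int.castRingHom ℝ)) (sqv (cst (rz i))))
    (act_symm _ (sqv_symm _))
  rw [act_act, ← Matrix.map_mul, ← Units.val_mul, mul_inv_cancel, Units.val_one,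
    Matrix.map_one _ (map_zero _) (map_one _), act_one, cf_rt, if_pos rfl] at h1
  simp [hα0] at h1

theorem exists_gen {B : Set GR} (hB : LatB B) : ∃ f : E, Pd f ∧ Gen B f := by
  obtain ⟨h0, hh0⟩ := hB.1
  obtain ⟨t, t0, t1, ht⟩ := exists_trans
  have hp := fgen_pd t0 t1
  refine ⟨act h0.1 (fgen t), hp.act h0, fun h hh i => ?_⟩
  obtain ⟨z, hz⟩ := (hB.2 h0 hh0 h).1 hh
  have e1 : h⁻¹.1 * h0.1 = (z⁻¹.1.map (Int.castRingHom ℝ)) := by
    have : h⁻¹ * h0 = Matrix.GeneralLinearGroup.map (n := Fin 3) (Int.castRingHom ℝ) z⁻¹ := by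
      rw [map_inv, hz]; group
    rw [← Units.val_mul, this]; rfl
  rw [cfh, act_act, e1]
  exact gen_one ht z⁻¹ i hp.1

end Pool.Agent.H520.CG3
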