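import Mathlib

/-!
# The perfect cones of ternary quadratic forms (helper520, MP_34be05_nt)
-/

open Matrix

namespace Pool.Agent.H520.CG3

/-- real 3 × 3 matrices -/
abbrev E := Matrix (Fin 3) (Fin 3) ℝ

/-- the group -/
abbrev GR := GL (Fin 3) ℝ

/-- the six roots -/
def rz : Fin 6 → Fin 3 → ℤ :=
  ![![1, 0, 0], ![0, 1, 0], ![0, 0, 1], ![1, -1, 0], ![1, 0, -1], ![0, 1, -1]]

/-- the real vector of an integral vector -/
def cst (v : Fin 3 → ℤ) : Fin 3 → ℝ := fun i => (v i : ℝ)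

/-- the matrix `v vᵀ` -/
def sqv (v : Fin 3 → ℝ) : E := vecMulVec v v

/-- the action -/
def act (g X : E) : E := g * X * gᵀ

theorem act_act (g h X : E) : act g (act h X) = act (g * h) X := by
  simp only [act, transpose_mul, mul_assoc]

theorem act_one (X : E) : act 1 X = X := by
  simp [act]

theorem act_add (g X Y : E) : act g (X + Y) = act g X + act g Y := by
  simp only [act, mul_add, add_mul]

theorem act_smul (g : E) (a : ℝ) (X : E) : act g (a • X) = a • act g X := by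
  simp only [act, Matrix.mul_smul, Matrix.smul_mul]

theorem act_sum (g : E) {I : Type} (s : Finset I) (f : I → E) :
    act g (∑ i ∈ s, f i) = ∑ i ∈ s, act g (f i) := by
  simp only [act, Finset.mul_sum, Finset.sum_mul]

theorem act_sqv (g : E) (v : Fin 3 → ℝ) : act g (sqv v) = sqv (g *ᵥ v) := by
  rw [act, sqv, sqv, mul_vecMulVec, vecMulVec_mul, vecMul_transpose]

theorem act_symm (g : E) {X : E} (h : Xᵀ = X) : (act g X)ᵀ = act g X := by
  rw [act, transpose_mul, transpose_mul, transpose_transpose, h, mul_assoc]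

theorem sqv_symm (v : Fin 3 → ℝ) : (sqv v)ᵀ = sqv v := by
  rw [sqv, transpose_vecMulVec]

theorem sqv_neg (v : Fin 3 → ℝ) : sqv (-v) = sqv v := by
  rw [sqv, sqv, vecMulVec_neg, neg_vecMulVec, neg_neg]

/-- the linear functional which is one on the roots -/
noncomputable def lam (X : E) : ℝ :=
  (X 0 0 + X 1 1 + X 2 2 + (X 0 0 + X 0 1 + X 0 2 + X 1 0 + X 1 1 + X 1 2 + X 2 0 + X 2 1 +
    X 2 2)) / 2

/-- the coordinates with respect to the roots -/
def cf (i : Fin 6) (X : E) : ℝ :=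
  ![X 0 0 + X 0 1 + X 0 2, X 1 1 + X 0 1 + X 1 2, X 2 2 + X 0 2 + X 1 2,
    -X 0 1, -X 0 2, -X 1 2] i

theorem lam_add (X Y : E) : lam (X + Y) = lam X + lam Y := by
  simp only [lam, Matrix.add_apply]; ring

theorem lam_smul (a : ℝ) (X : E) : lam (a • X) = a * lam X := by
  simp only [lam, Matrix.smul_apply, smul_eq_mul]; ring

theorem cf_add (i : Fin 6) (X Y : E) : cf i (X + Y) = cf i X + cf i Y := by
  fin_cases i <;> simp [cf] <;> ring

theorem cf_smul (i : Fin 6) (a : ℝ) (X : E) : cf i (a • X) = a * cf i X := by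
  fin_cases i <;> simp [cf] <;> ring

theorem sqv_apply (v : Fin 3 → ℝ) (i j : Fin 3) : sqv v i j = v i * v j := rfl

theorem decomp {X : E} (h : Xᵀ = X) : X = ∑ i, cf i X • sqv (cst (rz i)) := by
  have h1 : ∀ i j, X j i = X i j := fun i j => congrFun (congrFun h i) j
  have h10 := h1 0 1
  have h20 := h1 0 2
  have h21 := h1 1 2
  ext i j
  rw [Matrix.sum_apply]
  simp only [Fin.sum_univ_succ, Matrix.smul_apply, sqv_apply, smul_eq_mul, cst, rz, cf]
  fin_cases i <;> fin_cases j <;> simp [h10, h20, h21] <;> ring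

theorem lam_sqv (c : Fin 3 → ℤ) :
    lam (sqv (cst c)) = ((c 0 ^ 2 + c 1 ^ 2 + c 2 ^ 2 + (c 0 + c 1 + c 2) ^ 2 : ℤ) : ℝ) / 2 := by
  simp only [lam, sqv_apply, cst]
  push_cast
  ring

theorem lam_rt (i : Fin 6) : lam (sqv (cst (rz i))) = 1 := by
  rw [lam_sqv]
  fin_cases i <;> norm_num [rz, Matrix.cons_val_two, Matrix.cons_val_zero, Matrix.cons_val_one]

theorem cf_rt (i j : Fin 6) : cf i (sqv (cst (rz j))) = if i = j then 1 else 0 := by
  fin_cases i <;> fin_cases j <;> simp [cf, rz, cst, sqv_apply]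

theorem int_case (c : Fin 3 → ℤ) (hc : c ≠ 0) :
    (∃ i, c = rz i ∨ c = -rz i) ∨ 3 ≤ c 0 ^ 2 + c 1 ^ 2 + c 2 ^ 2 + (c 0 + c 1 + c 2) ^ 2 := by
  by_cases h : 3 ≤ c 0 ^ 2 + c 1 ^ 2 + c 2 ^ 2 + (c 0 + c 1 + c 2) ^ 2
  · exact Or.inr h
  · left
    push Not at h
    have h0 : c 0 ^ 2 ≤ 2 := by nlinarith [sq_nonneg (c 1), sq_nonneg (c 2), sq_nonneg (c 0 + c 1 + c 2)]
    have h1 : c 1 ^ 2 ≤ 2 := by nlinarith [sq_nonneg (c 0), sq_nonneg (c 2), sq_nonneg (c 0 + c 1 + c 2)]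
    have h2 : c 2 ^ 2 ≤ 2 := by nlinarith [sq_nonneg (c 1), sq_nonneg (c 0), sq_nonneg (c 0 + c 1 + c 2)]
    have b0 : -1 ≤ c 0 ∧ c 0 ≤ 1 := by constructor <;> nlinarith
    have b1 : -1 ≤ c 1 ∧ c 1 ≤ 1 := by constructor <;> nlinarith
    have b2 : -1 ≤ c 2 ∧ c 2 ≤ 1 := by constructor <;> nlinarith
    obtain ⟨x, hx⟩ : ∃ x, x = c 0 := ⟨_, rfl⟩
    obtain ⟨y, hy⟩ : ∃ y, y = c 1 := ⟨_, rfl⟩
    obtain ⟨z, hz⟩ : ∃ z, z = c 2 := ⟨_, rfl⟩
    have hc' : c = ![x, y, z] := by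
      ext i; fin_cases i <;> simp [hx, hy, hz]
    rw [← hx] at b0 h
    rw [← hy] at b1 h
    rw [← hz] at b2 h
    rw [hc'] at hc ⊢
    clear h0 h1 h2 hc' hx hy hz
    obtain ⟨a1, a2⟩ := b0
    obtain ⟨a3, a4⟩ := b1
    obtain ⟨a5, a6⟩ := b2
    interval_cases x <;> interval_cases y <;> interval_cases z <;> revert h hc <;> decide


/-- the integral matrices with integral inverse -/
def ZR : Subgroup GR := (Matrix.GeneralLinearGroup.map (n := Fin 3) (Int.castRingHom ℝ)).range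

/-- the set of the bases of a lattice -/
def LatB (B : Set GR) : Prop := B.Nonempty ∧ ∀ h ∈ B, ∀ h', h' ∈ B ↔ h⁻¹ * h' ∈ ZR

/-- the vertices of a basis -/
def xi (h : GR) (i : Fin 6) : E := sqv (h.1 *ᵥ cst (rz i))

open Classical in
/-- the top cone of a basis -/
noncomputable def top (h : GR) : Finset E := Finset.univ.image (xi h)

theorem mem_top {h : GR} {X : E} : X ∈ top h ↔ ∃ i, xi h i = X := by
  simp [top]

/-- the linear functional which is one on the cone of `h` -/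
noncomputable def lamh (h : GR) (X : E) : ℝ := lam (act h⁻¹.1 X)

/-- the coordinates with respect to the cone of `h` -/
def cfh (h : GR) (i : Fin 6) (X : E) : ℝ := cf i (act h⁻¹.1 X)

theorem inv_mul_val (h : GR) : h⁻¹.1 * h.1 = 1 := by
  rw [← Units.val_mul, inv_mul_cancel, Units.val_one]

theorem mul_inv_val (h : GR) : h.1 * h⁻¹.1 = 1 := by
  rw [← Units.val_mul, mul_inv_cancel, Units.val_one]

theorem act_inv_xi (h : GR) (i : Fin 6) : act h⁻¹.1 (xi h i) = sqv (cst (rz i)) := by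
  rw [xi, act_sqv, mulVec_mulVec, inv_mul_val, one_mulVec]

theorem lamh_xi (h : GR) (i : Fin 6) : lamh h (xi h i) = 1 := by
  rw [lamh, act_inv_xi, lam_rt]

theorem cfh_xi (h : GR) (i j : Fin 6) : cfh h i (xi h j) = if i = j then 1 else 0 := by
  rw [cfh, act_inv_xi, cf_rt]

theorem xi_inj (h : GR) : Function.Injective (xi h) := by
  intro i j e
  have h1 := cfh_xi h i i
  rw [e, cfh_xi] at h1
  by_contra h2
  simp [h2] at h1

theorem card_top (h : GR) : (top h).card = 6 := by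
  rw [top, Finset.card_image_of_injective _ (xi_inj h), Finset.card_univ, Fintype.card_fin]

theorem lamh_add (h : GR) (X Y : E) : lamh h (X + Y) = lamh h X + lamh h Y := by
  rw [lamh, act_add, lam_add]; rfl

theorem lamh_smul (h : GR) (a : ℝ) (X : E) : lamh h (a • X) = a * lamh h X := by
  rw [lamh, act_smul, lam_smul]; rfl

theorem lamh_zero (h : GR) : lamh h 0 = 0 := by
  have := lamh_smul h 0 0
  simpa using this

theorem lamh_sum (h : GR) {I : Type} (s : Finset I) (f : I → E) :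
    lamh h (∑ i ∈ s, f i) = ∑ i ∈ s, lamh h (f i) := by
  classical
  induction s using Finset.induction_on with
  | empty => simp [lamh_zero]
  | insert i s hi ih => rw [Finset.sum_insert hi, Finset.sum_insert hi, lamh_add, ih]

theorem cfh_add (h : GR) (i : Fin 6) (X Y : E) : cfh h i (X + Y) = cfh h i X + cfh h i Y := by
  rw [cfh, act_add, cf_add]; rfl

theorem cfh_smul (h : GR) (i : Fin 6) (a : ℝ) (X : E) : cfh h i (a • X) = a * cfh h i X := by
  rw [cfh, act_smul, cf_smul]; rfl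

theorem cfh_zero (h : GR) (i : Fin 6) : cfh h i 0 = 0 := by
  have := cfh_smul h i 0 0
  simpa using this

theorem cfh_sum (h : GR) (j : Fin 6) {I : Type} (s : Finset I) (f : I → E) :
    cfh h j (∑ i ∈ s, f i) = ∑ i ∈ s, cfh h j (f i) := by
  classical
  induction s using Finset.induction_on with
  | empty => simp [cfh_zero]
  | insert i s hi ih => rw [Finset.sum_insert hi, Finset.sum_insert hi, cfh_add, ih]

theorem decomph (h : GR) {X : E} (hX : Xᵀ = X) : X = ∑ i, cfh h i X • xi h i := by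
  have h1 := decomp (act_symm h⁻¹.1 hX)
  have h2 : act h.1 (act h⁻¹.1 X) = X := by
    rw [act_act, mul_inv_val, act_one]
  have h3 : X = act h.1 (∑ i, cf i (act h⁻¹.1 X) • sqv (cst (rz i))) := by
    rw [← h1, h2]
  conv_lhs => rw [h3]
  rw [act_sum]
  refine Finset.sum_congr rfl fun i _ => ?_
  rw [act_smul, act_sqv]
  rfl

theorem xi_symm (h : GR) (i : Fin 6) : (xi h i)ᵀ = xi h i := sqv_symm _

theorem lamh_decomp (h h' : GR) {X : E} (hX : Xᵀ = X) :
    lamh h' X = ∑ i, cfh h i X * lamh h' (xi h i) := by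
  conv_lhs => rw [decomph h hX]
  rw [lamh_sum]
  exact Finset.sum_congr rfl fun i _ => lamh_smul _ _ _

theorem lamh_self (h : GR) {X : E} (hX : Xᵀ = X) : lamh h X = ∑ i, cfh h i X := by
  rw [lamh_decomp h h hX]
  exact Finset.sum_congr rfl fun i _ => by rw [lamh_xi, mul_one]

theorem rz_ne (i : Fin 6) : rz i ≠ 0 := by
  revert i; decide

theorem cst_mul (z : Matrix (Fin 3) (Fin 3) ℤ) (v : Fin 3 → ℤ) :
    (z.map (Int.castRingHom ℝ)) *ᵥ cst v = cst (z *ᵥ v) := by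
  ext i
  simp [mulVec, dotProduct, cst, Matrix.map_apply]

theorem cst_neg (v : Fin 3 → ℤ) : cst (-v) = -cst v := by
  ext i; simp [cst]

theorem lamh_ge {B : Set GR} (hB : LatB B) {h h' : GR} (hh : h ∈ B) (hh' : h' ∈ B) (i : Fin 6) :
    xi h' i ∈ top h ∨ 1 < lamh h (xi h' i) := by
  obtain ⟨z, hz⟩ := (hB.2 h hh h').1 hh'
  have h1 : act h⁻¹.1 (xi h' i) = sqv (cst (z.1 *ᵥ rz i)) := by
    rw [xi, act_sqv, mulVec_mulVec, ← Units.val_mul, ← hz, ← cst_mul]
    rfl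
  have h0 : z.1 *ᵥ rz i ≠ 0 := by
    intro h2
    refine rz_ne i ?_
    have h3 : z⁻¹.1 *ᵥ (z.1 *ᵥ rz i) = rz i := by
      rw [mulVec_mulVec, ← Units.val_mul, inv_mul_cancel, Units.val_one, one_mulVec]
    rw [← h3, h2, mulVec_zero]
  have h4 : xi h' i = act h.1 (sqv (cst (z.1 *ᵥ rz i))) := by
    rw [← h1, act_act, mul_inv_val, act_one]
  rcases int_case _ h0 with ⟨j, hj⟩ | h5
  · left
    rw [mem_top]
    refine ⟨j, ?_⟩
    rw [h4]
    rcases hj with hj | hj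
    · rw [hj, act_sqv]; rfl
    · rw [hj, cst_neg, sqv_neg, act_sqv]; rfl
  · right
    rw [lamh, h1, lam_sqv]
    have h6 : (3 : ℝ) ≤ (((z.1 *ᵥ rz i) 0 ^ 2 + (z.1 *ᵥ rz i) 1 ^ 2 + (z.1 *ᵥ rz i) 2 ^ 2 +
      ((z.1 *ᵥ rz i) 0 + (z.1 *ᵥ rz i) 1 + (z.1 *ᵥ rz i) 2) ^ 2 : ℤ) : ℝ) := by exact_mod_cast h5
    linarith

theorem lamh_top {h : GR} {X : E} (hX : X ∈ top h) : lamh h X = 1 := by
  obtain ⟨i, rfl⟩ := mem_top.1 hX
  exact lamh_xi h i

theorem lamh_ge_one {B : Set GR} (hB : LatB B) {h h' : GR} (hh : h ∈ B) (hh' : h' ∈ B)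
    (i : Fin 6) : 1 ≤ lamh h (xi h' i) := by
  rcases lamh_ge hB hh hh' i with h1 | h1
  · rw [lamh_top h1]
  · exact h1.le

/-- the flips -/
def kf : Fin 6 → Matrix (Fin 3) (Fin 3) ℤ :=
  ![!![-1, 0, 0; 1, 1, 0; 1, 0, 1], !![1, 1, 0; 0, -1, 0; 0, 1, 1], !![1, 0, 1; 0, 1, 1; 0, 0, -1],
    !![1, 1, 1; 0, 1, 0; 0, -1, -1], !![1, 1, 1; 0, -1, -1; 0, 0, 1], !![0, -1, -1; 1, 1, 1; 0, 0, 1]]

theorem kf_sq (i : Fin 6) : kf i * kf i = 1 ∨ IsUnit (kf i).det := by
  right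
  rw [Int.isUnit_iff]
  revert i; decide

theorem kf_unit (i : Fin 6) : IsUnit (kf i) := by
  rw [Matrix.isUnit_iff_isUnit_det, Int.isUnit_iff]
  revert i; decide

theorem kf_perm : ∀ i j : Fin 6, i ≠ j →
    ∃ l : Fin 6, kf i *ᵥ rz l = rz j ∨ kf i *ᵥ rz l = - rz j := by decide

theorem kf_new : ∀ i : Fin 6, ∃ l : Fin 6, ∀ j : Fin 6, kf i *ᵥ rz l ≠ rz j ∧
    kf i *ᵥ rz l ≠ - rz j := by decide

end Pool.Agent.H520.CG3
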