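import Pool.Agent.H520.CG3.Lim
import Pool.Graph.R_pool_sql_team_seeded_3997aac3.Q4.GLC.Main
import Pool.Graph.R_pool_sql_team_seeded_3997aac3.Q4.GLC.Loc
import Pool.Graph.R_pool_sql_team_seeded_3997aac3.Q4.GLC.Per
import Pool.Graph.R_pool_sql_team_seeded_3997aac3.Q4.GLC.Par
import Pool.Graph.R_pool_sql_team_seeded_3997aac3.Q4.GLC.Cnt

/-!
# The Hecke operators at a good place (helper520, MP_34be05_nt)
-/

open Matrix NumberField IsDedekindDomain Q4.GLC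

namespace Pool.Agent.H520.CG3

/-- elements which commute with the local group and with the Hecke matrices at `v` -/
def Pv (v : Pl ℚ) (κ' : Gf ℚ 3) : Prop :=
  (∀ h ∈ Kv (F := ℚ) 3 v, κ' * h = h * κ') ∧
    ∀ ϖ : (Af ℚ)ˣ, IsUnif v ϖ → ∀ j, κ' * tm 3 ϖ j = tm 3 ϖ j * κ'

/-- the determinant -/
noncomputable abbrev dt3 : Gf ℚ 3 →* (Af ℚ)ˣ := Matrix.GeneralLinearGroup.det

theorem Kv_int {v : Pl ℚ} {κ : Gf ℚ 3} (h : κ ∈ Kv (F := ℚ) 3 v) (i j : Fin 3) :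
    Valued.v ((κ.1 i j) v) ≤ 1 := by
  have h1 := UN_int h.1 i j v
  rw [Nat.cast_one] at h1
  change Valued.v ((κ.1 i j) v) ≤ Valued.v (1 : v.adicCompletion ℚ) at h1
  rwa [map_one] at h1

section loc

variable {O W : Type} [CommRing O] [AddCommGroup W] [Module O W]

theorem mkLocD {K : Subgroup (Gf ℚ 3)} {ρ : Representation O K W}
    {v : Pl ℚ} (h1 : ∀ κ ∈ K, ∀ i j, Valued.v ((κ.1 i j) v) ≤ 1) (h2 : Kv 3 v ≤ K)
    (h3 : ∀ κ : K, κ.1 ∈ Kv (F := ℚ) 3 v → ρ κ = 1) : LocD K ρ dt3 (Kv 3 v) (Pv v) where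
  le := h2
  triv := h3
  dec κ hκ := by
    obtain ⟨g', l, hl, e, h4, h5⟩ := tLoc ℚ 3 v κ fun i j =>
      ⟨h1 κ hκ i j, h1 κ⁻¹ (K.inv_mem hκ) i j⟩
    exact ⟨g', ⟨h4, h5⟩, l, hl, e⟩
  com κ' hκ' := hκ'.1
  per A _ φ hφ g hg hd := by
    refine tPer tSre ℚ 0 v A φ (fun g hg h hh h4 h5 => hφ g hg h hh (Units.ext h4) (Units.ext h5)) g
      hg ?_
    have := congrArg Units.val hd
    simpa using this

end loc

/-- the structure of the Hecke operators -/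
theorem exHS (v : Pl ℚ) {ϖ : (Af ℚ)ˣ} (hϖ : IsUnif v ϖ) {j : ℕ} (hj : j ≤ 3) :
    ∃ (T : Finset (Gf ℚ 3 ⧸ Kv (F := ℚ) 3 v)) (s : Gf ℚ 3 ⧸ Kv (F := ℚ) 3 v → Gf ℚ 3),
      HS dt3 (Kv 3 v) (tm 3 ϖ j) T s :=
  (mkHD (k := ℚ) (W := ℚ) (K := Kv (F := ℚ) 3 v) (ρ := 1) tLoc tRep (tPer tSre) (tCnt tPar) le_rfl
    (fun κ hκ => Kv_int hκ) le_rfl (fun _ _ => rfl) hϖ hj).hs

theorem exHF (v : Pl ℚ) {ϖ : (Af ℚ)ˣ} (hϖ : IsUnif v ϖ) {j : ℕ} (hj : j ≤ 3) :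
    ∃ m : Fin (dgr (Kv (F := ℚ) 3 v) (tm 3 ϖ j)) → Gf ℚ 3,
      HF dt3 (Kv 3 v) (Pv v) m (ϖ ^ j) ∧
      ∀ {A : Type} [AddCommGroup A] (f : Gf ℚ 3 → A), RI (Kv 3 v) f →
        hecke (Kv 3 v) (tm 3 ϖ j) f = Tf m f := by
  classical
  obtain ⟨T, s, hs⟩ := exHS v hϖ hj
  have hT : HF dt3 (Kv (F := ℚ) 3 v) (Pv v) (fun c : T => s c.1 * tm 3 ϖ j) (ϖ ^ j) := by
    refine ⟨fun c => ?_, fun l hl => ?_, fun κ' hκ' c => ?_⟩
    · rw [map_mul, hs.det1 _ c.2, one_mul]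
      exact det_tm ϖ hj
    · refine ⟨⟨fun c => ⟨(⟨l, hl⟩ : Kv (F := ℚ) 3 v) • c.1, hs.smul _ _ c.2⟩,
        fun c => ⟨(⟨l, hl⟩ : Kv (F := ℚ) 3 v)⁻¹ • c.1, hs.smul _ _ c.2⟩,
        fun c => Subtype.ext (inv_smul_smul _ _), fun c => Subtype.ext (smul_inv_smul _ _)⟩,
        fun c => ?_⟩
      exact hs.perm ⟨l, hl⟩ c.2
    · rw [← mul_assoc, hκ'.1 _ (hs.memL _ c.2), mul_assoc, hκ'.2 ϖ hϖ, ← mul_assoc]
  have e : Fin (dgr (Kv (F := ℚ) 3 v) (tm 3 ϖ j)) ≃ T := by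
    refine (Fintype.equivFinOfCardEq ?_).symm
    rw [Fintype.card_coe, hs.card]
  refine ⟨_, hT.reindex e, fun {A} _ f hf => ?_⟩
  funext x
  rw [hs.heck f hf x, Tf, Equiv.sum_comp e (fun c : T => f (x * (s c.1 * tm 3 ϖ j))),
    Finset.sum_coe_sort T (fun c => f (x * (s c * tm 3 ϖ j)))]

theorem card_one (v : Pl ℚ) {ϖ : (Af ℚ)ˣ} (hϖ : IsUnif v ϖ) :
    dgr (Kv (F := ℚ) 3 v) (tm 3 ϖ 1) = qv v ^ 2 + qv v + 1 := by
  have h := (tCnt tPar ℚ 3 v ϖ hϖ 1 (by norm_num)).2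
  have hq := qv_two v
  simp only [Finset.prod_range_one, pow_one, pow_zero] at h
  have h3 : qv v ^ 3 - 1 = (qv v ^ 2 + qv v + 1) * (qv v - 1) := by
    obtain ⟨q, hq'⟩ : ∃ q, qv v = q + 1 := ⟨qv v - 1, by omega⟩
    rw [hq', Nat.add_sub_cancel]
    rw [Nat.sub_eq_iff_eq_add (Nat.one_le_pow _ _ (by omega))]
    ring
  rw [h3] at h
  exact Nat.eq_of_mul_eq_mul_right (by omega) h

theorem card_two (v : Pl ℚ) {ϖ : (Af ℚ)ˣ} (hϖ : IsUnif v ϖ) :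
    dgr (Kv (F := ℚ) 3 v) (tm 3 ϖ 2) = qv v ^ 2 + qv v + 1 := by
  have h := (tCnt tPar ℚ 3 v ϖ hϖ 2 (by norm_num)).2
  have hq := qv_two v
  simp only [Finset.prod_range_succ, Finset.prod_range_zero, one_mul, pow_one, pow_zero] at h
  have h3 : (qv v ^ 3 - 1) * (qv v ^ 3 - qv v) =
      (qv v ^ 2 + qv v + 1) * ((qv v ^ 2 - 1) * (qv v ^ 2 - qv v)) := by
    obtain ⟨q, hq'⟩ : ∃ q, qv v = q + 1 := ⟨qv v - 1, by omega⟩
    rw [hq']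
    have e1 : (q + 1) ^ 3 - 1 = q * (q ^ 2 + 3 * q + 3) := by
      rw [Nat.sub_eq_iff_eq_add (Nat.one_le_pow _ _ (by omega))]
      ring
    have e2 : (q + 1) ^ 3 - (q + 1) = (q + 1) * (q * (q + 2)) := by
      rw [Nat.sub_eq_iff_eq_add (Nat.le_self_pow (by norm_num) _)]
      ring
    have e3 : (q + 1) ^ 2 - 1 = q * (q + 2) := by
      rw [Nat.sub_eq_iff_eq_add (Nat.one_le_pow _ _ (by omega))]
      ring
    have e4 : (q + 1) ^ 2 - (q + 1) = (q + 1) * q := by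
      rw [Nat.sub_eq_iff_eq_add (Nat.le_self_pow (by norm_num) _)]
      ring
    rw [e1, e2, e3, e4]
    ring
  rw [h3] at h
  refine Nat.eq_of_mul_eq_mul_right ?_ h
  have h4 : 1 < qv v ^ 2 := Nat.one_lt_pow (by norm_num) (by omega)
  have h5 : qv v < qv v ^ 2 := by
    rw [sq]
    exact lt_mul_of_one_lt_right (by omega) (by omega)
  exact Nat.mul_pos (by omega) (by omega)

theorem card_three (v : Pl ℚ) {ϖ : (Af ℚ)ˣ} (hϖ : IsUnif v ϖ) :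
    dgr (Kv (F := ℚ) 3 v) (tm 3 ϖ 3) = 1 := by
  have h := (tCnt tPar ℚ 3 v ϖ hϖ 3 le_rfl).2
  have hq := qv_two v
  have h5 : 0 < ∏ i ∈ Finset.range 3, (qv v ^ 3 - qv v ^ i) := by
    refine Finset.prod_pos fun i hi => ?_
    rw [Finset.mem_range] at hi
    exact Nat.sub_pos_of_lt (Nat.pow_lt_pow_right (by omega) hi)
  refine Nat.eq_of_mul_eq_mul_right h5 ?_
  rw [one_mul]
  exact h

end Pool.Agent.H520.CG3
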