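import Pool.Agent.H520.CG3.Act

/-!
# Vanishing from relations of Hecke operators (helper520, MP_34be05_nt)
-/

open CategoryTheory groupCohomology Q4.GLC

namespace Pool.Agent.H520.CG3

section fam

variable {G D : Type} [Group G] [CommGroup D] {det : G →* D} {L : Subgroup G} {P : G → Prop}

theorem rel_mk {A B : Type} [Fintype A] [Fintype B] {a : A → G} {b : B → G} {δ : D}
    (ha : HF det L P a δ) (hb : HF det L P b δ) (hc : Fintype.card A = Fintype.card B) :
    ∃ m n : A → G, HF det L P m δ ∧ HF det L P n δ ∧ ∀ {W : Type} [AddCommGroup W] (f : G → W),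
      dl m n f = Tf a f - Tf b f := by
  have e : A ≃ B := Fintype.equivOfCardEq hc
  refine ⟨a, fun x => b (e x), ha, hb.reindex e, fun {W} _ f => ?_⟩
  rw [dl_eq]
  congr 1
  funext x
  exact Equiv.sum_comp e (fun c => f (x * b c))

theorem Tf_one {W : Type} [AddCommGroup W] {J B : Type} [Fintype J] [Fintype B] (b : B → G)
    (f : G → W) : Tf (fun p : J × B => 1 * b p.2) f = Fintype.card J • Tf b f := by
  funext x
  rw [Tf, Fintype.sum_prod_type, Pi.smul_apply, Tf]
  simp only [one_mul, Finset.sum_const, Finset.card_univ]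

end fam

section kill

variable {G H : Type} [Group G] [Group H] {ι : H →* G} {Γ : Subgroup H}
variable (p : ℕ) [Fact p.Prime] {O W : Type} [CommRing O] [Algebra ℤ_[p] O]
  [Module.Finite ℤ_[p] O] [AddCommGroup W] [Module O W] [Module.Finite O W]
variable {K : Subgroup G} {ρ : Representation O K W}
variable {D : Type} [CommGroup D] {det : G →* D} {U : ℕ → Subgroup G} {L : Subgroup G}
  {P : G → Prop} {T : Type} [CommRing T]

/-- `A` is the representation on the functions in `M_W` -/
structure IsModel (ι : H →* G) (Γ : Subgroup H) (K : Subgroup G) (ρ : Representation O K W)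
    (A : Rep.{0} O Γ) (vl : A →+ (G → W)) : Prop where
  inj : Function.Injective vl
  mem : ∀ a, vl a ∈ MM K ρ
  surj : ∀ f ∈ MM K ρ, ∃ a, vl a = f
  act : ∀ (γ : Γ) (a : A), vl (A.ρ γ a) = lt ι γ.1 (vl a)

variable {A : Rep.{0} O Γ} {vl : A →+ (G → W)}

include p in
theorem kill0 (hA : IsModel ι Γ K ρ A vl) (S : Sys ι Γ det U) (hK : ∃ N : ℕ, 1 ≤ N ∧ U N ≤ K)
    (hc : PCont p ρ U) (hL : LocD K ρ det L P) [Module T (groupCohomology A 0)]
    {B C : Type} [Fintype B] [Fintype C] {b : B → G} {c : C → G} {δ : D}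
    (hb : HF det L P b δ) (hc' : HF det L P c δ) (hcard : Fintype.card B = Fintype.card C)
    {t : T} (ht : Act0 A vl t (fun w => Tf b w - Tf c w))
    (x : groupCohomology A 0) : t ^ 3 • x = 0 := by
  have h0 : ∀ x : groupCohomology A 0, t • x = 0 := by
    refine ht.zero hA.inj fun f => ?_
    obtain ⟨m, n, hm, hn, e⟩ := rel_mk hb hc' hcard
    rw [← e]
    refine pnil0 p ρ S hK hc hL hm hn (hA.mem f.1) fun γ hγ x => ?_
    have h1 := congrArg vl (f.2 ⟨γ⁻¹, Γ.inv_mem hγ⟩)
    rw [hA.act] at h1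
    have h2 := congrFun h1 x
    change vl f.1 ((ι γ⁻¹)⁻¹ * x) = vl f.1 x at h2
    rw [map_inv, inv_inv] at h2
    exact h2
  rw [pow_succ, mul_smul, h0, smul_zero]

include p in
theorem kill1 (hA : IsModel ι Γ K ρ A vl) (S : Sys ι Γ det U) (hK : ∃ N : ℕ, 1 ≤ N ∧ U N ≤ K)
    (hc : PCont p ρ U) (hL : LocD K ρ det L P) [Module T (groupCohomology A 1)]
    {B C : Type} [Fintype B] [Fintype C] {b : B → G} {c : C → G} {δ : D}
    (hb : HF det L P b δ) (hc' : HF det L P c δ) (hcard : Fintype.card B = Fintype.card C)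
    {t : T} (ht : Act1 A vl t (fun w => Tf b w - Tf c w))
    (x : groupCohomology A 1) : t ^ 3 • x = 0 := by
  have h3 : t ^ 3 = t * (t * t) := by ring
  rw [h3]
  refine (ht.mul (ht.mul ht)).zero hA.inj (fun z => ?_) x
  obtain ⟨m, n, hm, hn, e⟩ := rel_mk hb hc' hcard
  obtain ⟨g, hg, h⟩ := pnil1 p ρ S hK hc hL hm hn (c := fun γ => vl (z γ))
    (fun γ => hA.mem _) (by
      intro γ δ
      have h1 := (mem_cocycles₁_iff _).1 z.2 γ δ
      have h2 := congrArg vl h1
      rw [map_add, add_comm, hA.act] at h2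
      exact h2)
  obtain ⟨a, rfl⟩ := hA.surj g hg
  refine ⟨a, fun γ => ?_⟩
  funext y
  have h1 := h γ y
  rw [e, e, e] at h1
  rw [map_sub, hA.act]
  exact h1

end kill

end Pool.Agent.H520.CG3
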