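import Pool.Agent.H520.CG3.Low

/-!
# From smooth to continuous coefficients (helper520, MP_34be05_nt)
-/

set_option linter.unusedSectionVars false

open Q4.GLC

namespace Pool.Agent.H520.CG3

section topo

variable (p : ℕ) [Fact p.Prime] (W : Type) [AddCommGroup W] [Module ℤ_[p] W]
  [Module.Finite ℤ_[p] W] [TopologicalSpace W] [IsModuleTopology ℤ_[p] W]

include p in
theorem compact_W : CompactSpace W := by
  obtain ⟨n, f, hf⟩ := Module.Finite.exists_fin' ℤ_[p] W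
  have : ContinuousAdd W := IsModuleTopology.toContinuousAdd ℤ_[p] W
  have hc : Continuous f := IsModuleTopology.continuous_of_linearMap f
  have h1 := isCompact_range hc
  rw [hf.range_eq] at h1
  exact ⟨h1⟩

theorem closed_W (N : Submodule ℤ_[p] W) : IsClosed (N : Set W) := by
  obtain ⟨n, f, hf⟩ := Module.Finite.exists_fin' ℤ_[p] W
  have hq : Topology.IsQuotientMap f := IsModuleTopology.isQuotientMap_of_surjective hf
  rw [← hq.isClosed_preimage]
  have h1 : f ⁻¹' (N : Set W) = ((N.comap f : Submodule ℤ_[p] (Fin n → ℤ_[p])) : Set _) := rfl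
  rw [h1]
  have : Module.Finite ℤ_[p] (N.comap f : Submodule ℤ_[p] (Fin n → ℤ_[p])) := inferInstance
  obtain ⟨k, g, hg⟩ := Module.Finite.exists_fin' ℤ_[p]
    (N.comap f : Submodule ℤ_[p] (Fin n → ℤ_[p]))
  have hc : Continuous ((Submodule.subtype _).comp g) := IsModuleTopology.continuous_of_linearMap _
  have h2 := (isCompact_range hc).isClosed
  have h3 : Set.range ((Submodule.subtype (N.comap f)).comp g) =
      ((N.comap f : Submodule ℤ_[p] (Fin n → ℤ_[p])) : Set _) := by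
    rw [LinearMap.coe_comp, Set.range_comp, hg.range_eq, Set.image_univ]
    exact Subtype.range_coe
  rwa [h3] at h2

end topo

section lim

variable {G H : Type} [Group G] [Group H] {ι : H →* G} {Γ : Subgroup H}
variable (p : ℕ) [Fact p.Prime] {O W : Type} [CommRing O] [Algebra ℤ_[p] O]
  [Module.Finite ℤ_[p] O] [AddCommGroup W] [Module O W] [Module.Finite O W]
variable {K : Subgroup G} (ρ : Representation O K W)

/-- the submodule `p ^ r W` -/
def Pr (r : ℕ) (O W : Type) [CommRing O] [AddCommGroup W] [Module O W] : Submodule O W :=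
  LinearMap.range (LinearMap.lsmul O W ((p : O) ^ r))

theorem mem_Pr {r : ℕ} {w : W} : w ∈ Pr p r O W ↔ ∃ w', (p : O) ^ r • w' = w := Iff.rfl

theorem Pr_succ (r : ℕ) : Pr p (r + 1) O W ≤ Pr p r O W := by
  rintro w ⟨w', hw⟩
  refine ⟨(p : O) • w', ?_⟩
  rw [← hw]
  change (p : O) ^ r • (p : O) • w' = (p : O) ^ (r + 1) • w'
  rw [← mul_smul, pow_succ]

theorem rho_Pr (r : ℕ) (κ : K) : Pr p r O W ≤ (Pr p r O W).comap (ρ κ) := by
  rintro w ⟨w', hw⟩
  refine ⟨ρ κ w', ?_⟩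
  rw [← hw]
  exact (map_smul (ρ κ) _ _).symm

/-- the representation on `W / p ^ r W` -/
def rhoQ (r : ℕ) : Representation O K (W ⧸ Pr p r O W) where
  toFun κ := (Pr p r O W).mapQ (Pr p r O W) (ρ κ) (rho_Pr p ρ r κ)
  map_one' := by
    refine Submodule.linearMap_qext _ ?_
    refine LinearMap.ext fun w => ?_
    simp
  map_mul' κ κ' := by
    refine Submodule.linearMap_qext _ ?_
    refine LinearMap.ext fun w => ?_
    simp

theorem rhoQ_mk (r : ℕ) (κ : K) (w : W) :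
    rhoQ p ρ r κ ((Pr p r O W).mkQ w) = (Pr p r O W).mkQ (ρ κ w) := rfl

/-- the lift of a function -/
theorem lift_mm (r : ℕ) {g : G → W ⧸ Pr p r O W} (hg : g ∈ MM K (rhoQ p ρ r)) :
    ∃ f ∈ MM K ρ, ∀ x, (Pr p r O W).mkQ (f x) = g x := by
  choose l hl using (Pr p r O W).mkQ_surjective
  refine ⟨fun x => ρ (kp K x)⁻¹ (l (g (rp K x))), fun κ x => ?_, fun x => ?_⟩
  · simp only
    rw [rp_mul, kp_mul, rho_mul, _root_.mul_inv_rev]
  · rw [← rhoQ_mk, hl]
    have h1 := hg (kp K x) (rp K x)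
    rw [rp_kp] at h1
    exact h1.symm

/-- the intersection of the `p ^ r W` is zero -/
theorem inter_Pr {w : W} (h : ∀ r, w ∈ Pr p r O W) : w = 0 := by
  let : Module ℤ_[p] W := Module.compHom W (algebraMap ℤ_[p] O)
  have : IsScalarTower ℤ_[p] O W := ⟨fun a b c => by
    rw [Algebra.smul_def, mul_smul]; rfl⟩
  have : Module.Finite ℤ_[p] W := Module.Finite.trans O W
  have h1 := Ideal.iInf_pow_smul_eq_bot_of_isLocalRing (R := ℤ_[p]) (M := W)
    (IsLocalRing.maximalIdeal ℤ_[p]) Ideal.IsPrime.ne_top'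
  have h2 : w ∈ (⨅ i : ℕ, IsLocalRing.maximalIdeal ℤ_[p] ^ i • (⊤ : Submodule ℤ_[p] W)) := by
    rw [Submodule.mem_iInf]
    intro r
    obtain ⟨w', hw⟩ := (mem_Pr p).1 (h r)
    have h3 : (p : ℤ_[p]) ^ r • w' = w := by
      rw [← hw]
      change algebraMap ℤ_[p] O ((p : ℤ_[p]) ^ r) • w' = _
      rw [map_pow, map_natCast]
    rw [← h3]
    refine Submodule.smul_mem_smul (Ideal.pow_mem_pow ?_ r) trivial
    rw [PadicInt.maximalIdeal_eq_span_p]
    exact Ideal.mem_span_singleton_self _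
  rw [h1] at h2
  exact h2

/-- a class which is a coboundary modulo all powers of `p` is a coboundary -/
theorem glue (c : Γ → G → W) (h : ∀ r : ℕ, ∃ g ∈ MM K ρ, ∀ (γ : Γ) (x : G),
      c γ x - (g ((ι γ.1)⁻¹ * x) - g x) ∈ Pr p r O W) :
    ∃ g ∈ MM K ρ, ∀ (γ : Γ) (x : G), c γ x = g ((ι γ.1)⁻¹ * x) - g x := by
  let : Module ℤ_[p] W := Module.compHom W (algebraMap ℤ_[p] O)
  have : IsScalarTower ℤ_[p] O W := ⟨fun a b c => by
    rw [Algebra.smul_def, mul_smul]; rfl⟩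
  have : Module.Finite ℤ_[p] W := Module.Finite.trans O W
  let : TopologicalSpace W := moduleTopology ℤ_[p] W
  have : IsModuleTopology ℤ_[p] W := ⟨rfl⟩
  have : ContinuousAdd W := IsModuleTopology.toContinuousAdd ℤ_[p] W
  have : IsTopologicalAddGroup W := IsModuleTopology.topologicalAddGroup ℤ_[p] W
  have : CompactSpace W := compact_W p W
  have hcl : ∀ N : Submodule O W, IsClosed (N : Set W) := by
    intro N
    have := closed_W p W (N.restrictScalars ℤ_[p])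
    exact this
  have hρ : ∀ κ : K, Continuous (ρ κ) := fun κ =>
    IsModuleTopology.continuous_of_linearMap ((ρ κ).restrictScalars ℤ_[p])
  let C : ℕ → Set (G → W) := fun r => {g | g ∈ MM K ρ ∧ ∀ (γ : Γ) (x : G),
    c γ x - (g ((ι γ.1)⁻¹ * x) - g x) ∈ Pr p r O W}
  have hMM : IsClosed {g : G → W | g ∈ MM K ρ} := by
    have e : {g : G → W | g ∈ MM K ρ} = ⋂ (κ : K) (x : G),
        (fun g : G → W => g (x * κ) - ρ κ⁻¹ (g x)) ⁻¹' ((⊥ : Submodule O W) : Set W) := by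
      ext g
      rw [Set.mem_iInter₂]
      constructor
      · intro h κ x
        change g (x * κ) - ρ κ⁻¹ (g x) ∈ (⊥ : Submodule O W)
        rw [Submodule.mem_bot, h κ x, sub_self]
      · intro h κ x
        have h1 : g (x * κ) - ρ κ⁻¹ (g x) ∈ (⊥ : Submodule O W) := h κ x
        rw [Submodule.mem_bot] at h1
        exact sub_eq_zero.1 h1
    rw [e]
    refine isClosed_iInter fun κ => isClosed_iInter fun x => ?_
    refine (hcl ⊥).preimage ?_
    exact (continuous_apply _).sub ((hρ _).comp (continuous_apply _))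
  have hC : ∀ r, IsClosed (C r) := by
    intro r
    change IsClosed ({g : G → W | g ∈ MM K ρ} ∩ {g : G → W | ∀ (γ : Γ) (x : G),
      c γ x - (g ((ι γ.1)⁻¹ * x) - g x) ∈ Pr p r O W})
    refine hMM.inter ?_
    have e : {g : G → W | ∀ (γ : Γ) (x : G), c γ x - (g ((ι γ.1)⁻¹ * x) - g x) ∈ Pr p r O W} =
        ⋂ (γ : Γ) (x : G), (fun g : G → W => c γ x - (g ((ι γ.1)⁻¹ * x) - g x)) ⁻¹'
          ((Pr p r O W : Submodule O W) : Set W) := by
      ext g
      rw [Set.mem_iInter₂]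
      rfl
    rw [e]
    refine isClosed_iInter fun γ => isClosed_iInter fun x => ?_
    refine (hcl _).preimage ?_
    exact continuous_const.sub ((continuous_apply _).sub (continuous_apply _))
  obtain ⟨g, hg⟩ := IsCompact.nonempty_iInter_of_sequence_nonempty_isCompact_isClosed C
    (fun r g hg => ⟨hg.1, fun γ x => Pr_succ p r (hg.2 γ x)⟩)
    (fun r => h r) (hC 0).isCompact hC
  rw [Set.mem_iInter] at hg
  refine ⟨g, (hg 0).1, fun γ x => ?_⟩
  exact sub_eq_zero.1 (inter_Pr p (O := O) fun r => (hg r).2 γ x)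

/-- the action is continuous -/
def PCont (U : ℕ → Subgroup G) : Prop :=
  ∀ r : ℕ, ∃ N : ℕ, 1 ≤ N ∧ ∀ κ : K, κ.1 ∈ U N → ∀ w, ρ κ w - w ∈ Pr p r O W

variable {D : Type} [CommGroup D] {det : G →* D} {U : ℕ → Subgroup G} {L : Subgroup G}
  {P : G → Prop}

theorem smoothQ (S : Sys ι Γ det U) (hK : ∃ N : ℕ, 1 ≤ N ∧ U N ≤ K) (hc : PCont p ρ U) (r : ℕ) :
    ∃ N : ℕ, 1 ≤ N ∧ ∀ u ∈ U N, ∃ h : u ∈ K, rhoQ p ρ r ⟨u, h⟩ = 1 := by
  obtain ⟨N, hN, hNK⟩ := hK
  obtain ⟨M, hM, hMr⟩ := hc r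
  refine ⟨N * M, Nat.mul_pos hN hM, fun u hu => ⟨hNK (S.mono _ _ (Dvd.intro _ rfl) hu), ?_⟩⟩
  refine Submodule.linearMap_qext _ ?_
  refine LinearMap.ext fun w => ?_
  change (Pr p r O W).mkQ (ρ ⟨u, _⟩ w) = (Pr p r O W).mkQ w
  rw [← sub_eq_zero, ← map_sub]
  exact (Submodule.Quotient.mk_eq_zero _).2 (hMr ⟨u, _⟩ (S.mono _ _ (Dvd.intro_left _ rfl) hu) w)

theorem LocD.quo (hL : LocD K ρ det L P) (r : ℕ) : LocD K (rhoQ p ρ r) det L P where
  le := hL.le
  triv κ hκ := by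
    refine Submodule.linearMap_qext _ ?_
    refine LinearMap.ext fun w => ?_
    change (Pr p r O W).mkQ (ρ κ w) = (Pr p r O W).mkQ w
    rw [hL.triv κ hκ]
    rfl
  dec := hL.dec
  com := hL.com
  per := hL.per

theorem mk_mm (r : ℕ) {f : G → W} (hf : f ∈ MM K ρ) :
    (fun x => (Pr p r O W).mkQ (f x)) ∈ MM K (rhoQ p ρ r) := by
  intro κ x
  change (Pr p r O W).mkQ (f (x * κ)) = rhoQ p ρ r κ⁻¹ ((Pr p r O W).mkQ (f x))
  rw [hf κ x, rhoQ_mk]

theorem mk_dl {A : Type} [Fintype A] (m n : A → G) (r : ℕ) (f : G → W) :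
    dl m n (fun x => (Pr p r O W).mkQ (f x)) = fun x => (Pr p r O W).mkQ (dl m n f x) := by
  funext x
  simp only [dl, map_sum, map_sub]

/-- degree zero -/
theorem pnil0 (S : Sys ι Γ det U) (hK : ∃ N : ℕ, 1 ≤ N ∧ U N ≤ K) (hc : PCont p ρ U)
    (hL : LocD K ρ det L P) {A : Type} [Fintype A] {m n : A → G} {δ : D}
    (hm : HF det L P m δ) (hn : HF det L P n δ) {f : G → W} (hf : f ∈ MM K ρ)
    (hΓ : LI ι Γ f) : dl m n f = 0 := by
  funext x
  refine inter_Pr p (O := O) fun r => ?_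
  have h1 := nil0 S (smoothQ p ρ S hK hc r) hm hn (mk_mm p ρ r hf)
    (fun γ hγ x => congrArg _ (hΓ γ hγ x))
  rw [mk_dl] at h1
  exact (Submodule.Quotient.mk_eq_zero _).1 (congrFun h1 x)

/-- degree one -/
theorem pnil1 (S : Sys ι Γ det U) (hK : ∃ N : ℕ, 1 ≤ N ∧ U N ≤ K) (hc : PCont p ρ U)
    (hL : LocD K ρ det L P) {A : Type} [Fintype A] {m n : A → G} {δ : D}
    (hm : HF det L P m δ) (hn : HF det L P n δ) {c : Γ → G → W} (hcM : ∀ γ, c γ ∈ MM K ρ)
    (hco : IsCo ι Γ c) :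
    ∃ g ∈ MM K ρ, ∀ (γ : Γ) (x : G), dl m n (dl m n (dl m n (c γ))) x =
      g ((ι γ.1)⁻¹ * x) - g x := by
  refine glue p ρ (fun γ => dl m n (dl m n (dl m n (c γ)))) fun r => ?_
  have hco' : IsCo ι Γ (fun γ x => (Pr p r O W).mkQ (c γ x)) := by
    intro γ δ
    funext x
    change (Pr p r O W).mkQ (c (γ * δ) x) =
      (Pr p r O W).mkQ (c γ x) + (Pr p r O W).mkQ (c δ ((ι γ.1)⁻¹ * x))
    rw [hco.app, map_add]
  obtain ⟨g, hg, e⟩ := nil1 S (smoothQ p ρ S hK hc r) (hL.quo p ρ r) hm hn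
    (fun γ => mk_mm p ρ r (hcM γ)) hco'
  obtain ⟨f, hf, hfg⟩ := lift_mm p ρ r hg
  refine ⟨f, hf, fun γ x => ?_⟩
  have h1 := congrFun (e γ) x
  rw [mk_dl, mk_dl, mk_dl] at h1
  replace h1 : (Pr p r O W).mkQ (dl m n (dl m n (dl m n (c γ))) x) =
    g ((ι γ.1)⁻¹ * x) - g x := h1
  refine (Submodule.Quotient.mk_eq_zero _).1 ?_
  change (Pr p r O W).mkQ _ = 0
  rw [map_sub, map_sub, h1, hfg, hfg]
  exact sub_self _

end lim

end Pool.Agent.H520.CG3
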