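import Pool.Agent.H520.CG3.Mod

/-!
# Relations of Hecke operators in degrees zero and one (helper520, MP_34be05_nt)

The proofs are variants of those of `Q4/GLC/CaseA.lean`, `Q4/GLC/CaseB1.lean`, `Q4/SPC/Nil.lean`.
-/

set_option linter.unusedSectionVars false

open Q4.GLC

namespace Pool.Agent.H520.CG3

variable {G H D O W : Type} [Group G] [Group H] [CommGroup D] [CommRing O] [AddCommGroup W]
  [Module O W]

/-- the local data -/
structure LocD (K : Subgroup G) (ρ : Representation O K W) (det : G →* D) (L : Subgroup G)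
    (P : G → Prop) : Prop where
  le : L ≤ K
  triv : ∀ κ : K, κ.1 ∈ L → ρ κ = 1
  dec : ∀ κ ∈ K, ∃ κ' : G, P κ' ∧ ∃ l ∈ L, κ = κ' * l
  com : ∀ κ', P κ' → ∀ h ∈ L, κ' * h = h * κ'
  per : ∀ (A : Type) [AddCommGroup A] (φ : G → A),
    (∀ g ∈ L, ∀ h ∈ L, det g = 1 → det h = 1 → φ (g * h) = φ g + φ h) →
    ∀ g ∈ L, det g = 1 → φ g = 0

/-- a family of representatives of a Hecke operator -/
structure HF (det : G →* D) (L : Subgroup G) (P : G → Prop) {A : Type} (m : A → G) (δ : D) :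
    Prop where
  dd : ∀ a, det (m a) = δ
  perm : ∀ l ∈ L, ∃ π : Equiv.Perm A, ∀ a, ∃ k ∈ L, det k = det l ∧ l * m a = m (π a) * k
  comm : ∀ κ', P κ' → ∀ a, κ' * m a = m a * κ'

theorem HF.mul {det : G →* D} {L : Subgroup G} {P : G → Prop} {A B : Type} {m : A → G}
    {n : B → G} {δ ε : D} (hm : HF det L P m δ) (hn : HF det L P n ε) :
    HF det L P (fun p : A × B => m p.1 * n p.2) (δ * ε) where
  dd p := by rw [map_mul, hm.dd, hn.dd]
  perm l hl := by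
    obtain ⟨π, hπ⟩ := hm.perm l hl
    choose k hk hkd hke using hπ
    choose π' hπ' using fun a => hn.perm (k a) (hk a)
    refine ⟨Equiv.prodShear π π', fun p => ?_⟩
    obtain ⟨k', hk', hd', e'⟩ := hπ' p.1 p.2
    refine ⟨k', hk', hd'.trans (hkd p.1), ?_⟩
    rw [← mul_assoc, hke, mul_assoc, e', ← mul_assoc]
    rfl
  comm κ' hκ' p := by
    rw [← mul_assoc, hm.comm κ' hκ', mul_assoc, hn.comm κ' hκ', ← mul_assoc]

theorem HF.one (det : G →* D) (L : Subgroup G) (P : G → Prop) (J : Type) :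
    HF det L P (fun _ : J => (1 : G)) 1 where
  dd _ := map_one det
  perm l hl := ⟨Equiv.refl _, fun _ => ⟨l, hl, rfl, by rw [mul_one, one_mul]⟩⟩
  comm κ' _ _ := by rw [mul_one, one_mul]

theorem HF.reindex {det : G →* D} {L : Subgroup G} {P : G → Prop} {A B : Type} {m : A → G}
    {δ : D} (hm : HF det L P m δ) (e : B ≃ A) : HF det L P (fun b => m (e b)) δ where
  dd b := hm.dd _
  perm l hl := by
    obtain ⟨π, hπ⟩ := hm.perm l hl
    refine ⟨(e.trans π).trans e.symm, fun b => ?_⟩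
    obtain ⟨k, hk, hd, h⟩ := hπ (e b)
    refine ⟨k, hk, hd, ?_⟩
    rw [h]
    simp
  comm κ' hκ' b := hm.comm κ' hκ' _

/-- the operator of a family -/
def Tf {A : Type} [Fintype A] (m : A → G) (f : G → W) : G → W := fun x => ∑ a, f (x * m a)

/-- the difference of the operators of two families -/
def dl {A : Type} [Fintype A] (m n : A → G) (f : G → W) : G → W :=
  fun x => ∑ a, (f (x * m a) - f (x * n a))

theorem Tf_mul {A B : Type} [Fintype A] [Fintype B] (m : A → G) (n : B → G) (f : G → W) :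
    Tf m (Tf n f) = Tf (fun p : A × B => m p.1 * n p.2) f := by
  funext x
  rw [Tf, Tf, Fintype.sum_prod_type]
  refine Finset.sum_congr rfl fun a _ => Finset.sum_congr rfl fun b _ => ?_
  rw [mul_assoc]

variable {ι : H →* G} {Γ : Subgroup H} {det : G →* D} {U : ℕ → Subgroup G}
variable {K : Subgroup G} {ρ : Representation O K W} {L : Subgroup G} {P : G → Prop}

theorem LocD.dec' (hL : LocD K ρ det L P) (κ : K) : ∃ κ' : K, P κ'.1 ∧ ∃ l ∈ L, κ.1 = κ'.1 * l ∧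
    ρ κ' = ρ κ := by
  obtain ⟨κ', hP, l, hl, e⟩ := hL.dec κ.1 κ.2
  have hκ' : κ' ∈ K := by
    have : κ' = κ.1 * l⁻¹ := by rw [e]; group
    rw [this]
    exact K.mul_mem κ.2 (K.inv_mem (hL.le hl))
  refine ⟨⟨κ', hκ'⟩, hP, l, hl, e, ?_⟩
  have : κ = ⟨κ', hκ'⟩ * ⟨l, hL.le hl⟩ := Subtype.ext e
  rw [this, map_mul, hL.triv ⟨l, hL.le hl⟩ hl, mul_one]

/-- the elements of `K` with trivial action -/
def KRO (K : Subgroup G) (ρ : Representation O K W) : Subgroup G := (MonoidHom.ker ρ).map K.subtype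

theorem mem_KRO {x : G} : x ∈ KRO K ρ ↔ ∃ h : x ∈ K, ρ ⟨x, h⟩ = 1 := by
  constructor
  · rintro ⟨y, hy, rfl⟩
    exact ⟨y.2, hy⟩
  · rintro ⟨h, e⟩
    exact ⟨⟨x, h⟩, e, rfl⟩

theorem KRO_conj {x : G} (hx : x ∈ KRO K ρ) (κ : K) : κ.1⁻¹ * x * κ.1 ∈ KRO K ρ := by
  obtain ⟨y, hy, rfl⟩ := hx
  refine ⟨κ⁻¹ * y * κ, ?_, rfl⟩
  have hy' : ρ y = 1 := hy
  change ρ (κ⁻¹ * y * κ) = 1
  rw [map_mul, map_mul, hy', mul_one, ← map_mul, inv_mul_cancel, map_one]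

theorem rho_inv (κ : K) (w : W) : ρ κ⁻¹ (ρ κ w) = w := by
  rw [rho_mul, inv_mul_cancel, rho_one]

theorem rho_inv' (κ : K) (w : W) : ρ κ (ρ κ⁻¹ w) = w := by
  rw [rho_mul, mul_inv_cancel, rho_one]

theorem mm_ri {f : G → W} (hf : f ∈ MM K ρ) : RI (KRO K ρ) f := by
  intro u hu x
  obtain ⟨h, e⟩ := mem_KRO.1 hu
  have h1 : f (x * u) = ρ (⟨u, h⟩ : K)⁻¹ (f x) := hf ⟨u, h⟩ x
  have h2 := rho_inv (ρ := ρ) ⟨u, h⟩ (f x)
  rw [e] at h2
  rw [h1]
  exact h2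

/-- smooth functions -/
def IsSm (U : ℕ → Subgroup G) (f : G → W) : Prop := ∃ M : ℕ, 1 ≤ M ∧ RI (U M) f

theorem sm_trans (S : Sys ι Γ det U) {f : G → W} (hf : IsSm U f) (g : G) :
    IsSm U (fun x => f (x * g)) := by
  obtain ⟨M, hM, h⟩ := hf
  obtain ⟨M', hM', -, h2⟩ := S.den g⁻¹ M hM
  refine ⟨M', hM', fun u hu x => ?_⟩
  have h3 := h2 u hu
  rw [inv_inv] at h3
  change f (x * u * g) = f (x * g)
  rw [← h _ h3 (x * g)]
  congr 1
  group

theorem sm_sum (S : Sys ι Γ det U) {I : Type} (T : Finset I) (f : I → G → W)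
    (hf : ∀ i ∈ T, IsSm U (f i)) : IsSm U (fun x => ∑ i ∈ T, f i x) := by
  classical
  induction T using Finset.induction_on with
  | empty => exact ⟨1, le_rfl, fun u _ x => by simp⟩
  | insert i T hi ih =>
    obtain ⟨M, hM, h⟩ := hf i (Finset.mem_insert_self i T)
    obtain ⟨M', hM', h'⟩ := ih fun j hj => hf j (Finset.mem_insert_of_mem hj)
    refine ⟨M * M', Nat.mul_pos hM hM', fun u hu x => ?_⟩
    simp only [Finset.sum_insert hi]
    rw [h u (S.mono _ _ (Dvd.intro _ rfl) hu)]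
    congr 1
    exact h' u (S.mono _ _ (Dvd.intro_left _ rfl) hu) x

theorem sm_fix (S : Sys ι Γ det U) {f : G → W} (h1 : IsSm U f) (h2 : LI ι Γ f) {g : G}
    (hg : det g = 1) (x : G) : f (x * g) = f x := by
  obtain ⟨M, hM, h⟩ := h1
  obtain ⟨γ, hγ, w, hw, e⟩ := S.dg' (g := g)
    (mem_DG.2 ⟨1, Γ.one_mem, by rw [map_one, map_one, hg]⟩) x M hM
  rw [e, h w hw, h2 γ hγ]

theorem sm_fix_comm (S : Sys ι Γ det U) {f : G → W} (h1 : IsSm U f) (h2 : LI ι Γ f) {g h : G}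
    (hd : det g = det h) (x : G) : f (x * g) = f (x * h) := by
  have : g = h * (h⁻¹ * g) := by group
  rw [this, ← mul_assoc]
  refine sm_fix S h1 h2 ?_ _
  rw [map_mul, map_inv, hd, inv_mul_cancel]

/-- the operators act on the functions in `M_W` -/
theorem Tf_mm (hL : LocD K ρ det L P) {A : Type} [Fintype A] {m : A → G} {δ : D}
    (hm : HF det L P m δ) {f : G → W} (hf : f ∈ MM K ρ) : Tf m f ∈ MM K ρ := by
  intro κ x
  obtain ⟨κ', hP, l, hl, e1, e2⟩ := hL.dec' κ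
  obtain ⟨π, hπ⟩ := hm.perm l hl
  have hfL : RI L f := fun l hl x => mm_ri hf l (mem_KRO.2 ⟨hL.le hl, hL.triv ⟨l, hL.le hl⟩ hl⟩) x
  have h1 : ∀ a, f (x * κ * m a) = ρ κ⁻¹ (f (x * m (π a))) := by
    intro a
    obtain ⟨k, hk, -, e3⟩ := hπ a
    have e4 : x * κ.1 * m a = x * m (π a) * κ'.1 * k := by
      rw [e1]
      calc x * (κ'.1 * l) * m a = x * κ'.1 * (l * m a) := by group
        _ = x * (κ'.1 * m (π a)) * k := by rw [e3]; group
        _ = _ := by rw [hm.comm _ hP]; group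
    rw [e4, hfL k hk, hf κ']
    have e5 : ρ κ'⁻¹ = ρ κ⁻¹ := by
      refine LinearMap.ext fun w => ?_
      have h2 : ρ κ (ρ κ'⁻¹ w) = w := by rw [← e2]; exact rho_inv' _ _
      rw [← rho_inv (ρ := ρ) κ (ρ κ'⁻¹ w), h2]
    rw [e5]
  rw [Tf, Finset.sum_congr rfl fun a _ => h1 a, Tf, map_sum]
  exact Equiv.sum_comp π (fun a => ρ κ⁻¹ (f (x * m a)))

theorem dl_eq {A : Type} [Fintype A] (m n : A → G) (f : G → W) : dl m n f = Tf m f - Tf n f := by
  funext x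
  rw [Pi.sub_apply, dl, Tf, Tf, Finset.sum_sub_distrib]

theorem dl_mm (hL : LocD K ρ det L P) {A : Type} [Fintype A] {m n : A → G} {δ : D}
    (hm : HF det L P m δ) (hn : HF det L P n δ) {f : G → W} (hf : f ∈ MM K ρ) :
    dl m n f ∈ MM K ρ := by
  rw [dl_eq]
  exact (MM K ρ).sub_mem (Tf_mm hL hm hf) (Tf_mm hL hn hf)

theorem dl_co {A : Type} [Fintype A] (m n : A → G) {c : Γ → G → W} (hc : IsCo ι Γ c) :
    IsCo ι Γ (fun γ => dl m n (c γ)) := by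
  intro γ δ
  funext x
  rw [Pi.add_apply]
  change ∑ a, (c (γ * δ) (x * m a) - c (γ * δ) (x * n a)) = ∑ a, (c γ (x * m a) - c γ (x * n a)) +
    ∑ a, (c δ ((ι γ.1)⁻¹ * x * m a) - c δ ((ι γ.1)⁻¹ * x * n a))
  rw [← Finset.sum_add_distrib]
  refine Finset.sum_congr rfl fun a _ => ?_
  rw [hc.app, hc.app, mul_assoc, mul_assoc]
  abel

/-- degree zero -/
theorem nil0 (S : Sys ι Γ det U) (hK : ∃ N : ℕ, 1 ≤ N ∧ ∀ u ∈ U N, ∃ h : u ∈ K, ρ ⟨u, h⟩ = 1)
    {A : Type} [Fintype A] {m n : A → G} {δ : D} (hm : HF det L P m δ) (hn : HF det L P n δ)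
    {f : G → W} (hf : f ∈ MM K ρ) (hΓ : LI ι Γ f) : dl m n f = 0 := by
  obtain ⟨N, hN, hKN⟩ := hK
  have hsm : IsSm U f := ⟨N, hN, fun u hu x => mm_ri hf u (mem_KRO.2 (hKN u hu)) x⟩
  funext x
  refine Finset.sum_eq_zero fun a _ => ?_
  rw [sm_fix_comm S hsm hΓ ((hm.dd a).trans (hn.dd a).symm), sub_self]

/-- first step: coboundary of a smooth function -/
theorem step1 (S : Sys ι Γ det U) (hK : ∃ N : ℕ, 1 ≤ N ∧ ∀ u ∈ U N, ∃ h : u ∈ K, ρ ⟨u, h⟩ = 1)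
    {A : Type} [Fintype A] {m n : A → G} {δ : D} (hm : HF det L P m δ) (hn : HF det L P n δ)
    {c : Γ → G → W} (hc : ∀ γ, c γ ∈ MM K ρ) (hco : IsCo ι Γ c) :
    ∃ f : G → W, IsSm U f ∧ ∀ γ : Γ, dl m n (c γ) = lt ι γ.1 f - f := by
  obtain ⟨N, hN, hKN⟩ := hK
  have hVN : ∀ γ, RI (U N) (c γ) := fun γ u hu x => mm_ri (hc γ) u (mem_KRO.2 (hKN u hu)) x
  have h1 : ∀ a, ∃ f : G → W, IsSm U f ∧
      ∀ γ : Γ, (fun x => c γ (x * m a) - c γ (x * n a)) = lt ι γ.1 f - f := by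
    intro a
    obtain ⟨M, hM, f, hf, e⟩ := S.key3 hN hco hVN (g := (n a)⁻¹ * m a) (mem_DG.2
      ⟨1, Γ.one_mem, by rw [map_one, map_one, map_mul, map_inv, hm.dd, hn.dd, inv_mul_cancel]⟩)
    refine ⟨fun x => f (x * n a), sm_trans S ⟨M, hM, hf⟩ _, fun γ => ?_⟩
    funext x
    have h2 := congrFun (e γ) (x * n a)
    have e2 : x * n a * ((n a)⁻¹ * m a) = x * m a := by group
    rw [e2] at h2
    rw [h2]
    change f ((ι γ.1)⁻¹ * (x * n a)) - f (x * n a) = f ((ι γ.1)⁻¹ * x * n a) - f (x * n a)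
    rw [mul_assoc]
  choose f hf using h1
  refine ⟨fun x => ∑ a, f a x, sm_sum S _ f fun a _ => (hf a).1, fun γ => ?_⟩
  funext x
  rw [Pi.sub_apply]
  change _ = ∑ a, f a ((ι γ.1)⁻¹ * x) - ∑ a, f a x
  rw [← Finset.sum_sub_distrib]
  exact Finset.sum_congr rfl fun a _ => congrFun ((hf a).2 γ) x

theorem dl_cob {A : Type} [Fintype A] (m n : A → G) {c : Γ → G → W} {f : G → W}
    (hcf : ∀ γ : Γ, c γ = lt ι γ.1 f - f) (γ : Γ) :
    dl m n (c γ) = lt ι γ.1 (dl m n f) - dl m n f := by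
  funext x
  rw [Pi.sub_apply]
  change ∑ a, (c γ (x * m a) - c γ (x * n a)) = ∑ a, (f ((ι γ.1)⁻¹ * x * m a) -
    f ((ι γ.1)⁻¹ * x * n a)) - ∑ a, (f (x * m a) - f (x * n a))
  rw [← Finset.sum_sub_distrib]
  refine Finset.sum_congr rfl fun a _ => ?_
  rw [hcf]
  simp only [Pi.sub_apply, lt, mul_assoc]
  abel

/-- second step: coboundary of a function which is invariant under the kernel of `ρ` -/
theorem step2 (S : Sys ι Γ det U) (hL : LocD K ρ det L P)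
    {A : Type} [Fintype A] {m n : A → G} {δ : D} (hm : HF det L P m δ) (hn : HF det L P n δ)
    {c : Γ → G → W} (hc : ∀ γ, c γ ∈ MM K ρ) {f : G → W} (hfS : IsSm U f)
    (hcf : ∀ γ : Γ, c γ = lt ι γ.1 f - f) : RI (KRO K ρ) (dl m n f) := by
  have hLK : L ≤ KRO K ρ := fun l hl => mem_KRO.2 ⟨hL.le hl, hL.triv ⟨l, hL.le hl⟩ hl⟩
  have hKK : KRO K ρ ≤ K := fun x hx => (mem_KRO.1 hx).1
  have hc2 : ∀ (γ : Γ) (x : G), c γ x = f ((ι γ.1)⁻¹ * x) - f x := fun γ x => by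
    rw [hcf γ]; rfl
  have he2 : ∀ κ ∈ KRO K ρ, LI ι Γ (fun x => f (x * κ) - f x) := by
    intro κ hκ γ hγ x
    have h1 := mm_ri (hc ⟨γ⁻¹, Γ.inv_mem hγ⟩) κ hκ x
    rw [hc2, hc2] at h1
    simp only [map_inv, inv_inv] at h1
    change f (ι γ * x * κ) - f (ι γ * x) = f (x * κ) - f x
    rw [mul_assoc]
    rw [sub_eq_sub_iff_add_eq_add] at h1 ⊢
    rw [h1]
    abel
  have he1 : ∀ κ ∈ KRO K ρ, IsSm U (fun x => f (x * κ) - f x) := by
    intro κ _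
    obtain ⟨M, hM, h⟩ := hfS
    obtain ⟨M', hM', h'⟩ := sm_trans S ⟨M, hM, h⟩ κ
    refine ⟨M * M', Nat.mul_pos hM hM', fun u hu x => ?_⟩
    have h3 := h' u (S.mono _ _ (Dvd.intro_left _ rfl) hu) x
    have h4 := h u (S.mono _ _ (Dvd.intro _ rfl) hu) x
    change f (x * u * κ) - f (x * u) = f (x * κ) - f x
    rw [h4]
    congr 1
  have hed : ∀ κ ∈ KRO K ρ, ∀ a b x : G, det a = det b →
      f (x * a * κ) - f (x * a) = f (x * b * κ) - f (x * b) :=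
    fun κ hκ a b x h => sm_fix_comm S (he1 κ hκ) (he2 κ hκ) h x
  have hper : ∀ g ∈ L, det g = 1 → ∀ x, f (x * g) = f x := by
    intro g hg hd x
    have h1 : ∀ g ∈ L, ∀ h ∈ L, det g = 1 → det h = 1 →
        (fun x => f (x * (g * h)) - f x) = (fun x => f (x * g) - f x) + fun x => f (x * h) - f x := by
      intro g hg h hh hg1 _
      funext x
      change f (x * (g * h)) - f x = (f (x * g) - f x) + (f (x * h) - f x)
      have h2 := hed h (hLK hh) g 1 x (by rw [hg1, map_one])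
      rw [mul_one] at h2
      rw [← h2, ← mul_assoc]
      abel
    have h3 := hL.per (G → W) (fun g x => f (x * g) - f x) h1 g hg hd
    exact sub_eq_zero.1 (congrFun h3 x)
  intro κ hκ x
  obtain ⟨κ'', hP, l, hl, e1, e2⟩ := hL.dec' ⟨κ, hKK hκ⟩
  obtain ⟨κ', hκ'K⟩ := κ''
  simp only at hP e1
  have hκ' : κ' ∈ KRO K ρ := by
    obtain ⟨h, e⟩ := mem_KRO.1 hκ
    exact mem_KRO.2 ⟨hκ'K, e2.trans e⟩
  -- the general formula for a family
  have key : ∀ (m : A → G), HF det L P m δ → ∑ a, f (x * κ * m a) = ∑ a, (f (x * m a) +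
      ((f (x * m a * κ') - f (x * m a)) + (f (x * (m a * κ') * l) - f (x * (m a * κ'))))) := by
    intro m hm
    obtain ⟨π, hπ⟩ := hm.perm l hl
    rw [← Equiv.sum_comp π (fun a => (f (x * m a) +
      ((f (x * m a * κ') - f (x * m a)) + (f (x * (m a * κ') * l) - f (x * (m a * κ'))))))]
    refine Finset.sum_congr rfl fun a _ => ?_
    obtain ⟨k, hk, hkd, e3⟩ := hπ a
    have e4 : x * κ * m a = x * (m (π a) * κ') * l * (l⁻¹ * k) := by
      rw [e1]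
      calc x * (κ' * l) * m a = x * κ' * (l * m a) := by group
        _ = x * (κ' * m (π a)) * k := by rw [e3]; group
        _ = _ := by rw [hm.comm _ hP]; group
    have h2 : f (x * (m (π a) * κ') * l * (l⁻¹ * k)) = f (x * (m (π a) * κ') * l) := by
      refine hper _ (L.mul_mem (L.inv_mem hl) hk) ?_ _
      rw [map_mul, map_inv, hkd, inv_mul_cancel]
    rw [e4, h2, mul_assoc x (m (π a)) κ']
    abel
  change ∑ a, (f (x * κ * m a) - f (x * κ * n a)) = ∑ a, (f (x * m a) - f (x * n a))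
  rw [Finset.sum_sub_distrib, key m hm, key n hn, ← Finset.sum_sub_distrib]
  refine Finset.sum_congr rfl fun a _ => ?_
  have h3 := hed κ' hκ' (m a) (n a) x ((hm.dd a).trans (hn.dd a).symm)
  have h4 := hed l (hLK hl) (m a * κ') (n a * κ') x (by
    rw [map_mul, map_mul, hm.dd, hn.dd])
  rw [h3, h4]
  abel

/-- third step: coboundary -/
theorem step3 (S : Sys ι Γ det U) (hK : ∃ N : ℕ, 1 ≤ N ∧ ∀ u ∈ U N, ∃ h : u ∈ K, ρ ⟨u, h⟩ = 1)
    (hL : LocD K ρ det L P)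
    {A : Type} [Fintype A] {m n : A → G} {δ : D} (hm : HF det L P m δ) (hn : HF det L P n δ)
    {c : Γ → G → W} (hc : ∀ γ, c γ ∈ MM K ρ) {f : G → W}
    (hf : RI (KRO K ρ) f) (hcf : ∀ γ : Γ, c γ = lt ι γ.1 f - f) : dl m n f ∈ MM K ρ := by
  obtain ⟨N, hN, hKN⟩ := hK
  have hUN : U N ≤ KRO K ρ := fun u hu => mem_KRO.2 (hKN u hu)
  have hLK : L ≤ KRO K ρ := fun l hl => mem_KRO.2 ⟨hL.le hl, hL.triv ⟨l, hL.le hl⟩ hl⟩
  have hfL : RI L f := fun l hl x => hf l (hLK hl) x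
  -- the defect of `f`
  have he1 : ∀ κ : K, RI (KRO K ρ) (fun x => ρ κ (f (x * κ)) - f x) := by
    intro κ u hu x
    change ρ κ (f (x * u * κ)) - f (x * u) = ρ κ (f (x * κ)) - f x
    rw [hf u hu]
    have e1 : x * u * κ.1 = x * κ.1 * (κ.1⁻¹ * u * κ.1) := by group
    rw [e1, hf _ (KRO_conj hu κ)]
  have he2 : ∀ κ : K, LI ι Γ (fun x => ρ κ (f (x * κ)) - f x) := by
    intro κ γ hγ x
    have h1 : c ⟨γ⁻¹, Γ.inv_mem hγ⟩ (x * κ) = ρ κ⁻¹ (c ⟨γ⁻¹, Γ.inv_mem hγ⟩ x) :=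
      hc ⟨γ⁻¹, Γ.inv_mem hγ⟩ κ x
    rw [hcf] at h1
    have h2 := congrArg (ρ κ) h1
    rw [rho_inv'] at h2
    simp only [Pi.sub_apply, lt, map_inv, inv_inv, map_sub] at h2
    change ρ κ (f (ι γ * x * κ)) - f (ι γ * x) = ρ κ (f (x * κ)) - f x
    rw [mul_assoc]
    rw [sub_eq_sub_iff_add_eq_add] at h2 ⊢
    rw [h2]
    abel
  intro κ x
  obtain ⟨κ', hP, l, hl, e1, e2⟩ := hL.dec' κ
  have key : ∀ (m : A → G), HF det L P m δ → ρ κ (∑ a, f (x * κ * m a)) = ∑ a, (f (x * m a) +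
      (ρ κ' (f (x * m a * κ')) - f (x * m a))) := by
    intro m hm
    obtain ⟨π, hπ⟩ := hm.perm l hl
    rw [← Equiv.sum_comp π (fun a => (f (x * m a) +
      (ρ κ' (f (x * m a * κ')) - f (x * m a)))), map_sum]
    refine Finset.sum_congr rfl fun a _ => ?_
    obtain ⟨k, hk, hkd, e3⟩ := hπ a
    have e4 : x * κ.1 * m a = x * m (π a) * κ'.1 * k := by
      rw [e1]
      calc x * (κ'.1 * l) * m a = x * κ'.1 * (l * m a) := by group
        _ = x * (κ'.1 * m (π a)) * k := by rw [e3]; group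
        _ = _ := by rw [hm.comm _ hP]; group
    rw [e4, hfL k hk, ← e2]
    abel
  have h1 : ρ κ (dl m n f (x * κ)) = dl m n f x := by
    change ρ κ (∑ a, (f (x * κ * m a) - f (x * κ * n a))) = ∑ a, (f (x * m a) - f (x * n a))
    rw [Finset.sum_sub_distrib, map_sub, key m hm, key n hn, ← Finset.sum_sub_distrib]
    refine Finset.sum_congr rfl fun a _ => ?_
    have h3 := sm_fix_comm S (f := fun x => ρ κ' (f (x * κ')) - f x)
      ⟨N, hN, fun u hu x => he1 κ' u (hUN hu) x⟩ (he2 κ') ((hm.dd a).trans (hn.dd a).symm) x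
    rw [h3]
    abel
  rw [← h1, rho_inv]

/-- degree one -/
theorem nil1 (S : Sys ι Γ det U) (hK : ∃ N : ℕ, 1 ≤ N ∧ ∀ u ∈ U N, ∃ h : u ∈ K, ρ ⟨u, h⟩ = 1)
    (hL : LocD K ρ det L P)
    {A : Type} [Fintype A] {m n : A → G} {δ : D} (hm : HF det L P m δ) (hn : HF det L P n δ)
    {c : Γ → G → W} (hc : ∀ γ, c γ ∈ MM K ρ) (hco : IsCo ι Γ c) :
    ∃ g ∈ MM K ρ, ∀ γ : Γ, dl m n (dl m n (dl m n (c γ))) = lt ι γ.1 g - g := by
  obtain ⟨f1, hf1, e1⟩ := step1 S hK hm hn hc hco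
  have hc1 : ∀ γ, dl m n (c γ) ∈ MM K ρ := fun γ => dl_mm hL hm hn (hc γ)
  have hc2 : ∀ γ, dl m n (dl m n (c γ)) ∈ MM K ρ := fun γ => dl_mm hL hm hn (hc1 γ)
  have h2 := step2 S hL hm hn hc1 hf1 e1
  have e2 : ∀ γ : Γ, dl m n (dl m n (c γ)) = lt ι γ.1 (dl m n f1) - dl m n f1 :=
    fun γ => dl_cob m n e1 γ
  have h3 := step3 S hK hL hm hn hc2 h2 e2
  exact ⟨_, h3, fun γ => dl_cob m n e2 γ⟩

end Pool.Agent.H520.CG3
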