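import Pool.Agent.H520.CG3.Eqv
import Pool.Agent.H520.CG3.Coch

/-!
# The resolution of the module of functions (helper520, MP_34be05_nt)
-/

open Matrix NumberField IsDedekindDomain Q4.GLC

namespace Pool.Agent.H520.CG3

section gen

variable {G H O W : Type} [Group G] [Group H] [CommRing O] [AddCommGroup W] [Module O W]

/-- the functions `f` on `G` with `f (x κ) = κ⁻¹ f x` for `κ ∈ K` -/
def MM (K : Subgroup G) (ρ : Representation O K W) : Submodule O (G → W) where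
  carrier := {f | ∀ (κ : K) (x : G), f (x * κ) = ρ κ⁻¹ (f x)}
  zero_mem' := fun κ x => (map_zero (ρ κ⁻¹)).symm
  add_mem' := fun {f g} hf hg κ x => by
    rw [Pi.add_apply, Pi.add_apply, hf, hg, map_add]
  smul_mem' := fun a f hf κ x => by
    rw [Pi.smul_apply, Pi.smul_apply, hf, map_smul]

/-- the action of `Γ` by left translations -/
def mmRep (ι : H →* G) (Γ : Subgroup H) (K : Subgroup G) (ρ : Representation O K W) :
    Representation O Γ (MM K ρ) where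
  toFun γ :=
    { toFun := fun f => ⟨fun x => f.1 ((ι γ.1)⁻¹ * x), fun κ x => by
        have h := f.2 κ ((ι γ.1)⁻¹ * x)
        rw [mul_assoc] at h
        exact h⟩
      map_add' := fun _ _ => rfl
      map_smul' := fun _ _ => rfl }
  map_one' := by
    refine LinearMap.ext fun f => Subtype.ext (funext fun x => ?_)
    change f.1 ((ι (1 : Γ).1)⁻¹ * x) = f.1 x
    rw [Subgroup.coe_one, map_one, inv_one, one_mul]
  map_mul' γ δ := by
    refine LinearMap.ext fun f => Subtype.ext (funext fun x => ?_)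
    change f.1 ((ι (γ * δ).1)⁻¹ * x) = f.1 ((ι δ.1)⁻¹ * ((ι γ.1)⁻¹ * x))
    rw [Subgroup.coe_mul, map_mul, _root_.mul_inv_rev, mul_assoc]

theorem mmRep_apply (ι : H →* G) (Γ : Subgroup H) (K : Subgroup G) (ρ : Representation O K W)
    (γ : Γ) (f : MM K ρ) (x : G) : (mmRep ι Γ K ρ γ f).1 x = f.1 ((ι γ.1)⁻¹ * x) := rfl

theorem rho_mul (K : Subgroup G) (ρ : Representation O K W) (κ δ : K) (w : W) :
    ρ κ (ρ δ w) = ρ (κ * δ) w := by
  rw [map_mul]; rfl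

theorem rho_one (K : Subgroup G) (ρ : Representation O K W) (w : W) : ρ 1 w = w := by
  rw [map_one]; rfl

/-- the representative of a coset -/
noncomputable def rp (K : Subgroup G) (x : G) : G := (x : G ⧸ K).out

/-- the element of `K` -/
noncomputable def kp (K : Subgroup G) (x : G) : K := ⟨(rp K x)⁻¹ * x, by
  rw [rp, ← QuotientGroup.eq, QuotientGroup.out_eq']⟩

theorem rp_kp (K : Subgroup G) (x : G) : rp K x * (kp K x).1 = x := by
  rw [kp]; group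

theorem rp_mul (K : Subgroup G) (x : G) (κ : K) : rp K (x * κ) = rp K x := by
  rw [rp, rp]
  congr 1
  exact QuotientGroup.mk_mul_of_mem x κ.2

theorem kp_mul (K : Subgroup G) (x : G) (κ : K) : kp K (x * κ) = kp K x * κ := by
  refine Subtype.ext ?_
  rw [Subgroup.coe_mul, kp, kp]
  simp only [rp_mul]
  group

end gen

variable {O W : Type} [CommRing O] [AddCommGroup W] [Module O W]

/-- the functions on the faces with `m` elements -/
def IM (g0 : Gf ℚ 3) (K : Subgroup (Gf ℚ 3)) (ρ : Representation O K W) (m : ℕ) :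
    Submodule O (Finset E → Gf ℚ 3 → W) where
  carrier := {φ | (∀ σ x, ¬ IsF g0 m σ x → φ σ x = 0) ∧
    ∀ (κ : K) σ x, φ σ (x * κ) = ρ κ⁻¹ (φ σ x)}
  zero_mem' := ⟨fun _ _ _ => rfl, fun κ σ x => (map_zero (ρ κ⁻¹)).symm⟩
  add_mem' := fun {f g} hf hg => ⟨fun σ x h => by
      rw [Pi.add_apply, Pi.add_apply, hf.1 σ x h, hg.1 σ x h, add_zero], fun κ σ x => by
      rw [Pi.add_apply, Pi.add_apply, Pi.add_apply, hf.2, hg.2, map_add]⟩
  smul_mem' := fun a f hf => ⟨fun σ x h => by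
      rw [Pi.smul_apply, Pi.smul_apply, hf.1 σ x h, smul_zero], fun κ σ x => by
      rw [Pi.smul_apply, Pi.smul_apply, Pi.smul_apply, hf.2, map_smul]⟩

section rep

variable (g0 : Gf ℚ 3) (Γ : Subgroup (GQ ℚ 3)) (K : Subgroup (Gf ℚ 3)) (ρ : Representation O K W)
  (m : ℕ)

/-- the translate of a function on the faces -/
noncomputable def trl (γ : GQ ℚ 3) (φ : Finset E → Gf ℚ 3 → W) : Finset E → Gf ℚ 3 → W :=
  fun σ x => eps sgE (Aq γ) (σ.image (Aq γ⁻¹)) • φ (σ.image (Aq γ⁻¹)) ((dg ℚ 3 γ)⁻¹ * x)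

theorem trl_mem (γ : GQ ℚ 3) {φ : Finset E → Gf ℚ 3 → W} (hφ : φ ∈ IM g0 K ρ m) :
    trl γ φ ∈ IM g0 K ρ m := by
  refine ⟨fun σ x h => ?_, fun κ σ x => ?_⟩
  · rw [trl, hφ.1 _ _ (fun h1 => h ((IsF_inv γ).1 h1)), smul_zero]
  · rw [trl, trl, ← mul_assoc, hφ.2, map_zsmul]

theorem trl_one (φ : Finset E → Gf ℚ 3 → W) : trl 1 φ = φ := by
  funext σ x
  rw [trl, inv_one, im_one, Aq_one, eps_id sgE_sg, one_smul, map_one, inv_one, one_mul]

theorem trl_mul (γ δ : GQ ℚ 3) (φ : Finset E → Gf ℚ 3 → W) :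
    trl (γ * δ) φ = trl γ (trl δ φ) := by
  funext σ x
  have e : σ.image (Aq (γ * δ)⁻¹) = (σ.image (Aq γ⁻¹)).image (Aq δ⁻¹) := by
    rw [_root_.mul_inv_rev, im_mul]
  rw [trl, trl, trl, e, Aq_mul, eps_comp sgE_sg (Aq_inj δ) (Aq_inj γ), im_inv, mul_smul, map_mul,
    _root_.mul_inv_rev, mul_assoc]

/-- the action of `Γ` on the functions on the faces -/
noncomputable def imRep : Representation O Γ (IM g0 K ρ m) where
  toFun γ :=
    { toFun := fun φ => ⟨trl γ.1 φ.1, trl_mem g0 K ρ m γ.1 φ.2⟩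
      map_add' := fun _ _ => Subtype.ext (funext fun _ => funext fun _ => smul_add _ _ _)
      map_smul' := fun _ _ => Subtype.ext (funext fun _ => funext fun _ => smul_comm _ _ _) }
  map_one' := LinearMap.ext fun φ => Subtype.ext (trl_one φ.1)
  map_mul' γ δ := LinearMap.ext fun φ => Subtype.ext (trl_mul γ.1 δ.1 φ.1)

theorem imRep_val (γ : Γ) (φ : IM g0 K ρ m) : (imRep g0 Γ K ρ m γ φ).1 = trl γ.1 φ.1 := rfl

variable (hK : ∀ κ ∈ K, g0⁻¹ * κ * g0 ∈ UN ℚ 3 1)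

theorem Bx_K {g0 : Gf ℚ 3} {K : Subgroup (Gf ℚ 3)} (hK : ∀ κ ∈ K, g0⁻¹ * κ * g0 ∈ UN ℚ 3 1)
    (x : Gf ℚ 3) (κ : K) : Bx g0 (x * κ) = Bx g0 x := Bx_right g0 x κ.1 (hK κ.1 κ.2)

theorem IsF_K {g0 : Gf ℚ 3} {K : Subgroup (Gf ℚ 3)} (hK : ∀ κ ∈ K, g0⁻¹ * κ * g0 ∈ UN ℚ 3 1)
    (x : Gf ℚ 3) (κ : K) (σ : Finset E) : IsF g0 m σ (x * κ) ↔ IsF g0 m σ x := by
  rw [IsF, IsF, Bx_K hK]

theorem dE_rho {Face : Finset E → Prop} (f : W →ₗ[O] W) (φ : Finset E → W) (σ : Finset E) :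
    dE Face sgE (fun τ => f (φ τ)) σ = f (dE Face sgE φ σ) := by
  rw [dE, dE, map_sum]
  exact Finset.sum_congr rfl fun y _ => (map_zsmul f _ _).symm

open Classical in
/-- the differential on functions -/
noncomputable def dF (φ : Finset E → Gf ℚ 3 → W) : Finset E → Gf ℚ 3 → W :=
  fun σ x => if IsF g0 m σ x then dE (FB (Bx g0 x)) sgE (fun τ => φ τ x) σ else 0

theorem dF_pos {σ : Finset E} {x : Gf ℚ 3} (h : IsF g0 m σ x) (φ : Finset E → Gf ℚ 3 → W) :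
    dF g0 m φ σ x = dE (FB (Bx g0 x)) sgE (fun τ => φ τ x) σ := if_pos h

theorem dF_neg {σ : Finset E} {x : Gf ℚ 3} (h : ¬ IsF g0 m σ x) (φ : Finset E → Gf ℚ 3 → W) :
    dF g0 m φ σ x = 0 := if_neg h

/-- the differential -/
noncomputable def dM : IM g0 K ρ (m + 1) →ₗ[O] IM g0 K ρ m where
  toFun φ := ⟨dF g0 m φ.1, fun σ x h => dF_neg g0 m h _, fun κ σ x => by
    by_cases h : IsF g0 m σ x
    · rw [dF_pos g0 m h, dF_pos g0 m ((IsF_K m hK x κ σ).2 h), Bx_K hK, ← dE_rho]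
      congr 1
      funext τ
      exact φ.2.2 κ τ x
    · rw [dF_neg g0 m h, dF_neg g0 m (fun h1 => h ((IsF_K m hK x κ σ).1 h1)), map_zero]⟩
  map_add' φ ψ := by
    refine Subtype.ext (funext fun σ => funext fun x => ?_)
    change dF g0 m (φ.1 + ψ.1) σ x = dF g0 m φ.1 σ x + dF g0 m ψ.1 σ x
    by_cases h : IsF g0 m σ x
    · rw [dF_pos g0 m h, dF_pos g0 m h, dF_pos g0 m h, dE, dE, dE, ← Finset.sum_add_distrib]
      exact Finset.sum_congr rfl fun y _ => smul_add _ _ _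
    · rw [dF_neg g0 m h, dF_neg g0 m h, dF_neg g0 m h, add_zero]
  map_smul' a φ := by
    refine Subtype.ext (funext fun σ => funext fun x => ?_)
    change dF g0 m (a • φ.1) σ x = a • dF g0 m φ.1 σ x
    by_cases h : IsF g0 m σ x
    · rw [dF_pos g0 m h, dF_pos g0 m h, dE, dE, Finset.smul_sum]
      exact Finset.sum_congr rfl fun y _ => smul_comm _ _ _
    · rw [dF_neg g0 m h, dF_neg g0 m h, smul_zero]

theorem dM_val (φ : IM g0 K ρ (m + 1)) : (dM g0 K ρ m hK φ).1 = dF g0 m φ.1 := rfl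

theorem dM_equi (γ : Γ) (φ : IM g0 K ρ (m + 1)) :
    dM g0 K ρ m hK (imRep g0 Γ K ρ (m + 1) γ φ) = imRep g0 Γ K ρ m γ (dM g0 K ρ m hK φ) := by
  refine Subtype.ext (funext fun σ => funext fun x => ?_)
  rw [dM_val, imRep_val, imRep_val, dM_val, trl]
  by_cases h : IsF g0 m σ x
  · have h' : IsF g0 m (σ.image (Aq γ.1⁻¹)) ((dg ℚ 3 γ.1)⁻¹ * x) := (IsF_inv γ.1).2 h
    rw [dF_pos g0 m h, dF_pos g0 m h']
    have h1 := dE_left γ.1 h'.1 (fun τ => φ.1 τ ((dg ℚ 3 γ.1)⁻¹ * x))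
    rw [im_inv, mul_inv_cancel_left] at h1
    rw [← h1]
    rfl
  · rw [dF_neg g0 m h, dF_neg g0 m (fun h1 => h ((IsF_inv γ.1).1 h1)), smul_zero]

open Classical in
/-- the embedding of the module of functions -/
noncomputable def jM : MM K ρ →ₗ[O] IM g0 K ρ 6 where
  toFun f := ⟨fun σ x => if IsF g0 6 σ x then om sgE σ • f.1 x else 0, fun σ x h => if_neg h,
    fun κ σ x => by
      change (if IsF g0 6 σ (x * κ) then om sgE σ • f.1 (x * κ) else 0) =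
        ρ κ⁻¹ (if IsF g0 6 σ x then om sgE σ • f.1 x else 0)
      by_cases h : IsF g0 6 σ x
      · rw [if_pos h, if_pos ((IsF_K 6 hK x κ σ).2 h), f.2 κ x, map_zsmul]
      · rw [if_neg h, if_neg (fun h1 => h ((IsF_K 6 hK x κ σ).1 h1)), map_zero]⟩
  map_add' f g := by
    refine Subtype.ext (funext fun σ => funext fun x => ?_)
    change (if IsF g0 6 σ x then om sgE σ • (f.1 x + g.1 x) else 0) =
      (if IsF g0 6 σ x then om sgE σ • f.1 x else 0) + (if IsF g0 6 σ x then om sgE σ • g.1 x else 0)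
    split_ifs
    · exact smul_add _ _ _
    · exact (add_zero _).symm
  map_smul' a f := by
    refine Subtype.ext (funext fun σ => funext fun x => ?_)
    change (if IsF g0 6 σ x then om sgE σ • (a • f.1 x) else 0) =
      a • (if IsF g0 6 σ x then om sgE σ • f.1 x else 0)
    split_ifs
    · exact smul_comm _ _ _
    · exact (smul_zero _).symm

theorem jM_pos {σ : Finset E} {x : Gf ℚ 3} (h : IsF g0 6 σ x) (f : MM K ρ) :
    (jM g0 K ρ hK f).1 σ x = om sgE σ • f.1 x := if_pos h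

theorem jM_neg {σ : Finset E} {x : Gf ℚ 3} (h : ¬ IsF g0 6 σ x) (f : MM K ρ) :
    (jM g0 K ρ hK f).1 σ x = 0 := if_neg h

theorem om_image {σ : Finset E} {x : Gf ℚ 3} (h : IsF g0 6 σ x) (γ : GQ ℚ 3) :
    om sgE (σ.image (Aq γ)) = eps sgE (Aq γ) σ * om sgE σ := by
  obtain ⟨k, hk, e⟩ := face_top h.1 h.2
  refine om_act sgE_sg (iR γ) h.2 fun X hX => ?_
  rw [← e] at hX
  obtain ⟨i, rfl⟩ := mem_top.1 hX
  exact xi_symm _ _

theorem jM_equi (γ : Γ) (f : MM K ρ) :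
    jM g0 K ρ hK (mmRep (dg ℚ 3) Γ K ρ γ f) = imRep g0 Γ K ρ 6 γ (jM g0 K ρ hK f) := by
  refine Subtype.ext (funext fun σ => funext fun x => ?_)
  rw [imRep_val, trl]
  by_cases h : IsF g0 6 σ x
  · have h' : IsF g0 6 (σ.image (Aq γ.1⁻¹)) ((dg ℚ 3 γ.1)⁻¹ * x) := (IsF_inv γ.1).2 h
    rw [jM_pos g0 K ρ hK h, jM_pos g0 K ρ hK h', mmRep_apply, ← mul_smul, ← om_image g0 h' γ.1,
      im_inv]
  · rw [jM_neg g0 K ρ hK h, jM_neg g0 K ρ hK (fun h1 => h ((IsF_inv γ.1).1 h1)), smul_zero]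

theorem exists_top (x : Gf ℚ 3) : ∃ k, IsF g0 6 (top k) x := by
  obtain ⟨k, hk⟩ := (latB g0 x).1
  refine ⟨k, ⟨⟨k, hk, Finset.Subset.refl _⟩, ?_⟩, card_top k⟩
  obtain ⟨f, hf, -⟩ := exists_gen (latB g0 x)
  exact spn_of_dsc hf k fun X hX hX' => absurd hX hX'

theorem jM_inj : Function.Injective (jM g0 K ρ hK) := by
  rw [injective_iff_map_eq_zero]
  intro f hf
  refine Subtype.ext (funext fun x => ?_)
  obtain ⟨k, hk⟩ := exists_top g0 x
  have h1 : (jM g0 K ρ hK f).1 (top k) x = 0 := by rw [hf]; rfl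
  rw [jM_pos g0 K ρ hK hk] at h1
  have h2 := congrArg (fun w => om sgE (top k) • w) h1
  simp only [smul_zero] at h2
  rwa [← mul_smul, om_sq sgE_sg, one_smul] at h2

theorem dM_jM (f : MM K ρ) : dM g0 K ρ 5 hK (jM g0 K ρ hK f) = 0 := by
  refine Subtype.ext (funext fun σ => funext fun x => ?_)
  rw [dM_val]
  by_cases h : IsF g0 5 σ x
  · rw [dF_pos g0 5 h]
    have h1 := d_const (latB g0 x) sgE_sg (f.1 x) h.1 h.2
    have h2 : dE (FB (Bx g0 x)) sgE (fun τ => (jM g0 K ρ hK f).1 τ x) σ =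
        dE (FB (Bx g0 x)) sgE (fun S => om sgE S • f.1 x) σ := by
      rw [dE, dE]
      refine Finset.sum_congr rfl fun y hy => ?_
      rw [mem_Cf (latB _ _) h.1] at hy
      rw [jM_pos g0 K ρ hK ⟨hy.2, by rw [Finset.card_insert_of_notMem hy.1, h.2]⟩]
    rw [h2, h1]; rfl
  · rw [dF_neg g0 5 h]; rfl

theorem ker_top (φ : IM g0 K ρ 6) (h0 : dM g0 K ρ 5 hK φ = 0) : ∃ f, jM g0 K ρ hK f = φ := by
  have h1 : ∀ x, ∃ w : W, ∀ S, IsF g0 6 S x → φ.1 S x = om sgE S • w := by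
    intro x
    obtain ⟨w, hw⟩ := ex_top (latB g0 x) sgE_sg (fun τ => φ.1 τ x) fun r hr hc => by
      have h2 : (dM g0 K ρ 5 hK φ).1 r x = 0 := by rw [h0]; rfl
      rw [dM_val, dF_pos g0 5 ⟨hr, hc⟩] at h2
      exact h2
    exact ⟨w, fun S hS => hw S hS.1 hS.2⟩
  choose w hw using h1
  refine ⟨⟨fun x => ρ (kp K x)⁻¹ (w (rp K x)), fun κ x => ?_⟩, ?_⟩
  · simp only
    rw [rp_mul, kp_mul, rho_mul, _root_.mul_inv_rev]
  · refine Subtype.ext (funext fun σ => funext fun x => ?_)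
    by_cases h : IsF g0 6 σ x
    · rw [jM_pos g0 K ρ hK h]
      have hx := rp_kp K x
      have h2 : IsF g0 6 σ (rp K x) := by
        rw [← hx] at h
        exact (IsF_K 6 hK _ _ _).1 h
      have h3 := φ.2.2 (kp K x) σ (rp K x)
      rw [hx] at h3
      rw [h3, hw _ _ h2, map_zsmul]
    · rw [jM_neg g0 K ρ hK h, φ.2.1 σ x h]

theorem dM_dM (φ : IM g0 K ρ (m + 2)) : dM g0 K ρ m hK (dM g0 K ρ (m + 1) hK φ) = 0 := by
  refine Subtype.ext (funext fun σ => funext fun x => ?_)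
  rw [dM_val]
  by_cases h : IsF g0 m σ x
  · rw [dF_pos g0 m h]
    have h1 := dd_zero (latB g0 x) sgE_sg (fun τ => φ.1 τ x) h.1
    have h2 : dE (FB (Bx g0 x)) sgE (fun τ => (dM g0 K ρ (m + 1) hK φ).1 τ x) σ =
        dE (FB (Bx g0 x)) sgE (dE (FB (Bx g0 x)) sgE (fun τ => φ.1 τ x)) σ := by
      rw [dE, dE]
      refine Finset.sum_congr rfl fun y hy => ?_
      rw [mem_Cf (latB _ _) h.1] at hy
      rw [dM_val, dF_pos g0 (m + 1) ⟨hy.2, by rw [Finset.card_insert_of_notMem hy.1, h.2]⟩]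
    rw [h2, h1]; rfl
  · rw [dF_neg g0 m h]; rfl

theorem ker_low (hm : m + 1 < 6) (φ : IM g0 K ρ (m + 1)) (h0 : dM g0 K ρ m hK φ = 0) :
    ∃ ψ, dM g0 K ρ (m + 1) hK ψ = φ := by
  classical
  have h1 : ∀ x, ∃ ψ : Finset E → W, ∀ σ, IsF g0 (m + 1) σ x →
      dE (FB (Bx g0 x)) sgE ψ σ = φ.1 σ x := by
    intro x
    obtain ⟨ψ, hψ⟩ := ex_low (latB g0 x) sgE_sg m hm (fun τ => φ.1 τ x) fun r hr hc => by
      have h2 : (dM g0 K ρ m hK φ).1 r x = 0 := by rw [h0]; rfl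
      rw [dM_val, dF_pos g0 m ⟨hr, hc⟩] at h2
      exact h2
    exact ⟨ψ, fun S hS => hψ S hS.1 hS.2⟩
  choose ψ hψ using h1
  have hmem : (fun σ x => if IsF g0 (m + 2) σ x then ρ (kp K x)⁻¹ (ψ (rp K x) σ) else 0) ∈
      IM g0 K ρ (m + 2) := by
    refine ⟨fun σ x h => if_neg h, fun κ σ x => ?_⟩
    by_cases h : IsF g0 (m + 2) σ x
    · simp only
      rw [if_pos h, if_pos ((IsF_K _ hK x κ σ).2 h), rp_mul, kp_mul, rho_mul,
        _root_.mul_inv_rev]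
    · simp only
      rw [if_neg h, if_neg (fun h1 => h ((IsF_K _ hK x κ σ).1 h1)), map_zero]
  refine ⟨⟨_, hmem⟩, ?_⟩
  refine Subtype.ext (funext fun σ => funext fun x => ?_)
  rw [dM_val]
  by_cases h : IsF g0 (m + 1) σ x
  · rw [dF_pos g0 (m + 1) h]
    have hx := rp_kp K x
    have h2 : IsF g0 (m + 1) σ (rp K x) := by
      rw [← hx] at h
      exact (IsF_K _ hK _ _ _).1 h
    have h3 := φ.2.2 (kp K x) σ (rp K x)
    rw [hx] at h3
    rw [h3, ← hψ _ _ h2, ← dE_rho]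
    have hB : Bx g0 (rp K x) = Bx g0 x := by
      conv_rhs => rw [← hx]
      exact (Bx_K hK _ _).symm
    rw [hB, dE, dE]
    refine Finset.sum_congr rfl fun y hy => ?_
    rw [mem_Cf (latB _ _) h.1] at hy
    have h4 : IsF g0 (m + 2) (insert y σ) x :=
      ⟨hy.2, by rw [Finset.card_insert_of_notMem hy.1, h.2]⟩
    simp only
    rw [if_pos h4]
  · rw [dF_neg g0 (m + 1) h, φ.2.1 σ x h]

theorem IM_two (φ : IM g0 K ρ 2) : φ = 0 := by
  refine Subtype.ext (funext fun σ => funext fun x => ?_)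
  refine φ.2.1 σ x fun h => ?_
  have h1 := card_ge (latB g0 x) h.1
  rw [h.2] at h1
  omega

include hK in
/-- an equivariant choice of elements of `Γ` -/
theorem exists_c (hT : TorFree Γ K) : ∃ c : Finset E → Gf ℚ 3 → Γ,
    (∀ (γ : Γ) σ x, FB (Bx g0 x) σ → c (σ.image (Aq γ.1)) (dg ℚ 3 γ.1 * x) = γ * c σ x) ∧
    ∀ (κ : K) σ x, FB (Bx g0 x) σ → c σ (x * κ) = c σ x := by
  classical
  let rel : Setoid (Finset E × Gf ℚ 3) :=
    { r := fun p q => ∃ γ : Γ, ∃ κ : K, q.1 = p.1.image (Aq γ.1) ∧ q.2 = dg ℚ 3 γ.1 * p.2 * κ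
      iseqv := by
        refine ⟨fun p => ⟨1, 1, ?_, ?_⟩, ?_, ?_⟩
        · rw [Subgroup.coe_one, im_one]
        · rw [Subgroup.coe_one, map_one, one_mul, Subgroup.coe_one, mul_one]
        · rintro p q ⟨γ, κ, h1, h2⟩
          refine ⟨γ⁻¹, κ⁻¹, ?_, ?_⟩
          · rw [h1, Subgroup.coe_inv, im_inv']
          · rw [h2, Subgroup.coe_inv, Subgroup.coe_inv, map_inv]
            group
        · rintro p q r ⟨γ, κ, h1, h2⟩ ⟨γ', κ', h3, h4⟩
          refine ⟨γ' * γ, κ * κ', ?_, ?_⟩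
          · rw [h3, h1, Subgroup.coe_mul, im_mul]
          · rw [h4, h2, Subgroup.coe_mul, Subgroup.coe_mul, map_mul]
            group }
  let r : Finset E × Gf ℚ 3 → Finset E × Gf ℚ 3 := fun p => (Quotient.mk rel p).out
  have hr : ∀ p, ∃ γ : Γ, ∃ κ : K, p.1 = (r p).1.image (Aq γ.1) ∧
      p.2 = dg ℚ 3 γ.1 * (r p).2 * κ := fun p => Quotient.mk_out (s := rel) p
  choose c k hc1 hc2 using hr
  -- uniqueness
  have huniq : ∀ p, FB (Bx g0 p.2) p.1 → ∀ (γ : Γ) (κ : K), p.1 = (r p).1.image (Aq γ.1) →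
      p.2 = dg ℚ 3 γ.1 * (r p).2 * κ → γ = c p := by
    intro p hp γ κ h1 h2
    have h3 : FB (Bx g0 (dg ℚ 3 γ.1 * (r p).2)) ((r p).1.image (Aq γ.1)) := by
      rw [← h1, ← Bx_K hK _ κ, ← h2]
      exact hp
    rw [FB_iff] at h3
    have h4 : (c p)⁻¹ * γ = 1 := by
      refine Subtype.ext ?_
      refine free hT h3 ((c p)⁻¹ * γ).2 ?_ (κ := (k p).1 * (κ.1)⁻¹)
        (K.mul_mem (k p).2 (K.inv_mem κ.2)) ?_
      · rw [Subgroup.coe_mul, im_mul, ← h1, hc1 p, Subgroup.coe_inv, im_inv']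
      · have h5 := hc2 p
        rw [h2] at h5
        rw [Subgroup.coe_mul, Subgroup.coe_inv, map_mul, map_inv]
        calc (dg ℚ 3 (c p).1)⁻¹ * dg ℚ 3 γ.1 * (r p).2 =
            (dg ℚ 3 (c p).1)⁻¹ * (dg ℚ 3 γ.1 * (r p).2 * κ.1) * (κ.1)⁻¹ := by group
          _ = (dg ℚ 3 (c p).1)⁻¹ * (dg ℚ 3 (c p).1 * (r p).2 * (k p).1) * (κ.1)⁻¹ := by rw [h5]
          _ = _ := by group
    exact (inv_mul_eq_one.1 h4).symm
  have hrr : ∀ p q, (∃ γ : Γ, ∃ κ : K, q.1 = p.1.image (Aq γ.1) ∧ q.2 = dg ℚ 3 γ.1 * p.2 * κ) →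
      r q = r p := by
    intro p q h
    change (Quotient.mk rel q).out = (Quotient.mk rel p).out
    congr 1
    exact Quotient.sound (rel.symm' h)
  refine ⟨fun σ x => c (σ, x), fun γ σ x h => ?_, fun κ σ x h => ?_⟩
  · have e : r (σ.image (Aq γ.1), dg ℚ 3 γ.1 * x) = r (σ, x) :=
      hrr (σ, x) _ ⟨γ, 1, rfl, by rw [Subgroup.coe_one, mul_one]⟩
    refine (huniq (σ.image (Aq γ.1), dg ℚ 3 γ.1 * x) (FB_left γ.1 h) (γ * c (σ, x)) (k (σ, x))
      ?_ ?_).symm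
    · rw [e, Subgroup.coe_mul, im_mul, ← hc1 (σ, x)]
    · rw [e, Subgroup.coe_mul, map_mul]
      have := hc2 (σ, x)
      calc dg ℚ 3 γ.1 * x = dg ℚ 3 γ.1 * (dg ℚ 3 (c (σ, x)).1 * (r (σ, x)).2 * (k (σ, x))) := by
            rw [← this]
        _ = _ := by group
  · have e : r (σ, x * κ) = r (σ, x) :=
      hrr (σ, x) _ ⟨1, κ, by rw [Subgroup.coe_one, im_one], by
        rw [Subgroup.coe_one, map_one, one_mul]⟩
    have hf : FB (Bx g0 (x * κ)) σ := by rw [Bx_K hK]; exact h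
    refine (huniq (σ, x * κ) hf (c (σ, x)) (k (σ, x) * κ) ?_ ?_).symm
    · rw [e]; exact hc1 (σ, x)
    · rw [e]
      have := hc2 (σ, x)
      calc x * κ = (dg ℚ 3 (c (σ, x)).1 * (r (σ, x)).2 * (k (σ, x))) * κ := by rw [← this]
        _ = _ := by rw [Subgroup.coe_mul]; group

include hK in
open Classical in
/-- the retraction -/
theorem exists_retr (hT : TorFree Γ K) : ∃ r : (Γ → IM g0 K ρ m) →ₗ[O] IM g0 K ρ m,
    Retr (imRep g0 Γ K ρ m) r := by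
  obtain ⟨c, hc1, hc2⟩ := exists_c g0 Γ K hK hT
  have hmem : ∀ F : Γ → IM g0 K ρ m, (fun σ x => (F (c σ x)).1 σ x) ∈ IM g0 K ρ m := by
    intro F
    refine ⟨fun σ x h => (F (c σ x)).2.1 σ x h, fun κ σ x => ?_⟩
    by_cases h : IsF g0 m σ x
    · simp only
      rw [hc2 κ σ x h.1, (F (c σ x)).2.2]
    · simp only
      rw [(F (c σ x)).2.1 σ x h, (F (c σ (x * κ))).2.1 _ _ (fun h1 => h ((IsF_K m hK x κ σ).1 h1)),
        map_zero]
  refine ⟨{ toFun := fun F => ⟨_, hmem F⟩, map_add' := fun _ _ => rfl,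
            map_smul' := fun _ _ => rfl }, ⟨fun v => rfl, fun g F => ?_⟩⟩
  refine Subtype.ext (funext fun σ => funext fun x => ?_)
  change trl g.1 (fun σ x => (F (c σ x)).1 σ x) σ x =
    trl g.1 (F (g⁻¹ * c σ x)).1 σ x
  rw [trl, trl]
  by_cases h : IsF g0 m σ x
  · have h' : IsF g0 m (σ.image (Aq g.1⁻¹)) ((dg ℚ 3 g.1)⁻¹ * x) := (IsF_inv g.1).2 h
    have h1 := hc1 g _ _ h'.1
    rw [im_inv, mul_inv_cancel_left] at h1
    rw [h1, inv_mul_cancel_left]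
  · have h' : ¬ IsF g0 m (σ.image (Aq g.1⁻¹)) ((dg ℚ 3 g.1)⁻¹ * x) :=
      fun h1 => h ((IsF_inv g.1).1 h1)
    rw [(F (g⁻¹ * c σ x)).2.1 _ _ h', (F _).2.1 _ _ h']

end rep

/-- the cohomology vanishes in the degrees `≥ 4` -/
theorem high (Γ : Subgroup (GQ ℚ 3)) (K : Subgroup (Gf ℚ 3)) (ρ : Representation O K W)
    (g0 : Gf ℚ 3) (hK : ∀ κ ∈ K, g0⁻¹ * κ * g0 ∈ UN ℚ 3 1) (hT : TorFree Γ K) (n : ℕ) :
    VI (mmRep (dg ℚ 3) Γ K ρ) (fun _ => True) (n + 3) := by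
  have hac : ∀ m n : ℕ, VI (imRep g0 Γ K ρ m) (fun _ => True) n := by
    intro m n z hz _
    obtain ⟨r, hr⟩ := exists_retr g0 Γ K ρ m hK hT
    obtain ⟨b, hb⟩ := hr.acyclic n z hz
    exact ⟨b, fun _ => trivial, hb⟩
  have h3 : ∀ n, VI (imRep g0 Γ K ρ 3) (fun v => ∃ w, dM g0 K ρ 3 hK w = v) n := by
    intro n z hz _
    obtain ⟨b, -, hb⟩ := hac 3 n z hz fun _ => trivial
    exact ⟨b, fun x => ker_low g0 K ρ 2 hK (by norm_num) _ (IM_two g0 K ρ _), hb⟩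
  have h4 : ∀ n, VI (imRep g0 Γ K ρ 4) (fun v => ∃ w, dM g0 K ρ 4 hK w = v) (n + 1) := fun n =>
    VI.step (dM g0 K ρ 4 hK) (dM g0 K ρ 3 hK) (dM_equi g0 Γ K ρ 3 hK)
      (ker_low g0 K ρ 3 hK (by norm_num)) (dM_dM g0 K ρ 3 hK) n (hac 4 _) (h3 n)
  have h5 : ∀ n, VI (imRep g0 Γ K ρ 5) (fun v => ∃ w, dM g0 K ρ 5 hK w = v) (n + 2) := fun n =>
    VI.step (dM g0 K ρ 5 hK) (dM g0 K ρ 4 hK) (dM_equi g0 Γ K ρ 4 hK)
      (ker_low g0 K ρ 4 hK (by norm_num)) (dM_dM g0 K ρ 4 hK) (n + 1) (hac 5 _) (h4 n)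
  have h6 : ∀ n, VI (imRep g0 Γ K ρ 6) (fun v => ∃ w, jM g0 K ρ hK w = v) (n + 3) := fun n =>
    VI.step (jM g0 K ρ hK) (dM g0 K ρ 5 hK) (dM_equi g0 Γ K ρ 5 hK)
      (ker_top g0 K ρ hK) (dM_jM g0 K ρ hK) (n + 2) (hac 6 _) (h5 n)
  exact VI.inj (jM g0 K ρ hK) (jM_equi g0 Γ K ρ hK) (jM_inj g0 K ρ hK) (n + 3) (h6 n)

end Pool.Agent.H520.CG3
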