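import Pool.Agent.H520.CG3.Mor

/-!
# Signs of injective maps (helper520, MP_34be05_nt)
-/

set_option linter.unusedSectionVars false

namespace Pool.Agent.H520.CG3

open Finset

variable {E : Type} [DecidableEq E]

theorem Sg.pm {sg : E → E → ℤ} (h : Sg sg) {a b : E} (hab : a ≠ b) :
    sg a b = 1 ∨ sg a b = -1 := by
  have h1 := h.sq a b hab
  exact mul_self_eq_one_iff.1 h1

theorem Sg.self {sg : E → E → ℤ} (h : Sg sg) (a : E) : sg a a = 0 := by
  have := h.anti a a
  omega

/-- the sign of an injective map on a finite set -/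
def eps (sg : E → E → ℤ) (g : E → E) (σ : Finset E) : ℤ :=
  ∏ z ∈ σ, ∏ w ∈ σ, if sg z w = 1 then sg (g z) (g w) else 1

theorem s0_image {sg : E → E → ℤ} {g : E → E} (hg : Function.Injective g) (y : E)
    (σ : Finset E) : s0 sg (g y) (σ.image g) = ∏ w ∈ σ, sg (g y) (g w) := by
  rw [s0, Finset.prod_image fun a _ b _ e => hg e]

theorem eps_insert {sg : E → E → ℤ} (h : Sg sg) {g : E → E} (hg : Function.Injective g) {y : E}
    {σ : Finset E} (hy : y ∉ σ) : eps sg g (insert y σ) =
      eps sg g σ * (s0 sg y σ * s0 sg (g y) (σ.image g)) := by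
  have h0 : sg y y ≠ 1 := by rw [h.self]; norm_num
  rw [eps, Finset.prod_insert hy, Finset.prod_insert hy, if_neg h0, one_mul]
  have h1 : ∏ z ∈ σ, ∏ w ∈ insert y σ, (if sg z w = 1 then sg (g z) (g w) else 1) =
      (∏ z ∈ σ, if sg z y = 1 then sg (g z) (g y) else 1) * eps sg g σ := by
    rw [eps, ← Finset.prod_mul_distrib]
    exact Finset.prod_congr rfl fun z _ => by rw [Finset.prod_insert hy]
  rw [h1, ← mul_assoc, ← Finset.prod_mul_distrib, mul_comm, s0_image hg, s0,
    ← Finset.prod_mul_distrib]
  congr 1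
  refine Finset.prod_congr rfl fun w hw => ?_
  have hyw : y ≠ w := fun e => hy (e ▸ hw)
  have h2 := h.anti y w
  have h3 := h.anti (g y) (g w)
  rcases h.pm hyw with h4 | h4
  · rw [h2, h4, if_pos rfl, if_neg (by norm_num), one_mul, mul_one]
  · rw [h2, h4, if_neg (by norm_num), if_pos (by norm_num), h3]
    ring

theorem eps_empty {sg : E → E → ℤ} {g : E → E} : eps sg g ∅ = 1 := rfl

theorem eps_sq {sg : E → E → ℤ} (h : Sg sg) {g : E → E} (hg : Function.Injective g)
    (σ : Finset E) : eps sg g σ * eps sg g σ = 1 := by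
  induction σ using Finset.induction_on with
  | empty => rw [eps_empty, one_mul]
  | insert y σ hy ih =>
    rw [eps_insert h hg hy]
    have h1 := s0_sq h hy
    have h2 : g y ∉ σ.image g := by
      rw [Finset.mem_image]
      rintro ⟨z, hz, e⟩
      exact hy (hg e ▸ hz)
    have h3 := s0_sq h h2
    calc _ = (eps sg g σ * eps sg g σ) * (s0 sg y σ * s0 sg y σ) *
        (s0 sg (g y) (σ.image g) * s0 sg (g y) (σ.image g)) := by ring
      _ = 1 := by rw [ih, h1, h3]; norm_num

theorem eps_comp {sg : E → E → ℤ} (h : Sg sg) {g g' : E → E} (hg : Function.Injective g)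
    (hg' : Function.Injective g') (σ : Finset E) :
    eps sg (g' ∘ g) σ = eps sg g' (σ.image g) * eps sg g σ := by
  induction σ using Finset.induction_on with
  | empty => simp [eps_empty]
  | insert y σ hy ih =>
    have h2 : g y ∉ σ.image g := by
      rw [Finset.mem_image]
      rintro ⟨z, hz, e⟩
      exact hy (hg e ▸ hz)
    rw [eps_insert h (hg'.comp hg) hy, Finset.image_insert, eps_insert h hg' h2,
      eps_insert h hg hy, ih, Finset.image_image]
    have h3 := s0_sq h h2
    calc _ = (eps sg g' (σ.image g) * eps sg g σ) * (s0 sg y σ *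
        s0 sg ((g' ∘ g) y) (σ.image (g' ∘ g))) := rfl
      _ = (eps sg g' (σ.image g) * eps sg g σ) * (s0 sg y σ *
        s0 sg ((g' ∘ g) y) (σ.image (g' ∘ g))) *
          (s0 sg (g y) (σ.image g) * s0 sg (g y) (σ.image g)) := by rw [h3, mul_one]
      _ = _ := by
        simp only [Function.comp_apply]
        ring

theorem eps_id {sg : E → E → ℤ} (h : Sg sg) (σ : Finset E) : eps sg id σ = 1 := by
  have h1 := eps_comp h (g := id) (g' := id) Function.injective_id Function.injective_id σ
  rw [Function.comp_id, Finset.image_id] at h1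
  have h2 := eps_sq h (g := id) Function.injective_id σ
  rw [h2] at h1
  exact h1

/-- the sign of an enumeration -/
def pr (sg : E → E → ℤ) {n : ℕ} (v : Fin n → E) : ℤ := ∏ j, ∏ i ∈ Finset.Iio j, sg (v i) (v j)

theorem pr_perm {sg : E → E → ℤ} (h : Sg sg) {n : ℕ} (v : Fin n → E) (π : Equiv.Perm (Fin n)) :
    pr sg (v ∘ π) = π.sign * pr sg v := by
  have := π.prod_Iio_comp_eq_sign_mul_prod (R := ℤ) (f := fun i j => sg (v i) (v j))
    (fun i j => h.anti _ _)
  rw [Int.cast_id] at this
  exact this

theorem pr_cons {sg : E → E → ℤ} {n : ℕ} (y : E) (v : Fin n → E)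
    (hv : Function.Injective v) :
    pr sg (Fin.cons y v : Fin (n + 1) → E) = s0 sg y (Finset.univ.image v) * pr sg v := by
  have e : ∀ {m : ℕ} (f : Fin m → Fin m → ℤ) (j : Fin m),
      ∏ i ∈ Finset.Iio j, f i j = ∏ i, if i < j then f i j else 1 := by
    intro m f j
    rw [← Finset.prod_filter]
    congr 1
    ext i
    simp
  rw [pr, pr, s0, Finset.prod_image fun a _ b _ e => hv e, ← Finset.prod_mul_distrib]
  rw [Fin.prod_univ_succ]
  have h0 : ∏ i ∈ Finset.Iio (0 : Fin (n + 1)), sg ((Fin.cons y v : Fin (n + 1) → E) i)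
      ((Fin.cons y v : Fin (n + 1) → E) 0) = 1 := by
    refine Finset.prod_eq_one fun i hi => ?_
    rw [Finset.mem_Iio] at hi
    exact absurd hi (Fin.not_lt_zero i)
  rw [h0, one_mul]
  refine Finset.prod_congr rfl fun j _ => ?_
  rw [e (fun i j => sg ((Fin.cons y v : Fin (n + 1) → E) i) ((Fin.cons y v : Fin (n + 1) → E) j)),
    e (fun i j => sg (v i) (v j)), Fin.prod_univ_succ]
  simp

theorem pr_comp {sg : E → E → ℤ} (h : Sg sg) {g : E → E} (hg : Function.Injective g) :
    ∀ {n : ℕ} (v : Fin n → E), Function.Injective v →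
      pr sg (g ∘ v) = eps sg g (Finset.univ.image v) * pr sg v := by
  intro n
  induction n with
  | zero => intro v _; simp [pr, eps]
  | succ n ih =>
    intro v hv
    obtain ⟨y, w, rfl⟩ : ∃ y, ∃ w : Fin n → E, v = Fin.cons y w :=
      ⟨v 0, Fin.tail v, (Fin.cons_self_tail v).symm⟩
    have hw : Function.Injective w := by
      intro a b e
      have : (Fin.cons y w : Fin (n + 1) → E) a.succ = (Fin.cons y w : Fin (n + 1) → E) b.succ := by
        simpa using e
      exact Fin.succ_injective _ (hv this)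
    have hy : y ∉ Finset.univ.image w := by
      rw [Finset.mem_image]
      rintro ⟨a, -, e⟩
      have : (Fin.cons y w : Fin (n + 1) → E) a.succ = (Fin.cons y w : Fin (n + 1) → E) 0 := by
        simpa using e
      exact absurd (hv this) (Fin.succ_ne_zero a)
    have e1 : g ∘ (Fin.cons y w : Fin (n + 1) → E) = Fin.cons (g y) (g ∘ w) := by
      funext i
      refine Fin.cases ?_ (fun j => ?_) i
      · simp
      · simp
    have e2 : Finset.univ.image (Fin.cons y w : Fin (n + 1) → E) =
        insert y (Finset.univ.image w) := by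
      ext z
      simp [Fin.exists_fin_succ, eq_comm]
    have e3 : Finset.univ.image (g ∘ w) = (Finset.univ.image w).image g := by
      rw [Finset.image_image]
    rw [e1, e2, pr_cons _ _ (hg.comp hw), pr_cons _ _ hw, eps_insert h hg hy, ih w hw, e3]
    have h3 := s0_sq h hy
    calc _ = eps sg g (univ.image w) * pr sg w * s0 sg (g y) ((univ.image w).image g) := by ring
      _ = eps sg g (univ.image w) * pr sg w * s0 sg (g y) ((univ.image w).image g) *
        (s0 sg y (univ.image w) * s0 sg y (univ.image w)) := by rw [h3, mul_one]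
      _ = _ := by ring

theorem pr_sq {sg : E → E → ℤ} (h : Sg sg) {n : ℕ} (v : Fin n → E) (hv : Function.Injective v) :
    pr sg v * pr sg v = 1 := by
  rw [pr, ← Finset.prod_mul_distrib]
  refine Finset.prod_eq_one fun j _ => ?_
  rw [← Finset.prod_mul_distrib]
  refine Finset.prod_eq_one fun i hi => ?_
  rw [Finset.mem_Iio] at hi
  exact h.sq _ _ fun e => absurd (hv e) hi.ne

end Pool.Agent.H520.CG3
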