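import Pool.Agent.H520.CG3.Fac
import Pool.Agent.H520.CG3.Sgn

/-!
# Orientations of the perfect cones (helper520, MP_34be05_nt)
-/

open Matrix

namespace Pool.Agent.H520.CG3

theorem ent_add (X Y : E) : ent (X + Y) = ent X + ent Y := by
  funext i; fin_cases i <;> simp [ent]

theorem ent_smul (a : ℝ) (X : E) : ent (a • X) = a • ent X := by
  funext i; fin_cases i <;> simp [ent]

theorem ent_zero : ent 0 = 0 := by
  funext i; fin_cases i <;> simp [ent]

theorem ent_sum {J : Type} (s : Finset J) (f : J → E) : ent (∑ j ∈ s, f j) = ∑ j ∈ s, ent (f j) := by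
  classical
  induction s using Finset.induction_on with
  | empty => simp [ent_zero]
  | insert a s ha ih => rw [Finset.sum_insert ha, Finset.sum_insert ha, ent_add, ih]

theorem eq_zero_of_ent {X : E} (h : Xᵀ = X) (h0 : ent X = 0) : X = 0 := by
  rw [ent_decomp h, h0]
  simp

/-- the determinant of six symmetric matrices -/
def det6 (v : Fin 6 → E) : ℝ := (Matrix.of fun i j => ent (v i) j).det

/-- the real basis -/
def bR (j : Fin 6) : E := (bz j).map (Int.castRingHom ℝ)

theorem bR_symm (j : Fin 6) : (bR j)ᵀ = bR j := by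
  rw [bR, ← Matrix.transpose_map]
  congr 1
  revert j; decide

/-- the matrix of the action on symmetric matrices -/
def Rp (g : E) : Matrix (Fin 6) (Fin 6) ℝ := Matrix.of fun j k => ent (act g (bR j)) k

theorem ent_act (g : E) {X : E} (h : Xᵀ = X) : ent (act g X) = ent X ᵥ* Rp g := by
  conv_lhs => rw [ent_decomp h, act_sum, ent_sum]
  funext k
  rw [Finset.sum_apply, vecMul, dotProduct]
  refine Finset.sum_congr rfl fun j _ => ?_
  rw [act_smul, ent_smul, Pi.smul_apply, smul_eq_mul]
  rfl

theorem Rp_mul (g h : E) : Rp (g * h) = Rp h * Rp g := by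
  ext j k
  have h1 : act (g * h) (bR j) = act g (act h (bR j)) := (act_act _ _ _).symm
  change ent (act (g * h) (bR j)) k = _
  rw [h1, ent_act g (act_symm h (bR_symm j)), mul_apply]
  rfl

theorem Rp_one : Rp 1 = 1 := by
  ext j k
  change ent (act 1 (bR j)) k = _
  rw [act_one]
  fin_cases j <;> fin_cases k <;> simp [ent, bR, bz]

theorem Rp_diag (d : Fin 3 → ℝ) : Rp (diagonal d) = diagonal
    ![d 0 * d 0, d 1 * d 1, d 2 * d 2, d 0 * d 1, d 0 * d 2, d 1 * d 2] := by
  ext j k
  change ent (act (diagonal d) (bR j)) k = _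
  have h1 : ∀ X : E, ∀ a b, act (diagonal d) X a b = d a * X a b * d b := by
    intro X a b
    rw [act, diagonal_transpose, mul_diagonal, diagonal_mul]
  fin_cases j <;> fin_cases k <;> simp [ent, bR, bz, h1]

theorem detRp_pos {g : E} (hg : g.det ≠ 0) : 0 < (Rp g).det := by
  refine Matrix.diagonal_transvection_induction_of_det_ne_zero (fun g => 0 < (Rp g).det) g hg
    ?_ ?_ ?_
  · intro d hd
    rw [Matrix.det_diagonal, Fin.prod_univ_three] at hd
    rw [Rp_diag, Matrix.det_diagonal]
    have h1 : ∏ i, ![d 0 * d 0, d 1 * d 1, d 2 * d 2, d 0 * d 1, d 0 * d 2, d 1 * d 2] i =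
        (d 0 * d 1 * d 2) ^ 4 := by
      simp [Fin.prod_univ_succ]
      ring
    rw [h1]
    positivity
  · intro t
    have h1 : ∀ c : ℝ, transvection t.i t.j c = transvection t.i t.j (c / 2) *
        transvection t.i t.j (c / 2) := by
      intro c
      rw [transvection_mul_transvection_same t.i t.j t.hij]
      congr 1
      ring
    have h2 : ∀ c : ℝ, (Rp (transvection t.i t.j c)).det ≠ 0 := by
      intro c h0
      have h3 : transvection t.i t.j c * transvection t.i t.j (-c) = 1 := by
        rw [transvection_mul_transvection_same t.i t.j t.hij, add_neg_cancel, transvection_zero]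
      have h4 := congrArg (fun g => (Rp g).det) h3
      simp only [Rp_mul, det_mul, h0, mul_zero, Rp_one, det_one] at h4
      exact one_ne_zero h4.symm
    change 0 < (Rp (transvection t.i t.j t.c)).det
    rw [h1, Rp_mul, det_mul]
    exact mul_self_pos.2 (h2 _)
  · intro A B _ _ hA hB
    change 0 < (Rp (A * B)).det
    rw [Rp_mul, det_mul]
    exact mul_pos hB hA

theorem det6_act (g : E) {v : Fin 6 → E} (hv : ∀ i, (v i)ᵀ = v i) :
    det6 (fun i => act g (v i)) = det6 v * (Rp g).det := by
  rw [det6, det6, ← det_mul]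
  congr 1
  ext i j
  rw [mul_apply]
  change ent (act g (v i)) j = _
  rw [ent_act g (hv i)]
  rfl

theorem det6_perm (v : Fin 6 → E) (π : Equiv.Perm (Fin 6)) :
    det6 (v ∘ π) = (π.sign : ℤ) * det6 v := by
  have := det_permute π (Matrix.of fun i j => ent (v i) j)
  exact this

/-- the sign of a real number as an integer -/
noncomputable def sgr (x : ℝ) : ℤ := (SignType.sign x : ℤ)

theorem sgr_mul (x y : ℝ) : sgr (x * y) = sgr x * sgr y := by
  rw [sgr, sgr, sgr, sign_mul]
  simp

theorem sgr_pos {x : ℝ} (h : 0 < x) : sgr x = 1 := by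
  rw [sgr, sign_pos h]; rfl

theorem sgr_neg {x : ℝ} (h : x < 0) : sgr x = -1 := by
  rw [sgr, sign_neg h]; rfl

theorem sgr_sq {x : ℝ} (h : x ≠ 0) : sgr x * sgr x = 1 := by
  rcases lt_or_gt_of_ne h with h | h
  · rw [sgr_neg h]; norm_num
  · rw [sgr_pos h]; norm_num

/-- the orientation given by an enumeration -/
noncomputable def orv (sg : E → E → ℤ) (v : Fin 6 → E) : ℤ := pr sg v * sgr (det6 v)

theorem orv_perm {sg : E → E → ℤ} (h : Sg sg) (v : Fin 6 → E) (π : Equiv.Perm (Fin 6)) :
    orv sg (v ∘ π) = orv sg v := by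
  rw [orv, orv, pr_perm h, det6_perm, sgr_mul]
  rcases Int.units_eq_one_or π.sign with h1 | h1
  · rw [h1]; simp [sgr_pos (zero_lt_one)]
  · rw [h1]
    have : sgr (((-1 : ℤˣ) : ℤ) : ℝ) = -1 := by
      rw [sgr_neg]; norm_num
    rw [this]
    simp

open Classical in
/-- the orientation of a set of six matrices -/
noncomputable def om (sg : E → E → ℤ) (S : Finset E) : ℤ :=
  if h : ∃ v : Fin 6 → E, Function.Injective v ∧ Finset.univ.image v = S then
    orv sg h.choose else 0

theorem om_eq {sg : E → E → ℤ} (h : Sg sg) {v : Fin 6 → E} (hv : Function.Injective v) :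
    om sg (Finset.univ.image v) = orv sg v := by
  have h1 : ∃ w : Fin 6 → E, Function.Injective w ∧ Finset.univ.image w = Finset.univ.image v :=
    ⟨v, hv, rfl⟩
  rw [om, dif_pos h1]
  obtain ⟨hw, e⟩ := h1.choose_spec
  set w := h1.choose
  have hex : ∀ i, ∃ j, v j = w i := by
    intro i
    have : w i ∈ Finset.univ.image v := by
      rw [← e]; exact Finset.mem_image_of_mem _ (Finset.mem_univ i)
    obtain ⟨j, -, hj⟩ := Finset.mem_image.1 this
    exact ⟨j, hj⟩
  choose π hπ using hex
  have hπi : Function.Injective π := by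
    intro a b hab
    refine hw ?_
    rw [← hπ, ← hπ, hab]
  have h2 : w = v ∘ (Equiv.ofBijective π (Finite.injective_iff_bijective.1 hπi)) := by
    funext i
    exact (hπ i).symm
  rw [h2, orv_perm h]

theorem exists_enum {n : ℕ} {S : Finset E} (h : S.card = n) :
    ∃ v : Fin n → E, Function.Injective v ∧ Finset.univ.image v = S := by
  refine ⟨fun i => ((S.equivFinOfCardEq h).symm i).1, ?_, ?_⟩
  · intro a b e
    exact (S.equivFinOfCardEq h).symm.injective (Subtype.ext e)
  · ext X
    rw [Finset.mem_image]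
    constructor
    · rintro ⟨i, -, rfl⟩
      exact ((S.equivFinOfCardEq h).symm i).2
    · intro hX
      exact ⟨S.equivFinOfCardEq h ⟨X, hX⟩, Finset.mem_univ _, by simp⟩

theorem act_inj (g : GR) : Function.Injective (act g.1) := by
  intro X Y e
  have h1 := congrArg (act g⁻¹.1) e
  rwa [act_act, act_act, inv_mul_val, act_one, act_one] at h1

theorem det_ne (g : GR) : g.1.det ≠ 0 :=
  (Matrix.isUnit_iff_isUnit_det _ |>.1 g.isUnit).ne_zero

/-- the orientation of the translates -/
theorem om_act {sg : E → E → ℤ} (h : Sg sg) (g : GR) {S : Finset E} (hS : S.card = 6)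
    (hs : ∀ X ∈ S, Xᵀ = X) : om sg (S.image (act g.1)) = eps sg (act g.1) S * om sg S := by
  obtain ⟨v, hv, rfl⟩ := exists_enum hS
  have hs' : ∀ i, (v i)ᵀ = v i := fun i =>
    hs _ (Finset.mem_image_of_mem _ (Finset.mem_univ i))
  rw [Finset.image_image, om_eq h ((act_inj g).comp hv), om_eq h hv, orv, orv, pr_comp h
    (act_inj g) v hv]
  have h1 : det6 (act g.1 ∘ v) = det6 v * (Rp g.1).det := det6_act g.1 hs'
  rw [h1, sgr_mul, sgr_pos (detRp_pos (det_ne g)), mul_one, mul_assoc]

/-- the determinant of a cone is not zero -/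
theorem det6_ne {h : GR} {v : Fin 6 → E} (hv : Function.Injective v)
    (e : Finset.univ.image v = top h) : det6 v ≠ 0 := by
  intro h0
  obtain ⟨a, ha, ha0⟩ := Matrix.exists_vecMul_eq_zero_iff.2 h0
  have hm : ∀ i, v i ∈ top h := fun i => by
    rw [← e]; exact Finset.mem_image_of_mem _ (Finset.mem_univ i)
  choose π hπ using fun i => mem_top.1 (hm i)
  have hπi : Function.Injective π := by
    intro a b hab
    refine hv ?_
    rw [← hπ, ← hπ, hab]
  have h1 : ent (∑ i, a i • v i) = 0 := by
    rw [ent_sum]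
    funext j
    have := congrFun ha0 j
    rw [Finset.sum_apply]
    simp only [ent_smul, Pi.smul_apply, smul_eq_mul]
    exact this
  have hsym : (∑ i, a i • v i)ᵀ = ∑ i, a i • v i := by
    rw [Matrix.transpose_sum]
    refine Finset.sum_congr rfl fun i _ => ?_
    rw [Matrix.transpose_smul, ← hπ i, xi_symm]
  have h2 := eq_zero_of_ent hsym h1
  refine ha (funext fun i => ?_)
  have h3 := congrArg (cfh h (π i)) h2
  rw [cfh_sum, cfh_zero] at h3
  simp only [cfh_smul, ← hπ, cfh_xi] at h3
  rw [Finset.sum_eq_single i] at h3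
  · simpa using h3
  · intro j _ hj
    rw [if_neg, mul_zero]
    exact fun e => hj (hπi e).symm
  · intro hi
    exact absurd (Finset.mem_univ i) hi

theorem om_sq {sg : E → E → ℤ} (h : Sg sg) (k : GR) : om sg (top k) * om sg (top k) = 1 := by
  obtain ⟨v, hv, e⟩ := exists_enum (card_top k)
  rw [← e, om_eq h hv, orv]
  have h1 := pr_sq h v hv
  have h2 := sgr_sq (det6_ne hv e)
  calc _ = (pr sg v * pr sg v) * (sgr (det6 v) * sgr (det6 v)) := by ring
    _ = 1 := by rw [h1, h2]; norm_num

theorem det6_lin (w : Fin 5 → E) {X : E} {k : GR} {i0 : Fin 6} (hX : Xᵀ = X)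
    (hw : ∀ i, i ≠ i0 → xi k i ∈ Finset.univ.image w) :
    det6 (Fin.cons X w) = cfh k i0 X * det6 (Fin.cons (xi k i0) w) := by
  have hrow : ∀ Y : E, (Matrix.of fun i j => ent ((Fin.cons Y w : Fin 6 → E) i) j) =
      (Matrix.of fun i j => ent ((Fin.cons X w : Fin 6 → E) i) j).updateRow 0 (ent Y) := by
    intro Y
    ext i j
    refine Fin.cases ?_ (fun i => ?_) i
    · simp
    · rw [Matrix.updateRow_ne (Fin.succ_ne_zero i)]
      simp
  set M := (Matrix.of fun i j => ent ((Fin.cons X w : Fin 6 → E) i) j) with hM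
  have h1 : ∀ Y : E, det6 (Fin.cons Y w) = (M.updateRow 0 (ent Y)).det := by
    intro Y
    rw [det6, hrow Y]
  have h2 : ent X = ∑ i, cfh k i X • ent (xi k i) := by
    conv_lhs => rw [decomph k hX, ent_sum]
    exact Finset.sum_congr rfl fun i _ => ent_smul _ _
  have h3 : ∀ i, i ≠ i0 → (M.updateRow 0 (ent (xi k i))).det = 0 := by
    intro i hi
    obtain ⟨j, -, hj⟩ := Finset.mem_image.1 (hw i hi)
    refine Matrix.det_zero_of_row_eq (i := 0) (j := j.succ) (Fin.succ_ne_zero j).symm ?_
    rw [Matrix.updateRow_self, Matrix.updateRow_ne (Fin.succ_ne_zero j)]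
    funext l
    rw [← hj]
    simp [hM]
  rw [h1 X, h2, h1 (xi k i0)]
  have h4 : (M.updateRow 0 (∑ i, cfh k i X • ent (xi k i))).det =
      ∑ i, cfh k i X * (M.updateRow 0 (ent (xi k i))).det := by
    have h5 : ∀ s : Finset (Fin 6), (M.updateRow 0 (∑ i ∈ s, cfh k i X • ent (xi k i))).det =
        ∑ i ∈ s, cfh k i X * (M.updateRow 0 (ent (xi k i))).det := by
      intro s
      induction s using Finset.induction_on with
      | empty =>
        rw [Finset.sum_empty, Finset.sum_empty]
        refine Matrix.det_eq_zero_of_row_eq_zero 0 fun j => ?_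
        rw [Matrix.updateRow_self]
        rfl
      | insert a s ha ih =>
        rw [Finset.sum_insert ha, Finset.sum_insert ha, Matrix.det_updateRow_add,
          Matrix.det_updateRow_smul, ih]
    exact h5 Finset.univ
  rw [h4, Finset.sum_eq_single i0]
  · intro i _ hi
    rw [h3 i hi, mul_zero]
  · intro hi
    exact absurd (Finset.mem_univ i0) hi

/-- two cones with a common facet are on opposite sides -/
theorem om_facet {sg : E → E → ℤ} (h : Sg sg) {B : Set GR} (hB : LatB B) {k k' : GR}
    (hk : k ∈ B) (hk' : k' ∈ B) {ρ : Finset E} {X Y : E} (hX : X ∉ ρ) (hY : Y ∉ ρ) (hXY : X ≠ Y)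
    (e : insert X ρ = top k) (e' : insert Y ρ = top k') :
    s0 sg X ρ * om sg (insert X ρ) = -(s0 sg Y ρ * om sg (insert Y ρ)) := by
  have hc : ρ.card = 5 := by
    have h1 := Finset.card_insert_of_notMem hX
    rw [e, card_top] at h1
    omega
  obtain ⟨w, hw, e0⟩ := exists_enum hc
  have hcons : ∀ Z, Z ∉ ρ → Function.Injective (Fin.cons Z w : Fin 6 → E) := by
    intro Z hZ
    rw [Fin.cons_injective_iff]
    refine ⟨?_, hw⟩
    rintro ⟨j, hj⟩
    refine hZ ?_
    rw [← e0, ← hj]
    exact Finset.mem_image_of_mem _ (Finset.mem_univ j)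
  have himg : ∀ Z, Finset.univ.image (Fin.cons Z w : Fin 6 → E) = insert Z ρ := by
    intro Z
    rw [← e0]
    ext z
    simp [Fin.exists_fin_succ, eq_comm]
  have hom : ∀ Z, Z ∉ ρ → s0 sg Z ρ * om sg (insert Z ρ) =
      pr sg w * sgr (det6 (Fin.cons Z w)) := by
    intro Z hZ
    rw [← himg Z, om_eq h (hcons Z hZ), orv, pr_cons _ _ hw, e0]
    have := s0_sq h hZ
    calc _ = (s0 sg Z ρ * s0 sg Z ρ) * (pr sg w * sgr (det6 (Fin.cons Z w))) := by ring
      _ = _ := by rw [this, one_mul]
  rw [hom X hX, hom Y hY]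
  -- the coordinate of `Y`
  obtain ⟨i0, hi0⟩ : ∃ i, xi k i = X := mem_top.1 (by rw [← e]; exact Finset.mem_insert_self _ _)
  obtain ⟨j0, hj0⟩ : ∃ i, xi k' i = Y := mem_top.1 (by rw [← e']; exact Finset.mem_insert_self _ _)
  have hρ : ∀ i, i ≠ i0 → xi k i ∈ ρ := by
    intro i hi
    have h1 : xi k i ∈ insert X ρ := by rw [e]; exact mem_top.2 ⟨i, rfl⟩
    rw [Finset.mem_insert, ← hi0] at h1
    rcases h1 with h1 | h1
    · exact absurd (xi_inj k h1) hi
    · exact h1
  have hYs : Yᵀ = Y := by rw [← hj0]; exact xi_symm _ _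
  have h1 := det6_lin w hYs (k := k) (i0 := i0) (fun i hi => by rw [e0]; exact hρ i hi)
  rw [hi0] at h1
  have hYt : Y ∉ top k := by
    rw [← e, Finset.mem_insert]
    rintro (h2 | h2)
    · exact hXY h2.symm
    · exact hY h2
  have hXt : X ∉ top k' := by
    rw [← e', Finset.mem_insert]
    rintro (h2 | h2)
    · exact hXY h2
    · exact hX h2
  have hneg : cfh k i0 Y < 0 := by
    have h2 : 1 < lamh k Y := by
      rcases lamh_ge hB hk hk' j0 with h3 | h3
      · rw [hj0] at h3; exact absurd h3 hYt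
      · rwa [hj0] at h3
    have h3 : 1 < lamh k' X := by
      rcases lamh_ge hB hk' hk i0 with h4 | h4
      · rw [hi0] at h4; exact absurd h4 hXt
      · rwa [hi0] at h4
    have h4 : lamh k' Y = 1 := lamh_top (by rw [← e']; exact Finset.mem_insert_self _ _)
    rw [lamh_self k hYs, ← Finset.add_sum_erase _ _ (Finset.mem_univ i0)] at h2
    rw [lamh_decomp k k' hYs, ← Finset.add_sum_erase _ _ (Finset.mem_univ i0), hi0] at h4
    have h5 : ∑ x ∈ Finset.univ.erase i0, cfh k x Y * lamh k' (xi k x) =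
        ∑ x ∈ Finset.univ.erase i0, cfh k x Y := by
      refine Finset.sum_congr rfl fun i hi => ?_
      have h7 : xi k i ∈ top k' := by
        rw [← e']
        exact Finset.mem_insert_of_mem (hρ i (Finset.ne_of_mem_erase hi))
      rw [lamh_top h7, mul_one]
    rw [h5] at h4
    by_contra h6
    push Not at h6
    nlinarith
  rw [h1, sgr_mul, sgr_neg hneg]
  ring

end Pool.Agent.H520.CG3
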