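import Pool.Agent.H520.CG3.Cmp

/-!
# The topological hypotheses (helper520, MP_34be05_nt)
-/

open Q4.GLC NumberField IsDedekindDomain Filter Topology
open scoped RestrictedProduct

namespace Pool.Agent.H520.CG3

theorem small_nat (v : Pl ℚ) (γ : (WithZero (Multiplicative ℤ))ˣ) :
    ∃ n : ℕ, 1 ≤ n ∧ Valued.v ((n : Af ℚ) v) < γ := by
  have h1 : v.valuation ℚ (algebraMap (𝓞 ℚ) ℚ ((Ideal.absNorm v.asIdeal : ℕ) : 𝓞 ℚ)) < 1 := by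
    rw [v.valuation_lt_one_iff_mem]
    exact Ideal.absNorm_mem _
  have h2 : Valued.v (((Ideal.absNorm v.asIdeal : ℕ) : Af ℚ) v) < 1 := by
    have e : ((Ideal.absNorm v.asIdeal : ℕ) : Af ℚ) =
        algebraMap ℚ (Af ℚ) (algebraMap (𝓞 ℚ) ℚ ((Ideal.absNorm v.asIdeal : ℕ) : 𝓞 ℚ)) := by
      rw [map_natCast, map_natCast]
    rw [e, Cls.val_coe]
    exact h1
  obtain ⟨k, hk⟩ := exists_pow_lt₀ h2 γ
  refine ⟨Ideal.absNorm v.asIdeal ^ k, Nat.one_le_pow _ _ ?_, ?_⟩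
  · rw [Nat.pos_iff_ne_zero]
    exact fun h => v.ne_bot (Ideal.absNorm_eq_zero_iff.1 h)
  · have e : ((Ideal.absNorm v.asIdeal ^ k : ℕ) : Af ℚ) v =
        (((Ideal.absNorm v.asIdeal : ℕ) : Af ℚ) v) ^ k := by
      rw [Nat.cast_pow]
      rfl
    rw [e, map_pow]
    exact hk

theorem nhds_v (v : Pl ℚ) {t : Set (v.adicCompletion ℚ)} (ht : t ∈ 𝓝 (0 : v.adicCompletion ℚ)) :
    ∃ n : ℕ, 1 ≤ n ∧ ∀ x : v.adicCompletion ℚ, Valued.v x ≤ Valued.v ((n : Af ℚ) v) → x ∈ t := by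
  rw [Valued.mem_nhds_zero] at ht
  obtain ⟨γ, hγ⟩ := ht
  have h0 : MonoidWithZeroHom.ValueGroup₀.embedding γ.1 ≠ 0 := by
    rw [map_ne_zero]
    exact γ.ne_zero
  obtain ⟨n, hn, hnγ⟩ := small_nat v (Units.mk0 _ h0)
  refine ⟨n, hn, fun x hx => hγ ?_⟩
  change (Valued.v (R := v.adicCompletion ℚ)).restrict x < γ.1
  rw [Valuation.restrict_lt_iff_lt_embedding]
  exact lt_of_le_of_lt hx hnγ

theorem nhds_rp {U : Set (Πʳ v : Pl ℚ, [v.adicCompletion ℚ, v.adicCompletionIntegers ℚ])}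
    (hU : U ∈ 𝓝 0) : ∃ N : ℕ, 1 ≤ N ∧ ∀ a : Af ℚ, DvdN N a → a ∈ U := by
  classical
  have hop : ∀ v : Pl ℚ, IsOpen (v.adicCompletionIntegers ℚ : Set (v.adicCompletion ℚ)) :=
    fun v => Valued.isOpen_valuationSubring _
  have h1 := RestrictedProduct.nhds_zero_eq_map_structureMap
    (R := fun v : Pl ℚ => v.adicCompletion ℚ) (B := fun v => v.adicCompletionIntegers ℚ) hop
  have h0 : RestrictedProduct.structureMap (fun v : Pl ℚ => v.adicCompletion ℚ)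
      (fun v => (v.adicCompletionIntegers ℚ : Set (v.adicCompletion ℚ))) cofinite 0 = 0 := rfl
  rw [← h0, h1, Filter.mem_map, nhds_pi, Filter.mem_pi] at hU
  obtain ⟨I, hI, s, hs, hsub⟩ := hU
  have h2 : ∀ v : Pl ℚ, ∃ n : ℕ, 1 ≤ n ∧ ∀ x : v.adicCompletionIntegers ℚ,
      Valued.v x.1 ≤ Valued.v ((n : Af ℚ) v) → x ∈ s v := by
    intro v
    have h3 := hs v
    rw [nhds_induced, Filter.mem_comap] at h3
    obtain ⟨t, ht, hts⟩ := h3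
    obtain ⟨n, hn, hnt⟩ := nhds_v v ht
    exact ⟨n, hn, fun x hx => hts (hnt _ hx)⟩
  choose n hn hns using h2
  refine ⟨∏ v ∈ hI.toFinset, n v, Nat.one_le_iff_ne_zero.2 (Finset.prod_ne_zero_iff.2 fun v _ =>
    Nat.one_le_iff_ne_zero.1 (hn v)), fun a ha => ?_⟩
  have h5 : ∀ v : Pl ℚ, a v ∈ v.adicCompletionIntegers ℚ := fun v =>
    (Cls.dvdN_one_iff _).1 ha.int v
  refine hsub (a := fun v => ⟨a v, h5 v⟩) fun v hv => hns v _ ?_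
  exact (ha.mono (Finset.dvd_prod_of_mem n (hI.mem_toFinset.2 hv))) v

theorem nhds_Af {U : Set (Af ℚ)} (hU : U ∈ 𝓝 (0 : Af ℚ)) :
    ∃ N : ℕ, 1 ≤ N ∧ ∀ a, DvdN N a → a ∈ U := nhds_rp (U := U) hU

theorem open_Dvd : IsOpen {a : Af ℚ | DvdN 1 a} := by
  have h : {a : Af ℚ | DvdN 1 a} = {a : Af ℚ | ∀ v, a v ∈ v.adicCompletionIntegers ℚ} := by
    ext a
    exact Cls.dvdN_one_iff a
  rw [h]
  exact RestrictedProduct.isOpen_forall_mem fun v => Valued.isOpen_valuationSubring _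

theorem nhds_pi2 {s : Set (Fin 3 → Fin 3 → Af ℚ)} (h3 : s ∈ 𝓝 (0 : Fin 3 → Fin 3 → Af ℚ)) :
    ∃ N : ℕ, 1 ≤ N ∧ ∀ M : Fin 3 → Fin 3 → Af ℚ, (∀ i j, DvdN N (M i j)) → M ∈ s := by
  rw [nhds_pi, Filter.mem_pi] at h3
  obtain ⟨I, -, u, hu, hus⟩ := h3
  have h4 : ∀ i : Fin 3, ∃ N : ℕ, 1 ≤ N ∧ ∀ f : Fin 3 → Af ℚ, (∀ j, DvdN N (f j)) → f ∈ u i := by
    intro i
    have h5 := hu i
    rw [nhds_pi, Filter.mem_pi] at h5
    obtain ⟨J, -, w, hw, hwu⟩ := h5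
    choose n hn hnw using fun j => nhds_Af (hw j)
    refine ⟨∏ j, n j, Nat.one_le_iff_ne_zero.2 (Finset.prod_ne_zero_iff.2 fun j _ =>
      Nat.one_le_iff_ne_zero.1 (hn j)), fun f hf => hwu fun j _ => hnw j _ ?_⟩
    exact (hf j).mono (Finset.dvd_prod_of_mem n (Finset.mem_univ j))
  choose N hN hNu using h4
  refine ⟨∏ i, N i, Nat.one_le_iff_ne_zero.2 (Finset.prod_ne_zero_iff.2 fun i _ =>
    Nat.one_le_iff_ne_zero.1 (hN i)), fun M hM => hus fun i _ => hNu i _ fun j => ?_⟩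
  exact (hM i j).mono (Finset.dvd_prod_of_mem N (Finset.mem_univ i))

theorem nhds_mat {s : Set (Matrix (Fin 3) (Fin 3) (Af ℚ))}
    (hs : s ∈ 𝓝 (1 : Matrix (Fin 3) (Fin 3) (Af ℚ))) :
    ∃ N : ℕ, 1 ≤ N ∧ ∀ M, DvdM N (M - 1) → M ∈ s := by
  have h2 : (fun M : Matrix (Fin 3) (Fin 3) (Af ℚ) => 1 + M) ⁻¹' s ∈
      𝓝 (0 : Matrix (Fin 3) (Fin 3) (Af ℚ)) := by
    refine (continuous_const.add continuous_id).continuousAt.preimage_mem_nhds ?_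
    simpa using hs
  obtain ⟨N, hN, h⟩ := nhds_pi2 h2
  refine ⟨N, hN, fun M hM => ?_⟩
  have h6 : (1 : Matrix (Fin 3) (Fin 3) (Af ℚ)) + (M - (1 : Matrix (Fin 3) (Fin 3) (Af ℚ))) ∈ s :=
    h (M - (1 : Matrix (Fin 3) (Fin 3) (Af ℚ))) hM
  rwa [add_sub_cancel] at h6

/-- neighbourhoods of one contain principal congruence subgroups -/
theorem nhds_UN {V : Set (Gf ℚ 3)} (h1 : V ∈ 𝓝 (1 : Gf ℚ 3)) :
    ∃ N : ℕ, 1 ≤ N ∧ (UN ℚ 3 N : Set (Gf ℚ 3)) ⊆ V := by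
  rw [Units.isInducing_embedProduct.nhds_eq_comap, Filter.mem_comap] at h1
  obtain ⟨s, hs, hsK⟩ := h1
  rw [map_one, Prod.one_eq_mk, nhds_prod_eq, Filter.mem_prod_iff] at hs
  obtain ⟨a, ha, b, hb, hab⟩ := hs
  obtain ⟨N1, hN1, h1⟩ := nhds_mat ha
  have hb' : MulOpposite.op ⁻¹' b ∈ 𝓝 (1 : Matrix (Fin 3) (Fin 3) (Af ℚ)) :=
    MulOpposite.continuous_op.continuousAt.preimage_mem_nhds hb
  obtain ⟨N2, hN2, h2⟩ := nhds_mat hb'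
  refine ⟨N1 * N2, Nat.mul_pos hN1 hN2, fun g hg => hsK (hab ⟨?_, ?_⟩)⟩
  · exact h1 _ fun i j => (hg.1 i j).mono (Dvd.intro _ rfl)
  · exact h2 _ fun i j => (hg.2 i j).mono (Dvd.intro_left _ rfl)

/-- open subgroups contain principal congruence subgroups -/
theorem open_UN {K : Subgroup (Gf ℚ 3)} (hK : IsOpen (K : Set (Gf ℚ 3))) :
    ∃ N : ℕ, 1 ≤ N ∧ UN ℚ 3 N ≤ K := nhds_UN (hK.mem_nhds K.one_mem)

/-- `GL_3(Ẑ)` is open -/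
theorem isOpen_UN : IsOpen (UN ℚ 3 1 : Set (Gf ℚ 3)) := by
  have h : (UN ℚ 3 1 : Set (Gf ℚ 3)) = ⋂ i : Fin 3, ⋂ j : Fin 3,
      ((fun g : Gf ℚ 3 => g.1 i j) ⁻¹' {a : Af ℚ | DvdN 1 a} ∩
        (fun g : Gf ℚ 3 => g⁻¹.1 i j) ⁻¹' {a : Af ℚ | DvdN 1 a}) := by
    ext g
    simp only [Set.mem_iInter, Set.mem_inter_iff, Set.mem_preimage, Set.mem_ofPred_eq,
      Cls.dvdN_one_iff]
    change (DvdM 1 (g.1 - 1) ∧ DvdM 1 (g⁻¹.1 - 1)) ↔ _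
    rw [int_iff, int_iff]
    exact ⟨fun h i j => ⟨h.1 i j, h.2 i j⟩, fun h => ⟨fun i j => (h i j).1, fun i j => (h i j).2⟩⟩
  rw [h]
  refine isOpen_iInter_of_finite fun i => isOpen_iInter_of_finite fun j => IsOpen.inter ?_ ?_
  · exact open_Dvd.preimage ((continuous_id.matrix_elem i j).comp Units.continuous_val)
  · exact open_Dvd.preimage ((continuous_id.matrix_elem i j).comp
      (Units.continuous_val.comp continuous_inv))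

end Pool.Agent.H520.CG3
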